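import Pool.Agent.Lib.KPL.Defs

/-! # Assembly: from the abstract recursion to an elimination structure of width 3 -/

set_option autoImplicit false

namespace KPL

open Set

namespace Asm

variable {V : Type}

/-- every vertex of `R` lies in a component of `G[R]` -/
theorem exists_comp (G : SimpleGraph V) (R : Set V) (v : V) (hv : v ∈ R) :
    ∃ Z, IsComp G R Z ∧ v ∈ Z := by
  classical
  let Z : Set V := {w | ∃ h : w ∈ R, (G.induce R).Reachable ⟨v, hv⟩ ⟨w, h⟩}
  have hvZ : v ∈ Z := ⟨hv, SimpleGraph.Reachable.refl _⟩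
  refine ⟨Z, ⟨?_, ?_, ?_⟩, hvZ⟩
  · rintro w ⟨h, _⟩
    exact h
  · rw [SimpleGraph.connected_iff_exists_forall_reachable]
    refine ⟨⟨v, hvZ⟩, ?_⟩
    rintro ⟨w, hw, hr⟩
    obtain ⟨p⟩ := hr
    -- induction along the walk
    have key : ∀ (a b : R) (q : (G.induce R).Walk a b) (ha : (a : V) ∈ Z),
        ∃ hb : (b : V) ∈ Z, (G.induce Z).Reachable ⟨a, ha⟩ ⟨b, hb⟩ := by
      intro a b q
      induction q with
      | nil => intro ha; exact ⟨ha, SimpleGraph.Reachable.refl _⟩
      | @cons x y z hxy q ih =>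
        intro ha
        have hy : (y : V) ∈ Z := by
          obtain ⟨hx', hr'⟩ := ha
          exact ⟨y.2, hr'.trans (SimpleGraph.Adj.reachable hxy)⟩
        obtain ⟨hz, hr⟩ := ih hy
        refine ⟨hz, ?_⟩
        have hadj : (G.induce Z).Adj ⟨x, ha⟩ ⟨y, hy⟩ := by
          show G.Adj x y
          exact hxy
        exact (SimpleGraph.Adj.reachable hadj).trans hr
    obtain ⟨hb, hr⟩ := key _ _ p hvZ
    exact hr
  · rintro x ⟨hx, hr⟩ y hy hxy
    refine ⟨hy, hr.trans ?_⟩
    have hadj : (G.induce R).Adj ⟨x, hx⟩ ⟨y, hy⟩ := by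
      show G.Adj x y
      exact hxy
    exact SimpleGraph.Adj.reachable hadj

/-- a connected set `Y ⊆ R` that meets a component `Z` of `G[R]` is contained in `Z` -/
theorem comp_absorb (G : SimpleGraph V) (R Z Y : Set V) (hZ : IsComp G R Z) (hYR : Y ⊆ R)
    (hY : (G.induce Y).Preconnected) (x : V) (hxY : x ∈ Y) (hxZ : x ∈ Z) : Y ⊆ Z := by
  intro y hy
  obtain ⟨p⟩ := hY ⟨x, hxY⟩ ⟨y, hy⟩
  have key : ∀ (a b : Y) (q : (G.induce Y).Walk a b), (a : V) ∈ Z → (b : V) ∈ Z := by
    intro a b q
    induction q with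
    | nil => intro ha; exact ha
    | @cons x' y' z' hxy q ih =>
      intro ha
      have hadj : G.Adj (x' : V) (y' : V) := hxy
      exact ih (hZ.closed _ ha _ (hYR y'.2) hadj)
  exact key _ _ p hxZ

/-- the invariant of the process: `t` parts have been created, `col v = t` for the vertices that are
not coloured yet -/
structure Inv (G : SimpleGraph V) (thin : Set V → Prop) (State : Set V → Finset (Set V) → Prop)
    [DecidableEq (Set V)] (t : ℕ) (col : V → ℕ) (A : ℕ → Finset ℕ) : Prop where
  elim : Elim t A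
  le : ∀ v, col v ≤ t
  adj : ∀ u v, G.Adj u v → col u < t → col v < t →
    col u = col v ∨ col u ∈ A (col v) ∨ col v ∈ A (col u)
  thin : ∀ v, col v < t → thin {u | col u = col v}
  ne : ∀ b < t, ∃ v, col v = b
  comp : ∀ Z, IsComp G {v | col v = t} Z → ∃ B : Finset ℕ, (∀ b ∈ B, b < t) ∧ B.card ≤ 3 ∧
    (∀ a ∈ B, ∀ b ∈ B, a < b → a ∈ A b) ∧ (∀ x ∈ Z, ∀ y ∉ Z, G.Adj x y → col y ∈ B) ∧
    State Z (B.image (fun b => {v | col v = b}))

theorem inv_step [DecidableEq (Set V)] (G : SimpleGraph V) (thin : Set V → Prop)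
    (State : Set V → Finset (Set V) → Prop)
    (step : ∀ X 𝒜, State X 𝒜 → 𝒜.card ≤ 3 → (∀ P ∈ 𝒜, Disjoint P X) →
      (G.induce X).Connected →
      ∃ S ⊆ X, S.Nonempty ∧ thin S ∧ ∀ Z : Set V, IsComp G (X \ S) Z →
        ∃ 𝒜' : Finset (Set V), (∀ P ∈ 𝒜', P = S ∨ P ∈ 𝒜) ∧ 𝒜'.card ≤ 3 ∧
          (∀ x ∈ Z, ∀ y ∉ Z, G.Adj x y → ∃ P ∈ 𝒜', y ∈ P) ∧ State Z 𝒜')
    (t : ℕ) (col : V → ℕ) (A : ℕ → Finset ℕ) (h : Inv G thin State t col A) (v : V)
    (hv : col v = t) :
    ∃ (col' : V → ℕ) (A' : ℕ → Finset ℕ), Inv G thin State (t+1) col' A' ∧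
      {u | col' u = t + 1} ⊂ {u | col u = t} := by
  classical
  obtain ⟨Z, hZ, hvZ⟩ := exists_comp G {u | col u = t} v hv
  obtain ⟨B, hBt, hB3, hBc, hBn, hBS⟩ := h.comp Z hZ
  have hZt : ∀ u ∈ Z, col u = t := fun u hu => hZ.sub hu
  obtain ⟨S, hSZ, hSne, hSthin, hS⟩ := step Z _ hBS (Finset.card_image_le.trans hB3) (by
    intro P hP
    rw [Finset.mem_image] at hP
    obtain ⟨b, hb, rfl⟩ := hP
    rw [Set.disjoint_left]
    intro u hu huZ
    have h1 : col u = b := hu
    have h2 := hZt u huZ
    have h3 := hBt b hb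
    omega) hZ.conn
  let col' : V → ℕ := fun u => if u ∈ S then t else if col u = t then t + 1 else col u
  let A' : ℕ → Finset ℕ := fun i => if i = t then B else A i
  have hcS : ∀ u ∈ S, col' u = t := fun u hu => if_pos hu
  have hcR : ∀ u, u ∉ S → col u = t → col' u = t + 1 := by
    intro u hu hut
    show (if u ∈ S then t else if col u = t then t + 1 else col u) = t + 1
    rw [if_neg hu, if_pos hut]
  have hcO : ∀ u, col u < t → col' u = col u := by
    intro u hut
    show (if u ∈ S then t else if col u = t then t + 1 else col u) = col u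
    rw [if_neg, if_neg (by omega)]
    intro hu
    have := hZt u (hSZ hu)
    omega
  have htri : ∀ u, (u ∈ S ∧ col u = t ∧ col' u = t) ∨ (u ∉ S ∧ col u = t ∧ col' u = t + 1) ∨
      (u ∉ S ∧ col u < t ∧ col' u = col u) := by
    intro u
    by_cases hu : u ∈ S
    · exact Or.inl ⟨hu, hZt u (hSZ hu), hcS u hu⟩
    · rcases (h.le u).lt_or_eq with h1 | h1
      · exact Or.inr (Or.inr ⟨hu, h1, hcO u h1⟩)
      · exact Or.inr (Or.inl ⟨hu, h1, hcR u hu h1⟩)
  have hpartS : {u | col' u = t} = S := by
    ext u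
    constructor
    · intro hu
      have hu' : col' u = t := hu
      rcases htri u with h1 | h1 | h1
      · exact h1.1
      · omega
      · omega
    · intro hu
      exact hcS u hu
  have hpartO : ∀ b < t, {u | col' u = b} = {u | col u = b} := by
    intro b hb
    ext u
    constructor
    · intro hu
      have hu' : col' u = b := hu
      show col u = b
      rcases htri u with h1 | h1 | h1 <;> omega
    · intro hu
      have hu' : col u = b := hu
      show col' u = b
      rcases htri u with h1 | h1 | h1 <;> omega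
  have hpartR : {u | col' u = t + 1} = {u | col u = t} \ S := by
    ext u
    constructor
    · intro hu
      have hu' : col' u = t + 1 := hu
      rcases htri u with h1 | h1 | h1
      · omega
      · exact ⟨h1.2.1, h1.1⟩
      · omega
    · rintro ⟨hu, huS⟩
      exact hcR u huS hu
  have hA't : A' t = B := if_pos rfl
  have hA'O : ∀ b < t, A' b = A b := fun b hb => if_neg (by omega)
  have hdisj : ∀ u ∈ S, ∀ w, G.Adj u w → col w < t → col w ∈ B := by
    intro u hu w huw hw
    refine hBn u (hSZ hu) w ?_ huw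
    intro hwZ
    have := hZt w hwZ
    omega
  refine ⟨col', A', ⟨?_, ?_, ?_, ?_, ?_, ?_⟩, ?_⟩
  · -- Elim
    intro i hi
    rcases (Nat.lt_succ_iff.mp hi).lt_or_eq with h1 | h1
    · rw [hA'O i h1]
      obtain ⟨e1, e2, e3⟩ := h.elim i h1
      refine ⟨e1, e2, ?_⟩
      intro a ha b hb hab
      rw [hA'O b (by have := e1 b hb; omega)]
      exact e3 a ha b hb hab
    · rw [h1, hA't]
      refine ⟨hBt, hB3, ?_⟩
      intro a ha b hb hab
      rw [hA'O b (hBt b hb)]
      exact hBc a ha b hb hab
  · intro u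
    rcases htri u with h1 | h1 | h1 <;> omega
  · intro u w huw hu hw
    rcases htri u with h1 | h1 | h1
    · rcases htri w with h2 | h2 | h2
      · left; omega
      · omega
      · right; right
        rw [h1.2.2, hA't, h2.2.2]
        exact hdisj u h1.1 w huw h2.2.1
    · omega
    · rcases htri w with h2 | h2 | h2
      · right; left
        rw [h2.2.2, hA't, h1.2.2]
        exact hdisj w h2.1 u huw.symm h1.2.1
      · omega
      · rw [h1.2.2, h2.2.2, hA'O _ h1.2.1, hA'O _ h2.2.1]
        exact h.adj u w huw h1.2.1 h2.2.1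
  · intro u hu
    rcases htri u with h1 | h1 | h1
    · rw [h1.2.2, hpartS]
      exact hSthin
    · omega
    · rw [h1.2.2, hpartO _ h1.2.1]
      exact h.thin u h1.2.1
  · intro b hb
    rcases (Nat.lt_succ_iff.mp hb).lt_or_eq with h1 | h1
    · obtain ⟨u, hu⟩ := h.ne b h1
      exact ⟨u, by rw [hcO u (by omega)]; exact hu⟩
    · obtain ⟨u, hu⟩ := hSne
      exact ⟨u, by rw [hcS u hu, h1]⟩
  · intro Z' hZ'
    rw [hpartR] at hZ'
    by_cases hmeet : ∃ x, x ∈ Z' ∧ x ∈ Z
    · obtain ⟨x, hx', hx⟩ := hmeet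
      have hsub : Z' ⊆ Z := comp_absorb G _ Z Z' hZ (fun y hy => (hZ'.sub hy).1)
        hZ'.conn.preconnected x hx' hx
      have hcomp : IsComp G (Z \ S) Z' := by
        refine ⟨fun y hy => ⟨hsub hy, (hZ'.sub hy).2⟩, hZ'.conn, ?_⟩
        intro y hy z hz hyz
        exact hZ'.closed y hy z ⟨hZt z hz.1, hz.2⟩ hyz
      obtain ⟨𝒜', hA'sub, hA'3, hA'n, hA'S⟩ := hS Z' hcomp
      let B' : Finset ℕ := (insert t B).filter (fun b => {u | col' u = b} ∈ 𝒜')
      have hB'mem : ∀ b, b ∈ B' ↔ (b = t ∨ b ∈ B) ∧ {u | col' u = b} ∈ 𝒜' := by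
        intro b
        show b ∈ (insert t B).filter (fun b => {u | col' u = b} ∈ 𝒜') ↔ _
        rw [Finset.mem_filter, Finset.mem_insert]
      have himg : B'.image (fun b => {u | col' u = b}) = 𝒜' := by
        ext P
        rw [Finset.mem_image]
        constructor
        · rintro ⟨b, hb, rfl⟩
          exact ((hB'mem b).1 hb).2
        · intro hP
          rcases hA'sub P hP with h1 | h1
          · refine ⟨t, ?_, ?_⟩
            · rw [hB'mem]
              refine ⟨Or.inl rfl, ?_⟩
              rw [hpartS, ← h1]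
              exact hP
            · show {u | col' u = t} = P
              rw [hpartS, h1]
          · rw [Finset.mem_image] at h1
            obtain ⟨b, hb, hbP⟩ := h1
            have hbP' : {u | col' u = b} = P := by
              rw [hpartO b (hBt b hb)]
              exact hbP
            refine ⟨b, ?_, hbP'⟩
            rw [hB'mem]
            refine ⟨Or.inr hb, ?_⟩
            rw [hbP']
            exact hP
      have hB't : ∀ b ∈ B', b < t + 1 := by
        intro b hb
        rcases ((hB'mem b).1 hb).1 with h1 | h1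
        · omega
        · have := hBt b h1
          omega
      have hne' : ∀ b < t + 1, ∃ u, col' u = b := by
        intro b hb
        rcases (Nat.lt_succ_iff.mp hb).lt_or_eq with h1 | h1
        · obtain ⟨u, hu⟩ := h.ne b h1
          exact ⟨u, by rw [hcO u (by omega)]; exact hu⟩
        · obtain ⟨u, hu⟩ := hSne
          exact ⟨u, by rw [hcS u hu, h1]⟩
      have hinj : Set.InjOn (fun b : ℕ => {u | col' u = b}) (B' : Set ℕ) := by
        intro a ha b hb hab
        obtain ⟨u, hu⟩ := hne' a (hB't a ha)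
        have hab' : {u | col' u = a} = {u | col' u = b} := hab
        have h1 : u ∈ {u | col' u = a} := hu
        rw [hab'] at h1
        have h2 : col' u = b := h1
        omega
      refine ⟨B', hB't, ?_, ?_, ?_, ?_⟩
      · rw [← Finset.card_image_of_injOn hinj, himg]
        exact hA'3
      · intro a ha b hb hab
        rcases ((hB'mem b).1 hb).1 with h1 | h1
        · rcases ((hB'mem a).1 ha).1 with h2 | h2
          · omega
          · rw [h1, hA't]
            exact h2
        · have hbt := hBt b h1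
          rcases ((hB'mem a).1 ha).1 with h2 | h2
          · omega
          · rw [hA'O b hbt]
            exact hBc a h2 b h1 hab
      · intro y hy z hz hyz
        obtain ⟨P, hP, hzP⟩ := hA'n y hy z hz hyz
        rw [← himg, Finset.mem_image] at hP
        obtain ⟨b, hb, hbP⟩ := hP
        rw [← hbP] at hzP
        have : col' z = b := hzP
        rw [this]
        exact hb
      · rw [himg]
        exact hA'S
    · have hcomp : IsComp G {u | col u = t} Z' := by
        refine ⟨fun y hy => (hZ'.sub hy).1, hZ'.conn, ?_⟩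
        intro y hy z hz hyz
        refine hZ'.closed y hy z ⟨hz, ?_⟩ hyz
        intro hzS
        exact hmeet ⟨y, hy, hZ.closed z (hSZ hzS) y (hZ'.sub hy).1 hyz.symm⟩
      obtain ⟨C, hC1, hC2, hC3, hC4, hC5⟩ := h.comp Z' hcomp
      refine ⟨C, fun b hb => by have := hC1 b hb; omega, hC2, ?_, ?_, ?_⟩
      · intro a ha b hb hab
        rw [hA'O b (hC1 b hb)]
        exact hC3 a ha b hb hab
      · intro y hy z hz hyz
        have h1 := hC4 y hy z hz hyz
        rw [hcO z (hC1 _ h1)]
        exact h1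
      · have himg : C.image (fun b => {u | col' u = b}) = C.image (fun b => {u | col u = b}) := by
          apply Finset.image_congr
          intro b hb
          exact hpartO b (hC1 b hb)
        rw [himg]
        exact hC5
  · rw [hpartR]
    refine ⟨Set.sdiff_subset, ?_⟩
    intro hsub
    obtain ⟨u, hu⟩ := hSne
    exact (hsub (hZt u (hSZ hu))).2 hu

end Asm

theorem assembly {V : Type} [Fintype V] (G : SimpleGraph V) (thin : Set V → Prop)
    (State : Set V → Finset (Set V) → Prop)
    (step : ∀ X 𝒜, State X 𝒜 → 𝒜.card ≤ 3 → (∀ P ∈ 𝒜, Disjoint P X) →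
      (G.induce X).Connected →
      ∃ S ⊆ X, S.Nonempty ∧ thin S ∧ ∀ Z : Set V, IsComp G (X \ S) Z →
        ∃ 𝒜' : Finset (Set V), (∀ P ∈ 𝒜', P = S ∨ P ∈ 𝒜) ∧ 𝒜'.card ≤ 3 ∧
          (∀ x ∈ Z, ∀ y ∉ Z, G.Adj x y → ∃ P ∈ 𝒜', y ∈ P) ∧ State Z 𝒜')
    (init : ∀ Z, IsComp G univ Z → State Z ∅) :
    ∃ (n : ℕ) (col : V → ℕ) (A : ℕ → Finset ℕ), Elim n A ∧ (∀ v, col v < n) ∧
      (∀ u v, G.Adj u v → col u = col v ∨ col u ∈ A (col v) ∨ col v ∈ A (col u)) ∧
      ∀ v, thin {u | col u = col v} := by
  classical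
  have main : ∀ (m t : ℕ) (col : V → ℕ) (A : ℕ → Finset ℕ), Asm.Inv G thin State t col A →
      {u | col u = t}.ncard ≤ m →
      ∃ (n : ℕ) (col : V → ℕ) (A : ℕ → Finset ℕ), Elim n A ∧ (∀ v, col v < n) ∧
      (∀ u v, G.Adj u v → col u = col v ∨ col u ∈ A (col v) ∨ col v ∈ A (col u)) ∧
      ∀ v, thin {u | col u = col v} := by
    intro m
    induction m with
    | zero =>
      intro t col A h hm
      have hemp : {u | col u = t} = ∅ := by
        rw [← Set.ncard_eq_zero (Set.toFinite _)]
        omega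
      have hlt : ∀ u, col u < t := by
        intro u
        rcases (h.le u).lt_or_eq with h1 | h1
        · exact h1
        · exfalso
          have : u ∈ {u | col u = t} := h1
          rw [hemp] at this
          exact this
      exact ⟨t, col, A, h.elim, hlt, fun u v huv => h.adj u v huv (hlt u) (hlt v),
        fun v => h.thin v (hlt v)⟩
    | succ m ih =>
      intro t col A h hm
      by_cases hex : ∃ v, col v = t
      · obtain ⟨v, hv⟩ := hex
        obtain ⟨col', A', h', hlt⟩ := Asm.inv_step G thin State step t col A h v hv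
        have := Set.ncard_lt_ncard hlt (Set.toFinite _)
        exact ih (t+1) col' A' h' (by omega)
      · have hlt : ∀ u, col u < t := by
          intro u
          rcases (h.le u).lt_or_eq with h1 | h1
          · exact h1
          · exact absurd ⟨u, h1⟩ hex
        exact ⟨t, col, A, h.elim, hlt, fun u v huv => h.adj u v huv (hlt u) (hlt v),
          fun v => h.thin v (hlt v)⟩
  refine main _ 0 (fun _ => 0) (fun _ => ∅) ⟨?_, ?_, ?_, ?_, ?_, ?_⟩ le_rfl
  · intro i hi
    omega
  · intro v
    exact le_rfl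
  · intro u v _ hu
    omega
  · intro u hu
    omega
  · intro b hb
    omega
  · intro Z hZ
    have huniv : {v : V | (fun _ : V => (0:ℕ)) v = 0} = univ := by
      ext v
      simp
    rw [huniv] at hZ
    refine ⟨∅, ?_, ?_, ?_, ?_, ?_⟩
    · intro b hb
      simp at hb
    · simp
    · intro a ha
      simp at ha
    · intro x hx y hy hxy
      exact absurd (hZ.closed x hx y (Set.mem_univ y) hxy) hy
    · rw [Finset.image_empty]
      exact init Z hZ

end KPL
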