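import Pool.Agent.Lib.KPL.Defs

/-! Module A2: an elimination structure of width 3 gives a tree decomposition of width 3 and an
embedding into `H ⊠ P ⊠ K_m`. -/

set_option autoImplicit false

namespace KPL

open Set

namespace A2

/-- parent of the node `s` (node `t + 1` belongs to the vertex `t`, node `0` is the root) -/
noncomputable def par (A : ℕ → Finset ℕ) (s : ℕ) : ℕ :=
  if h : (A (s - 1)).Nonempty then (A (s - 1)).max' h + 1 else 0

theorem par_lt {n : ℕ} {A : ℕ → Finset ℕ} (hE : Elim n A) {s : ℕ} (hs : s ≠ 0) (hsn : s < n + 1) :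
    par A s < s := by
  unfold par
  split_ifs with h
  · have h1 := (hE (s - 1) (by omega)).1 _ ((A (s - 1)).max'_mem h)
    omega
  · omega

/-- the tree on the nodes `0, …, n` -/
def tree (n : ℕ) (A : ℕ → Finset ℕ) : SimpleGraph (Fin (n + 1)) where
  Adj i j := i ≠ j ∧ (((i : ℕ) ≠ 0 ∧ par A i = j) ∨ ((j : ℕ) ≠ 0 ∧ par A j = i))
  symm := by
    constructor
    rintro i j ⟨h, h'⟩
    exact ⟨h.symm, h'.symm⟩
  loopless := by
    constructor
    intro i h
    exact h.1 rfl

theorem tree_adj_par {n : ℕ} {A : ℕ → Finset ℕ} (hE : Elim n A) (i : Fin (n + 1)) (hi : (i : ℕ) ≠ 0) :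
    (tree n A).Adj i ⟨par A i, by have := par_lt hE hi i.2; omega⟩ := by
  have h := par_lt hE hi i.2
  refine ⟨?_, Or.inl ⟨hi, rfl⟩⟩
  intro h'
  have := congrArg Fin.val h'
  simp at this
  omega

theorem tree_connected {n : ℕ} {A : ℕ → Finset ℕ} (hE : Elim n A) : (tree n A).Connected := by
  have key : ∀ (s : ℕ) (hs : s < n + 1), (tree n A).Reachable ⟨s, hs⟩ ⟨0, by omega⟩ := by
    intro s
    induction s using Nat.strong_induction_on with
    | _ s ih =>
      intro hs
      by_cases h0 : s = 0
      · subst h0; exact SimpleGraph.Reachable.refl _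
      · have hlt := par_lt hE h0 hs
        have hadj := tree_adj_par hE ⟨s, hs⟩ h0
        exact hadj.reachable.trans (ih _ hlt (by omega))
  have : Nonempty (Fin (n + 1)) := ⟨⟨0, by omega⟩⟩
  refine ⟨?_⟩
  intro i j
  exact (key i i.2).trans (key j j.2).symm

theorem tree_isTree {n : ℕ} {A : ℕ → Finset ℕ} (hE : Elim n A) : (tree n A).IsTree := by
  classical
  rw [SimpleGraph.isTree_iff_connected_and_card]
  refine ⟨tree_connected hE, ?_⟩
  have h1 := (tree_connected hE).card_vert_le_card_edgeSet_add_one
  have h2 : Nat.card (tree n A).edgeSet ≤ n := by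
    have hsub : (tree n A).edgeSet ⊆
        (fun i : Fin n => s(i.succ, (⟨par A i.succ, by
          have := par_lt hE (s := (i.succ : Fin (n+1))) (by simp) i.succ.2
          have := i.succ.2
          omega⟩ : Fin (n+1)))) '' Set.univ := by
      intro e
      induction e using Sym2.ind with
      | _ a b =>
        intro hab
        rw [SimpleGraph.mem_edgeSet] at hab
        rcases hab.2 with ⟨h, h'⟩ | ⟨h, h'⟩
        · refine ⟨⟨(a : ℕ) - 1, by have := a.2; omega⟩, trivial, ?_⟩
          have ha : (⟨(a : ℕ) - 1, by have := a.2; omega⟩ : Fin n).succ = a := by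
            ext; simp; omega
          simp only [ha]
          have hb' : (⟨par A a, by rw [h']; exact b.2⟩ : Fin (n + 1)) = b := Fin.ext h'
          rw [hb']
        · refine ⟨⟨(b : ℕ) - 1, by have := b.2; omega⟩, trivial, ?_⟩
          have hb : (⟨(b : ℕ) - 1, by have := b.2; omega⟩ : Fin n).succ = b := by
            ext; simp; omega
          simp only [hb]
          rw [Sym2.eq_swap]
          have ha' : (⟨par A b, by rw [h']; exact a.2⟩ : Fin (n + 1)) = a := Fin.ext h'
          rw [ha']
    have h3 : (tree n A).edgeSet.ncard ≤ n := by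
      refine (Set.ncard_le_ncard hsub (Set.toFinite _)).trans ?_
      refine (Set.ncard_image_le (Set.toFinite _)).trans ?_
      rw [Set.ncard_univ, Nat.card_eq_fintype_card, Fintype.card_fin]
    rwa [← Nat.card_coe_set_eq] at h3
  have h3 : Nat.card (Fin (n + 1)) = n + 1 := by simp
  omega

/-- the bags -/
def bag (n : ℕ) (A : ℕ → Finset ℕ) (s : Fin (n + 1)) : Finset (Fin n) :=
  Finset.univ.filter (fun a : Fin n => (s : ℕ) ≠ 0 ∧ ((a : ℕ) + 1 = s ∨ (a : ℕ) ∈ A (s - 1)))

theorem mem_bag {n : ℕ} {A : ℕ → Finset ℕ} {s : Fin (n + 1)} {a : Fin n} :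
    a ∈ bag n A s ↔ (s : ℕ) ≠ 0 ∧ ((a : ℕ) + 1 = s ∨ (a : ℕ) ∈ A (s - 1)) := by
  simp [bag]

theorem bag_card {n : ℕ} {A : ℕ → Finset ℕ} (hE : Elim n A) (s : Fin (n + 1)) :
    (bag n A s).card ≤ 4 := by
  classical
  by_cases hs : (s : ℕ) = 0
  · have : bag n A s = ∅ := by
      ext a; simp [mem_bag, hs]
    rw [this]; simp
  · have h1 : ((bag n A s).image (fun a : Fin n => (a : ℕ))) ⊆ insert ((s : ℕ) - 1) (A (s - 1)) := by
      intro x hx
      rw [Finset.mem_image] at hx
      obtain ⟨a, ha, rfl⟩ := hx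
      rw [mem_bag] at ha
      rw [Finset.mem_insert]
      rcases ha.2 with h | h
      · left; omega
      · right; exact h
    have h2 : (bag n A s).card = ((bag n A s).image (fun a : Fin n => (a : ℕ))).card := by
      rw [Finset.card_image_of_injective _ Fin.val_injective]
    rw [h2]
    refine (Finset.card_le_card h1).trans ?_
    refine (Finset.card_insert_le _ _).trans ?_
    have := (hE ((s : ℕ) - 1) (by have := s.2; omega)).2.1
    omega

/-- inside the set of nodes whose bag contains `a`, every node is connected to the node `a + 1` -/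
theorem bag_reach {n : ℕ} {A : ℕ → Finset ℕ} (hE : Elim n A) (a : Fin n) :
    ∀ (s : ℕ) (hs : s < n + 1) (h : a ∈ bag n A ⟨s, hs⟩),
      ((tree n A).induce {i | a ∈ bag n A i}).Reachable ⟨⟨s, hs⟩, h⟩
        ⟨a.succ, by
          show a ∈ bag n A a.succ
          rw [mem_bag]; simp⟩ := by
  intro s
  induction s using Nat.strong_induction_on with
  | _ s ih =>
    intro hs h
    have h' := h
    rw [mem_bag] at h'
    obtain ⟨h0, h1⟩ := h'
    simp only at h0 h1
    by_cases hsa : (a : ℕ) + 1 = s
    · subst hsa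
      exact SimpleGraph.Reachable.refl _
    · have hmem : (a : ℕ) ∈ A (s - 1) := by
        rcases h1 with h1 | h1
        · exact absurd h1 hsa
        · exact h1
      have hne : (A (s - 1)).Nonempty := ⟨_, hmem⟩
      have hpar : par A s = (A (s - 1)).max' hne + 1 := by
        unfold par; rw [dif_pos hne]
      have hle : (a : ℕ) ≤ (A (s - 1)).max' hne := Finset.le_max' _ _ hmem
      have hlt := par_lt hE h0 hs
      have hb : a ∈ bag n A ⟨par A s, by omega⟩ := by
        rw [mem_bag]
        simp only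
        refine ⟨by omega, ?_⟩
        rcases Nat.lt_or_ge (a : ℕ) ((A (s - 1)).max' hne) with h2 | h2
        · right
          have := (hE (s - 1) (by omega)).2.2 _ hmem _ ((A (s - 1)).max'_mem hne) h2
          rw [hpar]
          simpa using this
        · left
          omega
      have hadj : ((tree n A).induce {i | a ∈ bag n A i}).Adj ⟨⟨s, hs⟩, h⟩
          ⟨⟨par A s, by omega⟩, hb⟩ := by
        rw [SimpleGraph.comap_adj]
        exact tree_adj_par hE ⟨s, hs⟩ h0
      exact hadj.reachable.trans (ih _ hlt (by omega) hb)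

/-- the graph `H` -/
def H (n : ℕ) (A : ℕ → Finset ℕ) : SimpleGraph (Fin n) :=
  SimpleGraph.fromRel (fun a b : Fin n => (a : ℕ) ∈ A b)

theorem treewidth_H {n : ℕ} {A : ℕ → Finset ℕ} (hE : Elim n A) : TreewidthLE (H n A) 3 := by
  refine ⟨Fin (n + 1), inferInstance, tree n A, bag n A, tree_isTree hE, bag_card hE, ?_, ?_, ?_⟩
  · intro a
    refine ⟨a.succ, ?_⟩
    rw [mem_bag]; simp
  · intro a b hab
    rw [H, SimpleGraph.fromRel_adj] at hab
    rcases hab.2 with h | h
    · refine ⟨b.succ, ?_, ?_⟩
      · rw [mem_bag]; simp [h]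
      · rw [mem_bag]; simp
    · refine ⟨a.succ, ?_, ?_⟩
      · rw [mem_bag]; simp
      · rw [mem_bag]; simp [h]
  · intro a
    rintro ⟨i, hi⟩ ⟨j, hj⟩
    have h1 := bag_reach hE a i i.2 hi
    have h2 := bag_reach hE a j j.2 hj
    exact h1.trans h2.symm

end A2

theorem elim_inProduct {V : Type} [Fintype V] (G : SimpleGraph V) (n m : ℕ) (col : V → ℕ)
    (A : ℕ → Finset ℕ) (L : V → ℕ) (hE : Elim n A) (hcol : ∀ v, col v < n)
    (hadj : ∀ u v, G.Adj u v → col u = col v ∨ col u ∈ A (col v) ∨ col v ∈ A (col u))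
    (hL : ∀ u v, G.Adj u v → L u ≤ L v + 1)
    (hthin : ∀ v i, {u | col u = col v ∧ L u = i}.ncard ≤ m) : InProduct G 3 m := by
  classical
  -- indices inside the classes
  have hg : ∀ c i : ℕ, ∃ g : V → ℕ, (∀ u, col u = c → L u = i → g u < m) ∧
      (∀ u v, col u = c → L u = i → col v = c → L v = i → g u = g v → u = v) := by
    intro c i
    let S : Finset V := Finset.univ.filter (fun u => col u = c ∧ L u = i)
    have hS : ∀ u, u ∈ S ↔ (col u = c ∧ L u = i) := by intro u; simp [S]
    refine ⟨fun u => if h : u ∈ S then (S.equivFin ⟨u, h⟩ : ℕ) else 0, ?_, ?_⟩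
    · intro u hu hu'
      have h : u ∈ S := (hS u).2 ⟨hu, hu'⟩
      simp only [dif_pos h]
      have h1 : (S.equivFin ⟨u, h⟩ : ℕ) < S.card := (S.equivFin ⟨u, h⟩).2
      have h2 : S.card ≤ m := by
        have h3 := hthin u i
        have h4 : {w | col w = col u ∧ L w = i} = (S : Set V) := by
          ext w; simp [S, hu]
        rw [h4, Set.ncard_coe_finset] at h3
        exact h3
      omega
    · intro u v hu hu' hv hv' huv
      have h : u ∈ S := (hS u).2 ⟨hu, hu'⟩
      have h' : v ∈ S := (hS v).2 ⟨hv, hv'⟩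
      simp only [dif_pos h, dif_pos h'] at huv
      have h3 := S.equivFin.injective (Fin.val_injective huv)
      simpa using h3
  choose g hgm hginj using hg
  let NL : ℕ := Finset.univ.sup L + 1
  have hNL : ∀ v, L v < NL := by
    intro v
    have : L v ≤ Finset.univ.sup L := Finset.le_sup (Finset.mem_univ v)
    omega
  let f : V → (Fin n × Fin NL) × Fin m := fun v =>
    ((⟨col v, hcol v⟩, ⟨L v, hNL v⟩), ⟨g (col v) (L v) v, hgm _ _ v rfl rfl⟩)
  have hf : Function.Injective f := by
    intro u v huv
    simp only [f, Prod.mk.injEq, Fin.mk.injEq] at huv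
    obtain ⟨⟨h1, h2⟩, h3⟩ := huv
    refine hginj (col v) (L v) u v h1 h2 rfl rfl ?_
    rw [h1, h2] at h3
    exact h3
  refine ⟨Fin n, inferInstance, A2.H n A, NL, A2.treewidth_H hE, f, hf, ?_⟩
  intro u v huv
  have hne : f u ≠ f v := fun h => huv.ne (hf h)
  refine ⟨hne, ?_, ?_⟩
  · by_cases h : (f u).1 = (f v).1
    · left; exact h
    · right
      refine ⟨h, ?_, ?_⟩
      · rcases hadj u v huv with h1 | h1 | h1
        · left
          show (⟨col u, hcol u⟩ : Fin n) = ⟨col v, hcol v⟩
          exact Fin.ext h1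
        · right
          show (A2.H n A).Adj ⟨col u, hcol u⟩ ⟨col v, hcol v⟩
          rw [A2.H, SimpleGraph.fromRel_adj]
          refine ⟨?_, Or.inl h1⟩
          intro h2
          have h3 : col u = col v := congrArg Fin.val h2
          have := (hE _ (hcol v)).1 _ h1
          omega
        · right
          show (A2.H n A).Adj ⟨col u, hcol u⟩ ⟨col v, hcol v⟩
          rw [A2.H, SimpleGraph.fromRel_adj]
          refine ⟨?_, Or.inr h1⟩
          intro h2
          have h3 : col u = col v := congrArg Fin.val h2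
          have := (hE _ (hcol u)).1 _ h1
          omega
      · have h1 := hL u v huv
        have h2 := hL v u huv.symm
        by_cases h3 : L u = L v
        · left
          show (⟨L u, hNL u⟩ : Fin NL) = ⟨L v, hNL v⟩
          exact Fin.ext h3
        · right
          show (SimpleGraph.pathGraph NL).Adj ⟨L u, hNL u⟩ ⟨L v, hNL v⟩
          rw [SimpleGraph.pathGraph_adj]
          simp only
          omega
  · by_cases h : (f u).2 = (f v).2
    · left; exact h
    · right
      rw [SimpleGraph.top_adj]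
      exact h

end KPL
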