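import Pool.Agent.Lib.KPL.Defs

/-!
Tree lemma: Erdős–Pósa property of subtrees of a tree together with the closure under lowest
common ancestors.
-/

set_option autoImplicit false

namespace KPL

open Set

section order

variable {I : Type} [PartialOrder I]

/-- abstract form of a connected subset of a rooted tree -/
def OSub (D : Set I) : Prop := ∃ d ∈ D, ∀ x ∈ D, d ≤ x ∧ ∀ y, d ≤ y → y ≤ x → y ∈ D

/-- `z` is the meet of `a` and `b` -/
def OMeet (z a b : I) : Prop := z ≤ a ∧ z ≤ b ∧ ∀ w, w ≤ a → w ≤ b → w ≤ z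

theorem OMeet.symm {z a b : I} (h : OMeet z a b) : OMeet z b a :=
  ⟨h.2.1, h.1, fun w h1 h2 => h.2.2 w h2 h1⟩

def OClosed (F : Finset I) : Prop := ∀ x ∈ F, ∀ y ∈ F, ∃ z ∈ F, OMeet z x y

theorem oclosed_insert [Fintype I] (htree : ∀ a b x : I, a ≤ x → b ≤ x → a ≤ b ∨ b ≤ a) (r : I)
    (hr : ∀ x, r ≤ x) (F : Finset I) (hF : OClosed F) (x : I) :
    ∃ F2 : Finset I, F2.card ≤ F.card + 2 ∧ F ⊆ F2 ∧ x ∈ F2 ∧ OClosed F2 := by
  classical
  rcases F.eq_empty_or_nonempty with rfl | ⟨f1, hf1⟩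
  · refine ⟨{x}, by simp, by simp, by simp, ?_⟩
    intro a ha b hb
    rw [Finset.mem_singleton] at ha hb
    rw [ha, hb]
    exact ⟨x, by simp, le_rfl, le_rfl, fun w h _ => h⟩
  · have hne : {y : I | y ≤ x ∧ ∃ f ∈ F, y ≤ f}.Nonempty := ⟨r, hr x, f1, hf1, hr f1⟩
    obtain ⟨y, hy⟩ := (Set.toFinite {y : I | y ≤ x ∧ ∃ f ∈ F, y ≤ f}).exists_maximal hne
    obtain ⟨⟨hyx, f0, hf0, hyf0⟩, hmax⟩ := hy
    have hmx : ∀ w, w ≤ x → ∀ f ∈ F, w ≤ f → w ≤ y := by
      intro w hw f hf hwf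
      rcases htree w y x hw hyx with h | h
      · exact h
      · exact hmax ⟨hw, f, hf, hwf⟩ h
    refine ⟨insert x (insert y F), ?_, ?_, by simp, ?_⟩
    · refine (Finset.card_insert_le _ _).trans ?_
      have := Finset.card_insert_le y F
      omega
    · intro f hf; simp [hf]
    · have hyf : ∀ f ∈ F, ∃ z ∈ insert x (insert y F), OMeet z y f := by
        intro f hf
        by_cases h : y ≤ f
        · exact ⟨y, by simp, le_rfl, h, fun w h1 _ => h1⟩
        · obtain ⟨z, hz, hz1, hz2, hz3⟩ := hF f0 hf0 f hf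
          refine ⟨z, by simp [hz], ?_, hz2, fun w h1 h2 => hz3 w (h1.trans hyf0) h2⟩
          rcases htree y z f0 hyf0 hz1 with h' | h'
          · exact absurd (h'.trans hz2) h
          · exact h'
      have hxf : ∀ f ∈ F, ∃ z ∈ insert x (insert y F), OMeet z x f := by
        intro f hf
        obtain ⟨z, hz, hz1, hz2, hz3⟩ := hyf f hf
        exact ⟨z, hz, hz1.trans hyx, hz2, fun w h1 h2 => hz3 w (hmx w h1 f hf h2) h2⟩
      have hxy : OMeet y x y := ⟨hyx, le_rfl, fun w _ h => h⟩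
      intro a ha b hb
      rw [Finset.mem_insert, Finset.mem_insert] at ha hb
      rcases ha with rfl | rfl | ha
      · rcases hb with rfl | rfl | hb
        · exact ⟨_, by simp, le_rfl, le_rfl, fun w h _ => h⟩
        · exact ⟨_, by simp, hxy⟩
        · exact hxf b hb
      · rcases hb with rfl | rfl | hb
        · exact ⟨_, by simp, hxy.symm⟩
        · exact ⟨_, by simp, le_rfl, le_rfl, fun w h _ => h⟩
        · exact hyf b hb
      · rcases hb with rfl | rfl | hb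
        · obtain ⟨z, hz, h⟩ := hxf a ha
          exact ⟨z, hz, h.symm⟩
        · obtain ⟨z, hz, h⟩ := hyf a ha
          exact ⟨z, hz, h.symm⟩
        · obtain ⟨z, hz, h⟩ := hF a ha b hb
          exact ⟨z, by simp [hz], h⟩

theorem order_lemma [Fintype I] (htree : ∀ a b x : I, a ≤ x → b ≤ x → a ≤ b ∨ b ≤ a) (r : I)
    (hr : ∀ x, r ≤ x) (n : ℕ) : ∀ (𝓓 : Set (Set I)) (_ : ∀ D ∈ 𝓓, OSub D)
    (_ : ¬ ∃ f : Fin (n+1) → Set I, (∀ j, f j ∈ 𝓓) ∧ ∀ i j, i ≠ j → Disjoint (f i) (f j)),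
    ∃ F : Finset I, F.card ≤ 2 * n ∧ (∀ D ∈ 𝓓, ∃ i ∈ F, i ∈ D) ∧ OClosed F := by
  classical
  induction n with
  | zero =>
    intro 𝓓 h𝓓 hn
    refine ⟨∅, by simp, fun D hD => ?_, by intro x hx; simp at hx⟩
    exfalso
    refine hn ⟨fun _ => D, fun _ => hD, fun i j hij => ?_⟩
    exact absurd (Fin.ext (by omega)) hij
  | succ n ih =>
    intro 𝓓 h𝓓 hn
    by_cases h0 : 𝓓 = ∅
    · subst h0
      exact ⟨∅, by simp, fun D hD => by simp at hD, by intro x hx; simp at hx⟩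
    obtain ⟨D0, hD0⟩ := Set.nonempty_iff_ne_empty.2 h0
    let S : Set I := {t | ∃ D ∈ 𝓓, t ∈ D ∧ ∀ x ∈ D, t ≤ x ∧ ∀ y, t ≤ y → y ≤ x → y ∈ D}
    have hS : S.Nonempty := by
      obtain ⟨d, hd, h⟩ := h𝓓 D0 hD0
      exact ⟨d, D0, hD0, hd, h⟩
    obtain ⟨t, ⟨D, hD, htD, ht⟩, hmax⟩ := (Set.toFinite S).exists_maximal hS
    obtain ⟨F, hF1, hF2, hF3⟩ := ih {D' | D' ∈ 𝓓 ∧ t ∉ D'} (fun D' h => h𝓓 D' h.1) (by
      rintro ⟨f, hf1, hf2⟩
      have hdis : ∀ i, Disjoint D (f i) := by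
        intro i
        rw [Set.disjoint_left]
        intro x hx hx'
        obtain ⟨hfi, hti⟩ := hf1 i
        obtain ⟨t', ht', h'⟩ := h𝓓 _ hfi
        rcases htree t t' x (ht x hx).1 (h' x hx').1 with h | h
        · have : t' ≤ t := hmax ⟨f i, hfi, ht', h'⟩ h
          exact hti ((h' x hx').2 t this (ht x hx).1)
        · exact hti ((h' x hx').2 t h (ht x hx).1)
      refine hn ⟨Fin.cons D f, ?_, ?_⟩
      · intro j
        refine Fin.cases ?_ (fun j => ?_) j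
        · simpa using hD
        · simpa using (hf1 j).1
      · intro i j
        refine Fin.cases ?_ (fun i => ?_) i <;> refine Fin.cases ?_ (fun j => ?_) j
        · intro h; exact absurd rfl h
        · intro _; simpa using hdis j
        · intro _; simpa using (hdis i).symm
        · intro h
          simpa using hf2 i j (fun h' => h (by rw [h'])))
    obtain ⟨F2, h1, h2, h3, h4⟩ := oclosed_insert htree r hr F hF3 t
    refine ⟨F2, by omega, fun D' hD' => ?_, h4⟩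
    by_cases h : t ∈ D'
    · exact ⟨t, h3, h⟩
    · obtain ⟨i, hi, hi'⟩ := hF2 D' ⟨hD', h⟩
      exact ⟨i, h2 hi, hi'⟩

theorem order_two (I : Type) [PartialOrder I] [Fintype I]
    (htree : ∀ a b x : I, a ≤ x → b ≤ x → a ≤ b ∨ b ≤ a)
    (F : Finset I) (hF : OClosed F) (C : Set I) (hC : OSub C) (hCF : ∀ i ∈ C, i ∉ F)
    (hne : F.Nonempty) :
    ∃ f1 ∈ F, ∃ f2 ∈ F, ∀ D : Set I, OSub D → (D ∩ C).Nonempty →
          (∃ i ∈ F, i ∈ D) → f1 ∈ D ∨ f2 ∈ D := by
  classical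
  obtain ⟨c, hcC, hc⟩ := hC
  have hcF : c ∉ F := hCF c hcC
  obtain ⟨f1, hf1, hf1m⟩ : ∃ f1 ∈ F, ∀ h ∈ F, h ≤ c → h ≤ f1 ∧ f1 ≤ c := by
    by_cases h : ∃ h ∈ F, h ≤ c
    · obtain ⟨h, hh, hhc⟩ := h
      obtain ⟨f1, ⟨hf1, hf1c⟩, hmax⟩ := (Set.toFinite {y : I | y ∈ F ∧ y ≤ c}).exists_maximal
        ⟨h, hh, hhc⟩
      refine ⟨f1, hf1, fun g hg hgc => ⟨?_, hf1c⟩⟩
      rcases htree g f1 c hgc hf1c with h' | h'
      · exact h'
      · exact hmax ⟨hg, hgc⟩ h'
    · obtain ⟨f, hf⟩ := hne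
      exact ⟨f, hf, fun g hg hgc => absurd ⟨g, hg, hgc⟩ h⟩
  let G : Set I := {f | f ∈ F ∧ ∃ y, y ≤ f ∧ y ≤ c ∧ ∀ h ∈ F, h ≤ c → h < y}
  obtain ⟨f2, hf2, hf2G⟩ : ∃ f2 ∈ F, ∀ f ∈ G, f2 ∈ G ∧ f2 ≤ f := by
    by_cases h : G.Nonempty
    · obtain ⟨g, hgG, hmin⟩ := (Set.toFinite G).exists_minimal h
      refine ⟨g, hgG.1, fun f hf => ⟨hgG, ?_⟩⟩
      obtain ⟨hfF, y', hy'1, hy'2, hy'3⟩ := hf
      obtain ⟨hgF, y, hy1, hy2, hy3⟩ := hgG
      obtain ⟨z, hz, hz1, hz2, hz3⟩ := hF g hgF f hfF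
      have hzG : z ∈ G := by
        rcases htree y y' c hy2 hy'2 with h | h
        · exact ⟨hz, y, hz3 y hy1 (h.trans hy'1), hy2, hy3⟩
        · exact ⟨hz, y', hz3 y' (h.trans hy1) hy'1, hy'2, hy'3⟩
      exact (hmin hzG hz1).trans hz2
    · obtain ⟨f, hf⟩ := hne
      exact ⟨f, hf, fun g hg => absurd ⟨g, hg⟩ h⟩
  refine ⟨f1, hf1, f2, hf2, ?_⟩
  rintro D ⟨d, hdD, hd⟩ ⟨x, hxD, hxC⟩ ⟨f, hfF, hfD⟩
  by_cases hfG : f ∈ G
  · right
    obtain ⟨⟨_, y, hy1, hy2, hy3⟩, hf2f⟩ := hf2G f hfG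
    have hnx : ¬ f2 ≤ x := by
      intro h
      rcases htree f2 c x h (hc x hxC).1 with h' | h'
      · exact absurd (hy3 f2 hf2 h') (not_lt_of_ge hy1)
      · exact hCF f2 ((hc x hxC).2 f2 h' h) hf2
    rcases htree f2 d f hf2f (hd f hfD).1 with h | h
    · exact absurd (h.trans (hd x hxD).1) hnx
    · exact (hd f hfD).2 f2 h hf2f
  · left
    have hdc : d ≤ c := by
      rcases htree d c x (hd x hxD).1 (hc x hxC).1 with h | h
      · exact h
      · exfalso
        apply hfG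
        refine ⟨hfF, c, h.trans (hd f hfD).1, le_rfl, fun g hg hgc => lt_of_le_of_ne hgc ?_⟩
        rintro rfl
        exact hcF hg
    have : ¬ ∀ h ∈ F, h ≤ c → h < d := fun h => hfG ⟨hfF, d, (hd f hfD).1, hdc, h⟩
    push Not at this
    obtain ⟨h, hh, hhc, hhd⟩ := this
    have hdh : d ≤ h := by
      rcases htree h d c hhc hdc with h' | h'
      · rcases h'.eq_or_lt with h'' | h''
        · exact h''.ge
        · exact absurd h'' hhd
      · exact h'
    have h1 := hf1m h hh hhc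
    exact (hd x hxD).2 f1 (hdh.trans h1.1) (h1.2.trans (hc x hxC).1)

end order

/-! ### Rooting a tree -/

theorem exists_parent {I : Type} (T : SimpleGraph I) (hT : T.IsTree) (r : I) :
    ∃ (p : I → I) (dep : I → ℕ), (∀ x, dep (p x) = dep x - 1) ∧ (∀ x, dep x = 0 → x = r) ∧
      dep r = 0 ∧ p r = r ∧ (∀ x y, T.Adj x y → p x = y ∨ p y = x) := by
  classical
  choose P hP hP' using fun x => hT.existsUnique_path r x
  have hnil : P r = SimpleGraph.Walk.nil := (hP' r _ SimpleGraph.Walk.IsPath.nil).symm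
  refine ⟨fun x => (P x).penultimate, fun x => (P x).length, ?_, ?_, ?_, ?_, ?_⟩
  · intro x
    have h1 : (P x).dropLast.IsPath := (hP x).dropLast
    have h2 := hP' _ _ h1
    show (P (P x).penultimate).length = (P x).length - 1
    rw [← h2]
    simp
  · intro x hx
    exact (SimpleGraph.Walk.eq_of_length_eq_zero hx).symm
  · show (P r).length = 0
    rw [hnil]; rfl
  · show (P r).penultimate = r
    rw [hnil]; rfl
  · intro x y hxy
    by_cases h : y ∈ (P x).support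
    · left
      exact (hT.isAcyclic.eq_penultimate_of_adj_end (hP x) hxy h).symm
    · right
      have := hP' y _ ((hP x).concat h hxy)
      show (P y).penultimate = x
      rw [← this]
      simp

theorem tree_order {I : Type} (T : SimpleGraph I) (hT : T.IsTree) :
    ∃ (r : I) (_o : PartialOrder I), (∀ a b x : I, a ≤ x → b ≤ x → a ≤ b ∨ b ≤ a) ∧
      (∀ x, r ≤ x) ∧ ∀ D : Set I, (T.induce D).Connected → OSub D := by
  classical
  obtain ⟨r⟩ := hT.connected.nonempty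
  obtain ⟨p, dep, h1, h2, h3, h4, h5⟩ := exists_parent T hT r
  have hdep : ∀ n x, dep (p^[n] x) = dep x - n := by
    intro n
    induction n with
    | zero => intro x; simp
    | succ n ih =>
      intro x
      rw [Function.iterate_succ_apply', h1, ih]
      omega
  let o : PartialOrder I :=
    { le := fun a x => ∃ n : ℕ, p^[n] x = a
      le_refl := fun x => ⟨0, rfl⟩
      le_trans := by
        rintro a b c ⟨n, rfl⟩ ⟨m, rfl⟩
        exact ⟨n + m, by rw [Function.iterate_add_apply]⟩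
      le_antisymm := by
        rintro a b ⟨n, hn⟩ ⟨m, hm⟩
        rcases Nat.eq_zero_or_pos n with h | h
        · subst h; exact hn.symm
        · have e1 := hdep n b
          have e2 := hdep m a
          rw [hn] at e1
          rw [hm] at e2
          rw [h2 a (by omega), h2 b (by omega)] }
  refine ⟨r, o, ?_, ?_, ?_⟩
  · rintro a b x ⟨n, rfl⟩ ⟨m, rfl⟩
    rcases le_total n m with h | h
    · right
      refine ⟨m - n, ?_⟩
      rw [← Function.iterate_add_apply, Nat.sub_add_cancel h]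
    · left
      refine ⟨n - m, ?_⟩
      rw [← Function.iterate_add_apply, Nat.sub_add_cancel h]
  · intro x
    exact ⟨dep x, h2 _ (by rw [hdep]; omega)⟩
  · intro D hD
    have hne : D.Nonempty := by
      obtain ⟨d⟩ := hD.nonempty
      exact ⟨d.1, d.2⟩
    obtain ⟨d, hd, hmin⟩ : ∃ d ∈ D, ∀ x ∈ D, dep d ≤ dep x := by
      have hex : ∃ n, ∃ d ∈ D, dep d = n := by
        obtain ⟨d, hd⟩ := hne
        exact ⟨dep d, d, hd, rfl⟩
      obtain ⟨d, hd, hd'⟩ := Nat.find_spec hex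
      refine ⟨d, hd, fun x hx => ?_⟩
      rw [hd']
      exact Nat.find_min' hex ⟨x, hx, rfl⟩
    have hpd : ∀ x ∈ D, p d = x → x = d := by
      intro x hx h
      have := hmin x hx
      rw [← h, h1] at this
      rw [← h, h2 d (by omega), h4]
    refine ⟨d, hd, ?_⟩
    have key : ∀ (u v : D), (T.induce D).Adj u v →
        (o.le d u.1 ∧ ∀ y, o.le d y → o.le y u.1 → y ∈ D) →
        (o.le d v.1 ∧ ∀ y, o.le d y → o.le y v.1 → y ∈ D) := by
      rintro ⟨u, hu⟩ ⟨v, hv⟩ huv ⟨hdu, hy⟩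
      have huv' : T.Adj u v := huv
      rcases h5 u v huv' with h | h
      · -- v = p u
        have hvu : o.le v u := ⟨1, h⟩
        obtain ⟨n, hn⟩ := hdu
        have hn' : p^[n] u = d := hn
        rcases Nat.eq_zero_or_pos n with h0 | h0
        · subst h0
          have hud : u = d := hn'
          subst hud
          have := hpd v hv h
          subst this
          exact ⟨⟨0, rfl⟩, hy⟩
        · refine ⟨⟨n - 1, ?_⟩, fun y h1 h2 => hy y h1 (o.le_trans _ _ _ h2 hvu)⟩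
          show p^[n-1] v = d
          rw [← h, ← Function.iterate_succ_apply, Nat.succ_eq_add_one, Nat.sub_add_cancel h0, hn']
      · have huv2 : o.le u v := ⟨1, h⟩
        refine ⟨o.le_trans _ _ _ hdu huv2, fun y hy1 hy2 => ?_⟩
        obtain ⟨n, hn⟩ := hy2
        have hn' : p^[n] v = y := hn
        rcases Nat.eq_zero_or_pos n with h0 | h0
        · subst h0
          have : v = y := hn'
          rw [← this]; exact hv
        · refine hy y hy1 ⟨n - 1, ?_⟩
          show p^[n-1] u = y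
          rw [← h, ← Function.iterate_succ_apply, Nat.succ_eq_add_one, Nat.sub_add_cancel h0, hn']
    have hw : ∀ (u v : D), (T.induce D).Walk u v →
        (o.le d u.1 ∧ ∀ y, o.le d y → o.le y u.1 → y ∈ D) →
        (o.le d v.1 ∧ ∀ y, o.le d y → o.le y v.1 → y ∈ D) := by
      intro u v w
      induction w with
      | nil => exact id
      | cons h _ ih => exact fun hu => ih (key _ _ h hu)
    intro x hx
    obtain ⟨w⟩ := hD.preconnected ⟨d, hd⟩ ⟨x, hx⟩
    exact hw _ _ w ⟨⟨0, rfl⟩, fun y hy1 hy2 => by rw [o.le_antisymm y d hy2 hy1]; exact hd⟩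

theorem tree_lemma {I : Type} [Fintype I] (T : SimpleGraph I) (hT : T.IsTree) (𝓓 : Set (Set I))
    (h𝓓 : ∀ D ∈ 𝓓, (T.induce D).Connected) (n : ℕ)
    (hn : ¬ ∃ f : Fin (n+1) → Set I, (∀ j, f j ∈ 𝓓) ∧ ∀ i j, i ≠ j → Disjoint (f i) (f j)) :
    ∃ F : Finset I, F.card ≤ 2 * n ∧ (∀ D ∈ 𝓓, ∃ i ∈ F, i ∈ D) ∧
      ∀ C : Set I, (T.induce C).Connected → (∀ i ∈ C, i ∉ F) → F.Nonempty →
        ∃ f1 ∈ F, ∃ f2 ∈ F, ∀ D : Set I, (T.induce D).Connected → (D ∩ C).Nonempty →
          (∃ i ∈ F, i ∈ D) → f1 ∈ D ∨ f2 ∈ D := by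
  obtain ⟨r, o, htree, hr, hsub⟩ := tree_order T hT
  obtain ⟨F, hF1, hF2, hF3⟩ := @order_lemma I o _ htree r hr n 𝓓 (fun D hD => hsub D (h𝓓 D hD)) hn
  refine ⟨F, hF1, hF2, fun C hC hCF hne => ?_⟩
  obtain ⟨f1, hf1, f2, hf2, h⟩ := @order_two I o _ htree F hF3 C (hsub C hC) hCF hne
  exact ⟨f1, hf1, f2, hf2, fun D hD => h D (hsub D hD)⟩

end KPL
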