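import Pool.Agent.Lib.KPL.Defs

/-!
# Module A4 (helper22): connected unions, independent triples, pigeonhole
-/

set_option autoImplicit false

namespace KPL

open Set

/-! ### A4 connected sets of host vertices give connected sets of nodes -/
theorem union_connected {Q I : Type} (N : SimpleGraph Q) (T : SimpleGraph I) (B : Q → Set I)
    (hB : ∀ z, (T.induce (B z)).Connected)
    (hadj : ∀ z w, N.Adj z w → (B z ∩ B w).Nonempty) (A : Set Q) (hA : (N.induce A).Connected) :
    (T.induce {i | ∃ z ∈ A, i ∈ B z}).Connected := by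
  set U : Set I := {i | ∃ z ∈ A, i ∈ B z} with hU
  have hsub : ∀ z ∈ A, B z ⊆ U := fun z hz i hi => ⟨z, hz, hi⟩
  have hloc : ∀ z (hz : z ∈ A) (i j : I) (hi : i ∈ B z) (hj : j ∈ B z),
      (T.induce U).Reachable ⟨i, hsub z hz hi⟩ ⟨j, hsub z hz hj⟩ := by
    intro z hz i j hi hj
    have h1 := (hB z).preconnected ⟨i, hi⟩ ⟨j, hj⟩
    exact h1.map (SimpleGraph.induceHomOfLE T (hsub z hz)).toHom
  have hwalk : ∀ (z w : A), (N.induce A).Walk z w → ∀ (i j : I) (hi : i ∈ B z) (hj : j ∈ B w),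
      (T.induce U).Reachable ⟨i, hsub z z.2 hi⟩ ⟨j, hsub w w.2 hj⟩ := by
    intro z w p
    induction p with
    | nil => 
      intro i j hi hj
      exact hloc _ (Subtype.mem _) i j hi hj
    | @cons a b c h p ih =>
      intro i j hi hj
      obtain ⟨x, hx1, hx2⟩ := hadj a b h
      exact (hloc a a.2 i x hi hx1).trans (ih x j hx2 hj)
  have hne : Nonempty (↑U) := by
    obtain ⟨z⟩ := hA.nonempty
    obtain ⟨i⟩ := (hB z).nonempty
    exact ⟨⟨i.1, hsub z z.2 i.2⟩⟩
  refine ⟨?_⟩
  rintro ⟨i, z, hz, hi⟩ ⟨j, w, hw, hj⟩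
  obtain ⟨p⟩ := hA.preconnected ⟨z, hz⟩ ⟨w, hw⟩
  exact hwalk _ _ p i j hi hj

/-! ### A5 two combinatorial lemmas -/

/-- a nonempty finite set contains a vertex with small in-degree inside the set -/
theorem exists_small_indeg {J : Type} [Fintype J] (R : J → J → Prop) (d : ℕ)
    (hd : ∀ j, {j' | R j j'}.ncard ≤ d) (s : Finset J) (hs : s.Nonempty) :
    ∃ v ∈ s, ∃ t ⊆ s, s.card ≤ t.card + (2 * d + 1) ∧ ∀ u ∈ t, u ≠ v ∧ ¬ R u v ∧ ¬ R v u := by
  classical
  have hout : ∀ u, (s.filter (fun v => R u v)).card ≤ d := by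
    intro u
    refine le_trans ?_ (hd u)
    rw [← Set.ncard_coe_finset]
    apply Set.ncard_le_ncard _ (Set.toFinite _)
    intro v hv
    exact (Finset.mem_filter.mp hv).2
  have hsum : ∑ v ∈ s, (s.filter (fun u => R u v)).card ≤ ∑ _v ∈ s, d := by
    have h1 : ∑ v ∈ s, (s.filter (fun u => R u v)).card =
        ∑ u ∈ s, (s.filter (fun v => R u v)).card := by
      simp_rw [Finset.card_filter]
      rw [Finset.sum_comm]
    rw [h1]
    exact Finset.sum_le_sum (fun u _ => hout u)
  obtain ⟨v, hv, hvd⟩ := Finset.exists_le_of_sum_le hs hsum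
  refine ⟨v, hv, s.filter (fun u => u ≠ v ∧ ¬ R u v ∧ ¬ R v u), Finset.filter_subset _ _, ?_, ?_⟩
  · have h2 : s ⊆ (s.filter (fun u => u ≠ v ∧ ¬ R u v ∧ ¬ R v u)) ∪
        ((s.filter (fun u => R u v)) ∪ ((s.filter (fun u => R v u)) ∪ {v})) := by
      intro u hu
      by_cases h3 : u = v
      · simp [h3]
      · by_cases h4 : R u v
        · simp [h4, hu]
        · by_cases h5 : R v u
          · simp [h5, hu]
          · simp [h3, h4, h5, hu]
    have h6 := (Finset.card_le_card h2).trans (Finset.card_union_le _ _)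
    have h7 := Finset.card_union_le (s.filter (fun u => R u v))
      ((s.filter (fun u => R v u)) ∪ {v})
    have h8 := Finset.card_union_le (s.filter (fun u => R v u)) {v}
    have h9 := hout v
    rw [Finset.card_singleton] at h8
    omega
  · intro u hu
    exact (Finset.mem_filter.mp hu).2

theorem indep_triple {J : Type} [Fintype J] (R : J → J → Prop) (d : ℕ)
    (hd : ∀ j, {j' | R j j'}.ncard ≤ d) (hJ : 4 * d + 3 ≤ Fintype.card J) :
    ∃ f : Fin 3 → J, Function.Injective f ∧ ∀ a b, a ≠ b → ¬ R (f a) (f b) := by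
  classical
  obtain ⟨v1, _, t1, _, hc1, ht1⟩ := exists_small_indeg R d hd Finset.univ (by
    rw [← Finset.card_pos, Finset.card_univ]
    omega)
  rw [Finset.card_univ] at hc1
  obtain ⟨v2, hv2, t2, hs2, hc2, ht2⟩ := exists_small_indeg R d hd t1 (by
    rw [← Finset.card_pos]
    omega)
  obtain ⟨v3, hv3⟩ : t2.Nonempty := by
    rw [← Finset.card_pos]
    omega
  obtain ⟨h12, h12', h12''⟩ := ht1 v2 hv2
  obtain ⟨h13, h13', h13''⟩ := ht1 v3 (hs2 hv3)
  obtain ⟨h23, h23', h23''⟩ := ht2 v3 hv3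
  refine ⟨![v1, v2, v3], ?_, ?_⟩
  · intro a b hab
    fin_cases a <;> fin_cases b <;>
      first
      | rfl
      | exact absurd hab h12.symm
      | exact absurd hab h12
      | exact absurd hab h13.symm
      | exact absurd hab h13
      | exact absurd hab h23.symm
      | exact absurd hab h23
  · intro a b hab
    fin_cases a <;> fin_cases b <;>
      first
      | exact absurd rfl hab
      | exact h12'
      | exact h12''
      | exact h13'
      | exact h13''
      | exact h23'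
      | exact h23''

/-- a function on at least `M ^ 2` points is injective or constant on at least `M` of them -/
theorem pigeon_one {J α : Type} (g : J → α) (M : ℕ) (s : Finset J) (hs : M ^ 2 ≤ s.card) :
    ∃ t ⊆ s, M ≤ t.card ∧ (Set.InjOn g t ∨ ∃ v, ∀ j ∈ t, g j = v) := by
  classical
  by_cases h : M ≤ (s.image g).card
  · obtain ⟨u, hus, hu1, hu2⟩ := Finset.exists_subset_injOn_image_eq_of_surjOn (f := g) (s : Set J)
      (s.image g) (by
        intro y hy
        simpa using hy)
    have hinj : Set.InjOn g (u : Set J) := hu1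
    refine ⟨u, ?_, ?_, Or.inl hinj⟩
    · intro x hx
      exact hus hx
    · rw [← Finset.card_image_of_injOn hinj]
      rw [hu2]
      exact h
  · push Not at h
    rcases Nat.eq_zero_or_pos M with h0 | h0
    · omega
    · have hne : s.Nonempty := by
        rw [← Finset.card_pos]
        have : 0 < M ^ 2 := by positivity
        omega
      obtain ⟨y, hy, hyc⟩ := Finset.exists_le_card_fiber_of_mul_le_card_of_maps_to
        (s := s) (t := s.image g) (f := g) (n := M) (fun a ha => Finset.mem_image_of_mem g ha)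
        (hne.image g) (by nlinarith [h.le, hs])
      exact ⟨s.filter (fun x => g x = y), Finset.filter_subset _ _, hyc,
        Or.inr ⟨y, fun j hj => (Finset.mem_filter.mp hj).2⟩⟩

theorem pigeon {J α : Type} [Fintype J] (g : Fin 3 → J → α) (m : ℕ) (hm : m ^ 8 ≤ Fintype.card J) :
    ∃ s : Finset J, m ≤ s.card ∧ ∀ i, (Set.InjOn (g i) s ∨ ∃ v, ∀ j ∈ s, g i j = v) := by
  classical
  obtain ⟨t0, _, hc0, h0⟩ := pigeon_one (g 0) (m ^ 4) Finset.univ (by
    rw [Finset.card_univ]
    calc (m ^ 4) ^ 2 = m ^ 8 := by ring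
      _ ≤ _ := hm)
  obtain ⟨t1, hs1, hc1, h1⟩ := pigeon_one (g 1) (m ^ 2) t0 (by
    calc (m ^ 2) ^ 2 = m ^ 4 := by ring
      _ ≤ _ := hc0)
  obtain ⟨t2, hs2, hc2, h2⟩ := pigeon_one (g 2) m t1 hc1
  have key : ∀ (t u : Finset J) (f : J → α), u ⊆ t →
      (Set.InjOn f t ∨ ∃ v, ∀ j ∈ t, f j = v) → (Set.InjOn f u ∨ ∃ v, ∀ j ∈ u, f j = v) := by
    intro t u f hut h
    rcases h with h | ⟨v, hv⟩
    · exact Or.inl (h.mono (by exact_mod_cast hut))
    · exact Or.inr ⟨v, fun j hj => hv j (hut hj)⟩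
  refine ⟨t2, hc2, ?_⟩
  intro i
  fin_cases i
  · exact key t0 t2 (g 0) (hs2.trans hs1) h0
  · exact key t1 t2 (g 1) hs2 h1
  · exact h2

end KPL
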