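import Pool.Agent.Lib.KPL.Defs

/-!
# String facts (module B1, helper56)
-/

set_option autoImplicit false
set_option linter.unusedSectionVars false

namespace KPL

open Set

/-- reachability inside a set of vertices -/
def B1Rch {Q : Type} (N : SimpleGraph Q) (A : Set Q) (x y : Q) : Prop :=
  ∃ (hx : x ∈ A) (hy : y ∈ A), (N.induce A).Reachable ⟨x, hx⟩ ⟨y, hy⟩

section rch

variable {Q : Type} {N : SimpleGraph Q} {A B : Set Q} {x y z : Q}

lemma B1Rch.refl (hx : x ∈ A) : B1Rch N A x x := ⟨hx, hx, SimpleGraph.Reachable.refl _⟩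

lemma B1Rch.symm (h : B1Rch N A x y) : B1Rch N A y x := by
  obtain ⟨hx, hy, h⟩ := h
  exact ⟨hy, hx, SimpleGraph.Reachable.symm h⟩

lemma B1Rch.trans (h : B1Rch N A x y) (h' : B1Rch N A y z) : B1Rch N A x z := by
  obtain ⟨hx, hy, h⟩ := h
  obtain ⟨_, hz, h'⟩ := h'
  exact ⟨hx, hz, SimpleGraph.Reachable.trans h h'⟩

lemma B1Rch.adj (hx : x ∈ A) (hy : y ∈ A) (h : N.Adj x y) : B1Rch N A x y :=
  ⟨hx, hy, SimpleGraph.Adj.reachable (by simpa using h)⟩

lemma B1Rch.mono (h : B1Rch N A x y) (hAB : A ⊆ B) : B1Rch N B x y := by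
  obtain ⟨hx, hy, h⟩ := h
  refine ⟨hAB hx, hAB hy, ?_⟩
  exact SimpleGraph.Reachable.map (SimpleGraph.induceHomOfLE N hAB).toHom h

lemma B1_connected_of_rch (hx : x ∈ A) (h : ∀ y ∈ A, B1Rch N A x y) : (N.induce A).Connected := by
  have key : ∀ y : A, (N.induce A).Reachable ⟨x, hx⟩ y := by
    rintro ⟨y, hy⟩
    obtain ⟨_, _, h'⟩ := h y hy
    exact h'
  have : Nonempty A := ⟨⟨x, hx⟩⟩
  exact ⟨fun a b => (key a).symm.trans (key b)⟩

lemma B1_rch_of_connected (h : (N.induce A).Connected) (hx : x ∈ A) (hy : y ∈ A) : B1Rch N A x y :=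
  ⟨hx, hy, h.preconnected _ _⟩

/-- a segment of a sequence of adjacent vertices -/
lemma B1_rch_seg (c : ℕ → Q) (a b : ℕ) (hab : a ≤ b) (hA : ∀ i, a ≤ i → i ≤ b → c i ∈ A)
    (hadj : ∀ i, a ≤ i → i < b → N.Adj (c i) (c (i + 1))) : B1Rch N A (c a) (c b) := by
  induction b with
  | zero =>
    have : a = 0 := by omega
    subst this
    exact B1Rch.refl (hA 0 le_rfl le_rfl)
  | succ b ih =>
    by_cases h : a = b + 1
    · subst h
      exact B1Rch.refl (hA _ le_rfl le_rfl)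
    · have h1 := ih (by omega) (fun i h1 h2 => hA i h1 (by omega))
        (fun i h1 h2 => hadj i h1 (by omega))
      exact h1.trans (B1Rch.adj (hA b (by omega) (by omega)) (hA (b + 1) (by omega) le_rfl)
        (hadj b (by omega) (by omega)))

end rch

section strings

variable {V Q : Type} [Fintype V] [Fintype Q] {G : SimpleGraph V} {N : SimpleGraph Q} {k : ℕ}
  (S : StrSys G N k)

/-- a string parametrised from one of its ends -/
lemma B1_param (e : S.E) (s : V) (hs : S.inc s e) :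
    ∃ (c : ℕ → Q), c 0 = S.ι s ∧
      ((c (S.len e) = S.ι (S.tgt e) ∧ S.src e = s) ∨ (c (S.len e) = S.ι (S.src e) ∧ S.tgt e = s)) ∧
      (∀ i, i < S.len e → N.Adj (c i) (c (i + 1))) ∧
      (∀ i, 0 < i → i < S.len e → c i ∈ S.inter e) ∧
      ∀ z ∈ S.inter e, ∃ i, 0 < i ∧ i < S.len e ∧ c i = z := by
  rcases hs with hs | hs
  · refine ⟨S.c e, ?_, Or.inl ⟨S.c_len e, hs⟩, fun i hi => S.adjN e i hi, fun i h1 h2 => ⟨i, h1, h2, rfl⟩, ?_⟩
    · rw [S.c_zero, hs]
    · rintro z ⟨i, h1, h2, h3⟩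
      exact ⟨i, h1, h2, h3⟩
  · refine ⟨fun i => S.c e (S.len e - i), ?_, Or.inr ⟨?_, hs⟩, ?_, ?_, ?_⟩
    · simp only [Nat.sub_zero]
      rw [S.c_len, hs]
    · simp only [Nat.sub_self]
      exact S.c_zero e
    · intro i hi
      simp only
      have h1 := S.adjN e (S.len e - (i + 1)) (by omega)
      have h2 : S.len e - (i + 1) + 1 = S.len e - i := by omega
      rw [h2] at h1
      exact h1.symm
    · intro i h1 h2
      exact ⟨S.len e - i, by omega, by omega, rfl⟩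
    · rintro z ⟨i, h1, h2, h3⟩
      refine ⟨S.len e - i, by omega, by omega, ?_⟩
      simp only
      have : S.len e - (S.len e - i) = i := by omega
      rw [this, h3]

/-- the string of an edge, parametrised from a given end -/
lemma B1_edge (x y : V) (h : G.Adj x y) :
    ∃ (e : S.E) (c : ℕ → Q), S.inc x e ∧ S.inc y e ∧ c 0 = S.ι x ∧ c (S.len e) = S.ι y ∧
      (∀ i, i < S.len e → N.Adj (c i) (c (i + 1))) ∧
      (∀ i, 0 < i → i < S.len e → c i ∈ S.inter e) := by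
  obtain ⟨e, he⟩ := S.cover x y h
  have hx : S.inc x e := he.imp (fun h => h.1) (fun h => h.2)
  have hy : S.inc y e := by
    rcases he with h | h
    · exact Or.inr h.2
    · exact Or.inl h.1
  obtain ⟨c, h0, h1, h2, h3, _⟩ := B1_param S e x hx
  refine ⟨e, c, hx, hy, h0, ?_, h2, h3⟩
  have hne : x ≠ y := h.ne
  rcases h1 with h1 | h1 <;> rcases he with he | he
  · rw [h1.1, he.2]
  · exact absurd (h1.2.symm.trans he.1) hne
  · exact absurd (h1.2.symm.trans he.2) hne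
  · rw [h1.1, he.1]

lemma B1_mem_star (x : V) : S.ι x ∈ S.star x := Or.inl rfl

lemma B1_star_rch (x : V) {A : Set Q} (hA : S.star x ⊆ A) {z : Q} (hz : z ∈ S.star x) :
    B1Rch N A (S.ι x) z := by
  apply B1Rch.mono _ hA
  rcases hz with rfl | ⟨e, he, hz⟩
  · exact B1Rch.refl (B1_mem_star S x)
  · obtain ⟨c, h0, _, h2, h3, h4⟩ := B1_param S e x he
    obtain ⟨i, hi0, hi, rfl⟩ := h4 z hz
    rw [← h0]
    apply B1_rch_seg c 0 i (Nat.zero_le _)
    · intro j _ hj
      rcases Nat.eq_zero_or_pos j with rfl | hj0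
      · rw [h0]; exact B1_mem_star S x
      · exact Or.inr ⟨e, he, h3 j hj0 (by omega)⟩
    · intro j _ hj
      exact h2 j (by omega)

theorem star_connected (x : V) : (N.induce (S.star x)).Connected :=
  B1_connected_of_rch (B1_mem_star S x) (fun _ hy => B1_star_rch S x Subset.rfl hy)

theorem star_union_connected (Y : Set V) (hY : (G.induce Y).Connected) :
    (N.induce {z | ∃ x ∈ Y, z ∈ S.star x}).Connected := by
  set A : Set Q := {z | ∃ x ∈ Y, z ∈ S.star x} with hA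
  have hsub : ∀ x ∈ Y, S.star x ⊆ A := fun x hx z hz => ⟨x, hx, hz⟩
  have hstep : ∀ x ∈ Y, ∀ y ∈ Y, G.Adj x y → B1Rch N A (S.ι x) (S.ι y) := by
    intro x hx y hy hxy
    obtain ⟨e, c, hxe, hye, h0, h1, h2, h3⟩ := B1_edge S x y hxy
    rw [← h0, ← h1]
    apply B1_rch_seg c 0 (S.len e) (Nat.zero_le _)
    · intro j _ hj
      rcases Nat.eq_zero_or_pos j with rfl | hj0
      · rw [h0]; exact hsub x hx (B1_mem_star S x)
      · rcases Nat.lt_or_ge j (S.len e) with hj' | hj'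
        · exact hsub x hx (Or.inr ⟨e, hxe, h3 j hj0 hj'⟩)
        · have : j = S.len e := by omega
          rw [this, h1]
          exact hsub y hy (B1_mem_star S y)
    · intro j _ hj
      exact h2 j hj
  obtain ⟨⟨x0, hx0⟩⟩ := hY.nonempty
  have hreach : ∀ y : Y, B1Rch N A (S.ι x0) (S.ι y.1) := by
    intro y
    obtain ⟨w⟩ := hY.preconnected ⟨x0, hx0⟩ y
    have key : ∀ (a b : Y), (G.induce Y).Walk a b → B1Rch N A (S.ι a.1) (S.ι b.1) := by
      intro a b w
      induction w with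
      | nil => exact B1Rch.refl (hsub _ (Subtype.property _) (B1_mem_star S _))
      | cons h _ ih =>
        exact (hstep _ (Subtype.property _) _ (Subtype.property _) (by simpa using h)).trans ih
    exact key _ _ w
  apply B1_connected_of_rch (hsub x0 hx0 (B1_mem_star S x0))
  rintro z ⟨y, hy, hz⟩
  exact (hreach ⟨y, hy⟩).trans (B1_star_rch S y (hsub y hy) hz)

theorem star_touch (x y : V) (h : G.Adj x y) :
    (∃ z ∈ S.star x, N.Adj z (S.ι y)) ∧
    ((∃ z, z ∈ S.star x ∧ z ∈ S.star y) ∨ ∃ z ∈ S.star x, ∃ w ∈ S.star y, N.Adj z w) := by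
  obtain ⟨e, c, hxe, hye, h0, h1, h2, h3⟩ := B1_edge S x y h
  have hpos := S.len_pos e
  have key : c (S.len e - 1) ∈ S.star x ∧ N.Adj (c (S.len e - 1)) (S.ι y) := by
    constructor
    · rcases Nat.eq_zero_or_pos (S.len e - 1) with h4 | h4
      · rw [h4, h0]; exact B1_mem_star S x
      · exact Or.inr ⟨e, hxe, h3 _ h4 (by omega)⟩
    · have h5 := h2 (S.len e - 1) (by omega)
      rw [Nat.sub_add_cancel hpos, h1] at h5
      exact h5
  exact ⟨⟨_, key.1, key.2⟩, Or.inr ⟨_, key.1, _, B1_mem_star S y, key.2⟩⟩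

theorem tentacle (e : S.E) (s : V) (hs : S.inc s e) (O : Set Q) (hO : (S.inter e ∩ O).Nonempty)
    (hsO : S.ι s ∉ O) :
    ∃ t : Set Q, S.ι s ∈ t ∧ (∀ z ∈ t, z = S.ι s ∨ z ∈ S.inter e) ∧ Disjoint t O ∧
      (N.induce t).Connected ∧ ∃ z ∈ t, ∃ o ∈ O, N.Adj z o := by
  classical
  obtain ⟨c, h0, _, h2, h3, h4⟩ := B1_param S e s hs
  obtain ⟨z, hz, hzO⟩ := hO
  obtain ⟨i, hi0, hi, hiz⟩ := h4 z hz
  have hex : ∃ j, 0 < j ∧ j < S.len e ∧ c j ∈ O := ⟨i, hi0, hi, by rw [hiz]; exact hzO⟩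
  obtain ⟨hj0, hj, hjO⟩ := Nat.find_spec hex
  have hmin := fun m hm => Nat.find_min hex (m := m) hm
  set j := Nat.find hex with hjdef
  have hmem0 : S.ι s ∈ {z | ∃ i, i < j ∧ c i = z} := ⟨0, hj0, h0⟩
  refine ⟨{z | ∃ i, i < j ∧ c i = z}, hmem0, ?_, ?_, ?_, c (j - 1), ⟨j - 1, by omega, rfl⟩, c j,
    hjO, ?_⟩
  · rintro z ⟨i, hi, rfl⟩
    rcases Nat.eq_zero_or_pos i with rfl | hi0
    · exact Or.inl h0
    · exact Or.inr (h3 i hi0 (by omega))
  · rw [Set.disjoint_left]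
    rintro z ⟨i, hi, rfl⟩ hiO
    rcases Nat.eq_zero_or_pos i with rfl | hi0
    · rw [h0] at hiO
      exact hsO hiO
    · exact hmin i hi ⟨hi0, by omega, hiO⟩
  · apply B1_connected_of_rch hmem0
    rintro z ⟨i, hi, rfl⟩
    rw [← h0]
    apply B1_rch_seg c 0 i (Nat.zero_le _)
    · intro m _ hm
      exact ⟨m, by omega, rfl⟩
    · intro m _ hm
      exact h2 m (by omega)
  · have h5 := h2 (j - 1) (by omega)
    rw [Nat.sub_add_cancel hj0] at h5
    exact h5

end strings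

end KPL
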