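import Pool.Agent.Lib.KPL.Defs

/-!
# Module B2: shadows
-/

set_option autoImplicit false
set_option linter.unusedSectionVars false

namespace KPL

open Set

section strings
variable {V Q : Type} [Fintype V] [Fintype Q] {G : SimpleGraph V} {N : SimpleGraph Q} {k : ℕ}
  (S : StrSys G N k)

theorem sh_mono {A B : Set Q} (h : A ⊆ B) : S.sh A ⊆ S.sh B := by
  rintro x ⟨z, hz, hx⟩
  exact ⟨z, h hz, hx⟩

/-- a bound for unions -/
private theorem b2_ncard_biUnion {α β : Type} [Finite α] [Finite β] (C : Set α) (f : α → Set β)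
    (m : ℕ) (hf : ∀ a ∈ C, (f a).ncard ≤ m) : (⋃ a ∈ C, f a).ncard ≤ C.ncard * m := by
  classical
  have hC : C.Finite := Set.toFinite C
  induction C, hC using Set.Finite.induction_on with
  | empty => simp
  | @insert a C ha hC ih =>
    rw [Set.biUnion_insert, Set.ncard_insert_of_notMem ha (Set.toFinite C)]
    have h1 := ih (fun b hb => hf b (Set.mem_insert_of_mem a hb))
    have h2 := hf a (Set.mem_insert a C)
    have h3 := Set.ncard_union_le (f a) (⋃ b ∈ C, f b)
    calc (f a ∪ ⋃ b ∈ C, f b).ncard ≤ (f a).ncard + (⋃ b ∈ C, f b).ncard := h3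
      _ ≤ m + C.ncard * m := Nat.add_le_add h2 h1
      _ = (C.ncard + 1) * m := by ring

private theorem b2_cross (e : S.E) {x : V} (hx : x ∈ S.sh (S.str e)) :
    ∃ e' ∈ insert e {e' | e' ≠ e ∧ ∃ i j, 0 < i ∧ i < S.len e ∧ 0 < j ∧ j < S.len e' ∧
      S.c e i = S.c e' j}, x ∈ ({S.src e', S.tgt e'} : Set V) := by
  obtain ⟨z, ⟨i, hi, rfl⟩, hz⟩ := hx
  rcases hz with hz | ⟨e', hinc, j, hj0, hj1, hj⟩
  · refine ⟨e, Set.mem_insert _ _, ?_⟩
    rcases Nat.eq_zero_or_pos i with h0 | h0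
    · left
      rw [h0, S.c_zero] at hz
      exact (S.inj hz).symm
    · rcases Nat.lt_or_ge i (S.len e) with h1 | h1
      · exact absurd hz (S.dummy e i h0 h1 x)
      · have h2 : i = S.len e := le_antisymm hi h1
        right
        rw [h2, S.c_len] at hz
        exact (S.inj hz).symm
  · have hi0 : 0 < i := by
      rcases Nat.eq_zero_or_pos i with h0 | h0
      · exfalso
        rw [h0, S.c_zero] at hj
        exact S.dummy e' j hj0 hj1 _ hj
      · exact h0
    have hi1 : i < S.len e := by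
      rcases Nat.lt_or_ge i (S.len e) with h1 | h1
      · exact h1
      · exfalso
        have h2 : i = S.len e := le_antisymm hi h1
        rw [h2, S.c_len] at hj
        exact S.dummy e' j hj0 hj1 _ hj
    refine ⟨e', ?_, ?_⟩
    · by_cases he : e' = e
      · exact Or.inl he
      · exact Or.inr ⟨he, i, j, hi0, hi1, hj0, hj1, hj.symm⟩
    · rcases hinc with h | h
      · exact Or.inl h.symm
      · exact Or.inr h.symm

theorem sh_str (e : S.E) : (S.sh (S.str e)).ncard ≤ 2 * (k + 1) := by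
  set C : Set S.E := insert e {e' | e' ≠ e ∧ ∃ i j, 0 < i ∧ i < S.len e ∧ 0 < j ∧ j < S.len e' ∧
      S.c e i = S.c e' j} with hC
  have hCc : C.ncard ≤ k + 1 :=
    (Set.ncard_insert_le _ _).trans (Nat.add_le_add_right (S.crossing e) 1)
  have h1 : S.sh (S.str e) ⊆ ⋃ e' ∈ C, ({S.src e', S.tgt e'} : Set V) := by
    intro x hx
    obtain ⟨e', he', hx'⟩ := b2_cross S e hx
    exact Set.mem_biUnion he' hx'
  calc (S.sh (S.str e)).ncard ≤ (⋃ e' ∈ C, ({S.src e', S.tgt e'} : Set V)).ncard :=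
        Set.ncard_le_ncard h1 (Set.toFinite _)
    _ ≤ C.ncard * 2 := b2_ncard_biUnion C _ 2 (fun a _ => (Set.ncard_insert_le _ _).trans (by simp))
    _ ≤ (k + 1) * 2 := Nat.mul_le_mul_right 2 hCc
    _ = 2 * (k + 1) := Nat.mul_comm _ _

theorem sh_singleton (z : Q) : (S.sh {z}).ncard ≤ 2 * (k + 1) := by
  by_cases h : ∃ e, z ∈ S.str e
  · obtain ⟨e, he⟩ := h
    refine (Set.ncard_le_ncard (sh_mono S ?_) (Set.toFinite _)).trans (sh_str S e)
    exact Set.singleton_subset_iff.2 he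
  · have h1 : (S.sh {z}).ncard ≤ 1 := by
      rw [Set.ncard_le_one (Set.toFinite _)]
      have key : ∀ x ∈ S.sh {z}, z = S.ι x := by
        rintro x ⟨w, hw, hx⟩
        rw [Set.mem_singleton_iff] at hw
        subst hw
        rcases hx with hx | ⟨e, -, i, hi0, hi1, hi⟩
        · exact hx
        · exact absurd ⟨e, i, hi1.le, hi⟩ h
      intro x hx y hy
      exact S.inj ((key x hx).symm.trans (key y hy))
    omega

/-- if `A` is covered by at most `m` strings then its shadow has at most `2 (k+1) m` elements -/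
theorem sh_cover (A : Set Q) (C : Set S.E) (m : ℕ) (hC : C.ncard ≤ m)
    (hA : ∀ z ∈ A, ∃ e ∈ C, z ∈ S.str e) : (S.sh A).ncard ≤ 2 * (k + 1) * m := by
  have h1 : S.sh A ⊆ ⋃ e ∈ C, S.sh (S.str e) := by
    rintro x ⟨z, hz, hx⟩
    obtain ⟨e, he, hze⟩ := hA z hz
    exact Set.mem_biUnion he ⟨z, hze, hx⟩
  calc (S.sh A).ncard ≤ (⋃ e ∈ C, S.sh (S.str e)).ncard :=
        Set.ncard_le_ncard h1 (Set.toFinite _)
    _ ≤ C.ncard * (2 * (k + 1)) := b2_ncard_biUnion C _ _ (fun a _ => sh_str S a)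
    _ ≤ m * (2 * (k + 1)) := Nat.mul_le_mul_right _ hC
    _ = 2 * (k + 1) * m := Nat.mul_comm _ _

end strings

end KPL
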