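import Pool.Agent.Lib.KPL.Defs

/-!
# MP_641db7_co, module B3: colouring of the strings and routing along strings
-/

set_option autoImplicit false
set_option linter.unusedSectionVars false

namespace KPL

open Set

/-- greedy colouring of a finite symmetric irreflexive relation of maximal degree `k` -/
theorem greedy_coloring {E : Type} [Fintype E] (R : E → E → Prop) (hs : ∀ a b, R a b → R b a)
    (hirr : ∀ a, ¬ R a a) (k : ℕ) (h : ∀ e, {e' | R e e'}.ncard ≤ k) :
    ∃ χ : E → Fin (k+1), ∀ a b, R a b → χ a ≠ χ b := by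
  classical
  have key : ∀ s : Finset E, ∃ χ : E → Fin (k+1), ∀ a ∈ s, ∀ b ∈ s, R a b → χ a ≠ χ b := by
    intro s
    induction s using Finset.induction_on with
    | empty => exact ⟨fun _ => 0, fun a ha => absurd ha (Finset.notMem_empty a)⟩
    | insert a s ha ih =>
      obtain ⟨χ, hχ⟩ := ih
      -- a free colour
      have hfin : ({e' | R a e'} : Set E).Finite := Set.toFinite _
      have hcard : (hfin.toFinset.image χ).card < (Finset.univ : Finset (Fin (k+1))).card := by
        calc (hfin.toFinset.image χ).card ≤ hfin.toFinset.card := Finset.card_image_le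
          _ = ({e' | R a e'} : Set E).ncard := (Set.ncard_eq_toFinset_card _ hfin).symm
          _ ≤ k := h a
          _ < (Finset.univ : Finset (Fin (k+1))).card := by simp
      obtain ⟨c, -, hc⟩ := Finset.exists_mem_notMem_of_card_lt_card hcard
      have hc' : ∀ b, R a b → χ b ≠ c := by
        intro b hb hbc
        apply hc
        rw [Finset.mem_image]
        exact ⟨b, by simpa using hb, hbc⟩
      refine ⟨Function.update χ a c, ?_⟩
      intro x hx y hy hxy
      rw [Finset.mem_insert] at hx hy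
      by_cases hxa : x = a
      · by_cases hya : y = a
        · subst hxa; subst hya; exact absurd hxy (hirr _)
        · subst hxa
          rw [Function.update_self, Function.update_of_ne hya]
          exact (hc' y hxy).symm
      · by_cases hya : y = a
        · subst hya
          rw [Function.update_self, Function.update_of_ne hxa]
          exact hc' x (hs _ _ hxy)
        · rw [Function.update_of_ne hxa, Function.update_of_ne hya]
          exact hχ x (hx.resolve_left hxa) y (hy.resolve_left hya) hxy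
  obtain ⟨χ, hχ⟩ := key Finset.univ
  exact ⟨χ, fun a b hab => hχ a (Finset.mem_univ _) b (Finset.mem_univ _) hab⟩

section strings
variable {V Q : Type} [Fintype V] [Fintype Q] {G : SimpleGraph V} {N : SimpleGraph Q} {k : ℕ}
  (S : StrSys G N k)

theorem coloring : ∃ χ : S.E → Fin (k+1), ∀ e e', e ≠ e' → (S.inter e ∩ S.inter e').Nonempty →
    χ e ≠ χ e' := by
  classical
  obtain ⟨χ, hχ⟩ := greedy_coloring (E := S.E)
    (fun e e' => e ≠ e' ∧ (S.inter e ∩ S.inter e').Nonempty)
    (fun a b h => ⟨h.1.symm, by rw [Set.inter_comm]; exact h.2⟩)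
    (fun a h => h.1 rfl) k (by
      intro e
      refine le_trans (Set.ncard_le_ncard ?_ (Set.toFinite _)) (S.crossing e)
      rintro e' ⟨hne, z, ⟨i, hi0, hi1, hiz⟩, ⟨j, hj0, hj1, hjz⟩⟩
      exact ⟨hne.symm, i, j, hi0, hi1, hj0, hj1, by rw [hiz, hjz]⟩)
  exact ⟨χ, fun e e' h1 h2 => hχ e e' ⟨h1, h2⟩⟩

/-- routing: every point outside `Z` on a string of `𝓔` is routed to `Z` through at most `k+1`
strings of `𝓔` -/
theorem routing (Z : Set Q) (𝓔 : Set S.E) (h𝓔 : ∀ e ∈ 𝓔, (S.str e ∩ Z).Nonempty) :
    ∃ nx : Q → Q, (∀ z, z ∉ Z → (∃ e ∈ 𝓔, z ∈ S.str e) →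
        N.Adj z (nx z) ∧ (nx z ∈ Z ∨ ∃ e ∈ 𝓔, nx z ∈ S.str e)) ∧
      ∀ z, z ∉ Z → (∃ e ∈ 𝓔, z ∈ S.str e) →
        ∃ (n : ℕ) (C : Set S.E), nx^[n] z ∈ Z ∧ C ⊆ 𝓔 ∧ C.ncard ≤ k + 1 ∧
          ∀ m < n, nx^[m] z ∉ Z ∧ ∃ e ∈ C, nx^[m] z ∈ S.str e := by
  classical
  obtain ⟨χ, hχ⟩ := coloring S
  by_cases hne : ∃ e, e ∈ 𝓔
  swap
  · exact ⟨id, fun z _ ⟨e, he, _⟩ => absurd ⟨e, he⟩ hne, fun z _ ⟨e, he, _⟩ => absurd ⟨e, he⟩ hne⟩
  obtain ⟨e0, he0⟩ := hne
  have : Nonempty S.E := ⟨e0⟩
  -- the string of minimal colour through a point, and the index of the point on it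
  have hmin : ∀ z, (∃ e ∈ 𝓔, z ∈ S.str e) → ∃ e : S.E, ∃ i : ℕ, e ∈ 𝓔 ∧ i ≤ S.len e ∧ S.c e i = z ∧
      ∀ e' ∈ 𝓔, z ∈ S.str e' → χ e ≤ χ e' := by
    rintro z ⟨e, he, hez⟩
    obtain ⟨e1, he1, hmin⟩ := Set.exists_min_image {e | e ∈ 𝓔 ∧ z ∈ S.str e} χ (Set.toFinite _)
      ⟨e, he, hez⟩
    obtain ⟨i, hi, hiz⟩ := he1.2
    exact ⟨e1, i, he1.1, hi, hiz, fun e' h1 h2 => hmin e' ⟨h1, h2⟩⟩
  choose! em ix hem hix hc hle using hmin
  -- the target index on a string
  have htar : ∀ e, e ∈ 𝓔 → ∃ j, j ≤ S.len e ∧ S.c e j ∈ Z := by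
    intro e he
    obtain ⟨z, ⟨j, hj, rfl⟩, hz⟩ := h𝓔 e he
    exact ⟨j, hj, hz⟩
  choose! tar htl htZ using htar
  -- a dummy vertex on a string is an interior vertex of the string
  have hint : ∀ e e' i, 0 < i → i < S.len e → S.c e i ∈ S.str e' → S.c e i ∈ S.inter e' := by
    rintro e e' i h0 h1 ⟨j, hj, hji⟩
    refine ⟨j, ?_, ?_, hji⟩
    · rcases Nat.eq_zero_or_pos j with rfl | h
      · exact absurd (hji.symm.trans (S.c_zero e')) (S.dummy e i h0 h1 _)
      · exact h
    · rcases lt_or_eq_of_le hj with h | rfl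
      · exact h
      · exact absurd (hji.symm.trans (S.c_len e')) (S.dummy e i h0 h1 _)
  -- the next index
  let i' : Q → ℕ := fun z => if ix z < tar (em z) then ix z + 1 else ix z - 1
  let nx : Q → Q := fun z => S.c (em z) (i' z)
  have hne' : ∀ z, z ∉ Z → (∃ e ∈ 𝓔, z ∈ S.str e) → ix z ≠ tar (em z) := by
    intro z hz hzE h
    apply hz
    rw [← hc z hzE, h]
    exact htZ _ (hem z hzE)
  have hnx : ∀ z, z ∉ Z → (∃ e ∈ 𝓔, z ∈ S.str e) → N.Adj z (nx z) ∧ i' z ≤ S.len (em z) ∧
      (nx z ∉ Z → 0 < i' z ∧ i' z < S.len (em z) ∧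
        Nat.dist (i' z) (tar (em z)) < Nat.dist (ix z) (tar (em z))) := by
    intro z hz hzE
    have h1 := hne' z hz hzE
    have h2 : ix z ≤ S.len (em z) := hix z hzE
    have h3 : tar (em z) ≤ S.len (em z) := htl _ (hem z hzE)
    have h4 : nx z ∉ Z → i' z ≠ tar (em z) := by
      intro h h'
      apply h
      change S.c (em z) (i' z) ∈ Z
      rw [h']
      exact htZ _ (hem z hzE)
    rcases lt_or_gt_of_ne h1 with hlt | hgt
    · have hi' : i' z = ix z + 1 := if_pos hlt
      refine ⟨?_, ?_, ?_⟩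
      · change N.Adj z (S.c (em z) (i' z))
        rw [hi']
        nth_rewrite 1 [← hc z hzE]
        exact S.adjN _ _ (by omega)
      · omega
      · intro h
        have h5 := h4 h
        unfold Nat.dist
        omega
    · have hi' : i' z = ix z - 1 := if_neg (by omega)
      refine ⟨?_, ?_, ?_⟩
      · change N.Adj z (S.c (em z) (i' z))
        rw [hi']
        nth_rewrite 1 [← hc z hzE]
        have := S.adjN (em z) (ix z - 1) (by omega)
        rw [Nat.sub_add_cancel (by omega)] at this
        exact this.symm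
      · omega
      · intro h
        have h5 := h4 h
        unfold Nat.dist
        omega
  have hstr : ∀ z, z ∉ Z → (∃ e ∈ 𝓔, z ∈ S.str e) → ∃ e ∈ 𝓔, nx z ∈ S.str e := by
    intro z hz hzE
    exact ⟨em z, hem z hzE, i' z, (hnx z hz hzE).2.1, rfl⟩
  refine ⟨nx, fun z hz hzE => ⟨(hnx z hz hzE).1, Or.inr (hstr z hz hzE)⟩, ?_⟩
  -- the key induction
  have key : ∀ (a b : ℕ) (z : Q), z ∉ Z → (∃ e ∈ 𝓔, z ∈ S.str e) → (χ (em z)).val = a →
      Nat.dist (ix z) (tar (em z)) = b →
      ∃ (n : ℕ) (C : Set S.E), nx^[n] z ∈ Z ∧ C ⊆ 𝓔 ∧ Set.InjOn χ C ∧ em z ∈ C ∧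
        (∀ e ∈ C, χ e ≤ χ (em z)) ∧ ∀ m < n, nx^[m] z ∉ Z ∧ ∃ e ∈ C, nx^[m] z ∈ S.str e := by
    intro a
    induction a using Nat.strong_induction_on with
    | _ a iha =>
    intro b
    induction b using Nat.strong_induction_on with
    | _ b ihb =>
    intro z hz hzE ha hb
    by_cases hZ : nx z ∈ Z
    · refine ⟨1, {em z}, by simpa using hZ, by simpa using hem z hzE, by simp, by simp, by simp, ?_⟩
      intro m hm
      obtain rfl : m = 0 := by omega
      exact ⟨by simpa using hz, em z, rfl, ix z, hix z hzE, by simpa using hc z hzE⟩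
    · obtain ⟨h0, h1, h2⟩ := (hnx z hz hzE).2.2 hZ
      have hzE' := hstr z hz hzE
      have hcle : χ (em (nx z)) ≤ χ (em z) := hle (nx z) hzE' (em z) (hem z hzE)
        ⟨i' z, (hnx z hz hzE).2.1, rfl⟩
      -- extension of a routing of `nx z`
      rcases lt_or_eq_of_le hcle with hlt | heq
      · obtain ⟨n, C, g1, g2, g3, g4, g5, g6⟩ := iha (χ (em (nx z))).val (by
          rw [← ha]; exact hlt) _ (nx z) hZ hzE' rfl rfl
        refine ⟨n + 1, insert (em z) C, ?_, ?_, ?_, Set.mem_insert _ _, ?_, ?_⟩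
        · rw [Function.iterate_succ_apply]; exact g1
        · intro e he
          rcases he with rfl | he
          · exact hem z hzE
          · exact g2 he
        · have hnot : ∀ e ∈ C, χ e < χ (em z) := fun e he => lt_of_le_of_lt (g5 e he) hlt
          intro e he e' he' hee
          rcases he with rfl | he
          · rcases he' with rfl | he'
            · rfl
            · exact absurd hee (ne_of_gt (hnot e' he'))
          · rcases he' with rfl | he'
            · exact absurd hee (ne_of_lt (hnot e he))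
            · exact g3 he he' hee
        · intro e he
          rcases he with rfl | he
          · exact le_refl _
          · exact le_trans (g5 e he) hcle
        · intro m hm
          cases m with
          | zero => exact ⟨by simpa using hz, em z, Set.mem_insert _ _, ix z, hix z hzE,
              by simpa using hc z hzE⟩
          | succ m =>
            rw [Function.iterate_succ_apply]
            obtain ⟨q1, e, q2, q3⟩ := g6 m (by omega)
            exact ⟨q1, e, Set.mem_insert_of_mem _ q2, q3⟩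
      · -- same colour: the same string
        have hin1 : nx z ∈ S.inter (em z) := ⟨i' z, h0, h1, rfl⟩
        have hin2 : nx z ∈ S.inter (em (nx z)) :=
          hint (em z) (em (nx z)) (i' z) h0 h1 ⟨ix (nx z), hix _ hzE', hc _ hzE'⟩
        have hsame : em (nx z) = em z := by
          by_contra hne
          exact hχ _ _ hne ⟨nx z, hin2, hin1⟩ heq
        have hixx : ix (nx z) = i' z := by
          have q1 := hc _ hzE'
          have q2 := hix _ hzE'
          rw [hsame] at q1 q2
          exact S.cinj (em z) _ _ q2 (le_of_lt h1) q1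
        obtain ⟨n, C, g1, g2, g3, g4, g5, g6⟩ := ihb (Nat.dist (ix (nx z)) (tar (em (nx z)))) (by
          rw [hsame, hixx, ← hb]; exact h2) (nx z) hZ hzE' (by rw [heq]; exact ha) rfl
        refine ⟨n + 1, C, ?_, g2, g3, by rw [← hsame]; exact g4, ?_, ?_⟩
        · rw [Function.iterate_succ_apply]; exact g1
        · intro e he
          exact le_trans (g5 e he) hcle
        · intro m hm
          cases m with
          | zero => exact ⟨by simpa using hz, em z, by rw [← hsame]; exact g4, ix z, hix z hzE,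
              by simpa using hc z hzE⟩
          | succ m =>
            rw [Function.iterate_succ_apply]
            exact g6 m (by omega)
  intro z hz hzE
  obtain ⟨n, C, g1, g2, g3, g4, g5, g6⟩ := key _ _ z hz hzE rfl rfl
  refine ⟨n, C, g1, g2, ?_, g6⟩
  calc C.ncard = (χ '' C).ncard := (Set.InjOn.ncard_image g3).symm
    _ ≤ (Set.univ : Set (Fin (k+1))).ncard := Set.ncard_le_ncard (Set.subset_univ _) (Set.toFinite _)
    _ = k + 1 := by rw [Set.ncard_univ, Nat.card_eq_fintype_card, Fintype.card_fin]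

end strings

end KPL
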