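import Pool.Agent.Lib.KPL.B2
import Pool.Agent.Lib.KPL.B3

/-! Module B4: the layering and the basic spanning tree. -/

set_option autoImplicit false

namespace KPL

open Set

section strings
variable {V Q : Type} [Fintype V] [Fintype Q] {G : SimpleGraph V} {N : SimpleGraph Q} {k : ℕ}
  (S : StrSys G N k)

namespace B4

/-- the graph in which moreover any two vertices of a string are adjacent -/
def NP {V Q : Type} {G : SimpleGraph V} {N : SimpleGraph Q} {k : ℕ} (S : StrSys G N k) :
    SimpleGraph Q where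
  Adj x y := x ≠ y ∧ (N.Adj x y ∨ ∃ e, x ∈ S.str e ∧ y ∈ S.str e)
  symm := by
    constructor
    rintro x y ⟨h, h'⟩
    refine ⟨h.symm, ?_⟩
    rcases h' with h' | ⟨e, h1, h2⟩
    · exact Or.inl h'.symm
    · exact Or.inr ⟨e, h2, h1⟩
  loopless := by
    constructor
    intro x h
    exact h.1 rfl

omit [Fintype V] [Fintype Q] in
theorem NP_connected (hN : N.Connected) : (NP S).Connected :=
  hN.mono (fun _ _ h => ⟨h.ne, Or.inl h⟩)

omit [Fintype V] [Fintype Q] in
/-- abstract form: the root path decomposition -/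
theorem main (L : Q → ℕ) (r : Q) (hr : ∀ z, L z = 0 ↔ z = r)
    (p : Q → Q) (hpr : p r = r)
    (E : ℕ → Q → Prop)
    (hadj : ∀ z, z ≠ r → N.Adj z (p z))
    (hB : ∀ j z, L z = j + 1 → ¬ E j z → L (p z) ≤ j)
    (hC : ∀ j z, L z = j + 1 → E j z → ∃ n, L (p^[n] z) ≤ j) :
    IsRST N r p := by
  refine ⟨hpr, hadj, ?_⟩
  have key : ∀ l z, L z ≤ l → ∃ n : ℕ, p^[n] z = r := by
    intro l
    induction l with
    | zero =>
      intro z hz
      exact ⟨0, (hr z).1 (by omega)⟩
    | succ l ih =>
      intro z hz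
      rcases Nat.lt_or_ge (L z) (l + 1) with h | h
      · exact ih z (by omega)
      · have hz' : L z = l + 1 := by omega
        by_cases hE : E l z
        · obtain ⟨n, hn⟩ := hC l z hz' hE
          obtain ⟨m, hm⟩ := ih _ hn
          exact ⟨m + n, by rw [Function.iterate_add_apply]; exact hm⟩
        · obtain ⟨m, hm⟩ := ih _ (hB l z hz' hE)
          exact ⟨m + 1, by rw [Function.iterate_add_apply]; exact hm⟩
  intro z
  exact key _ z le_rfl

theorem rp_step {Q : Type} (p : Q → Q) (u w : Q) (h : w ∈ rp p u) (hne : w ≠ u) : w ∈ rp p (p u) := by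
  obtain ⟨n, hn⟩ := h
  cases n with
  | zero => exact absurd hn.symm hne
  | succ n => exact ⟨n, by rw [Function.iterate_succ_apply] at hn; exact hn⟩

theorem iter_mono {Q : Type} (p : Q → Q) (L : Q → ℕ) (hmono : ∀ z, L (p z) ≤ L z) (z : Q) (n : ℕ) :
    L (p^[n] z) ≤ L z := by
  induction n with
  | zero => exact le_rfl
  | succ n ih =>
    rw [Function.iterate_succ_apply']
    exact (hmono _).trans ih

end B4

theorem layering (hN : N.Connected) (r : Q) :
    ∃ (L : Q → ℕ) (p : Q → Q), IsRST N r p ∧
      (∀ e, ∀ z ∈ S.str e, ∀ z' ∈ S.str e, L z ≤ L z' + 1) ∧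
      ∀ u i, (S.sh {w | w ∈ rp p u ∧ L w = i}).ncard ≤ w0 k := by
  classical
  have hNP := B4.NP_connected S hN
  let L : Q → ℕ := fun z => (B4.NP S).dist r z
  have hr : ∀ z, L z = 0 ↔ z = r := by
    intro z
    show (B4.NP S).dist r z = 0 ↔ z = r
    rw [hNP.dist_eq_zero_iff]
    exact eq_comm
  have hLadj : ∀ z z', (B4.NP S).Adj z z' → L z ≤ L z' + 1 := by
    intro z z' h
    have h1 := hNP.dist_triangle (u := r) (v := z') (w := z)
    have h2 : (B4.NP S).dist z' z = 1 := SimpleGraph.dist_eq_one_iff_adj.2 h.symm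
    show (B4.NP S).dist r z ≤ (B4.NP S).dist r z' + 1
    omega
  have hLN : ∀ z z', N.Adj z z' → L z ≤ L z' + 1 :=
    fun z z' h => hLadj z z' ⟨h.ne, Or.inl h⟩
  have hLs : ∀ e, ∀ z ∈ S.str e, ∀ z' ∈ S.str e, L z ≤ L z' + 1 := by
    intro e z hz z' hz'
    by_cases h : z = z'
    · subst h; omega
    · exact hLadj z z' ⟨h, Or.inr ⟨e, hz, hz'⟩⟩
  -- neighbours in the previous layer
  have hprev : ∀ j z, L z = j + 1 → ∃ y, (B4.NP S).Adj z y ∧ L y ≤ j := by
    intro j z hz
    obtain ⟨w, hw⟩ := hNP.exists_walk_length_eq_dist z r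
    have hz' : w.length = j + 1 := by
      rw [hw, SimpleGraph.dist_comm]; exact hz
    cases w with
    | nil => simp at hz'
    | @cons _ y _ h w' =>
      refine ⟨y, h, ?_⟩
      rw [SimpleGraph.Walk.length_cons] at hz'
      have := SimpleGraph.dist_le w'
      show (B4.NP S).dist r y ≤ j
      rw [SimpleGraph.dist_comm]
      omega
  -- routing
  let Z : ℕ → Set Q := fun j => {z | L z ≤ j}
  let 𝓔 : ℕ → Set S.E := fun j => {e | (S.str e ∩ Z j).Nonempty}
  have hrout := fun j => routing S (Z j) (𝓔 j) (fun e he => he)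
  choose nx hnx1 hnx2 using hrout
  let E : ℕ → Q → Prop := fun j z => ∃ e ∈ 𝓔 j, z ∈ S.str e
  have hEL : ∀ j z, E j z → L z ≤ j + 1 := by
    rintro j z ⟨e, ⟨z', hz', hz''⟩, hz⟩
    have h1 := hLs e z hz z' hz'
    have h2 : L z' ≤ j := hz''
    omega
  have hnE : ∀ j z, L z = j + 1 → ¬ E j z → ∃ y, N.Adj z y ∧ L y ≤ j := by
    intro j z hz hE
    obtain ⟨y, hy, hy'⟩ := hprev j z hz
    rcases hy.2 with h | ⟨e, h1, h2⟩
    · exact ⟨y, h, hy'⟩
    · exact absurd ⟨e, ⟨y, h2, hy'⟩, h1⟩ hE
  have hex : ∀ z, ∃ y, (z = r → y = r) ∧ (∀ j, L z = j + 1 → E j z → y = nx j z) ∧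
      (∀ j, L z = j + 1 → ¬ E j z → N.Adj z y ∧ L y ≤ j) := by
    intro z
    by_cases h : z = r
    · refine ⟨r, fun _ => rfl, ?_, ?_⟩
      · intro j hj; have := (hr z).2 h; omega
      · intro j hj; have := (hr z).2 h; omega
    · have h0 : L z ≠ 0 := fun h' => h ((hr z).1 h')
      obtain ⟨j, hj⟩ := Nat.exists_eq_succ_of_ne_zero h0
      have hj' : L z = j + 1 := hj
      by_cases hE : E j z
      · refine ⟨nx j z, fun h' => absurd h' h, ?_, ?_⟩
        · intro j' hj'' _
          have : j' = j := by omega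
          rw [this]
        · intro j' hj'' hE'
          have : j' = j := by omega
          rw [this] at hE'
          exact absurd hE hE'
      · obtain ⟨y, hy⟩ := hnE j z hj' hE
        refine ⟨y, fun h' => absurd h' h, ?_, ?_⟩
        · intro j' hj'' hE'
          have : j' = j := by omega
          rw [this] at hE'
          exact absurd hE' hE
        · intro j' hj'' _
          have : j' = j := by omega
          rw [this]
          exact hy
  choose p hpr hpE hpN using hex
  have hnotZ : ∀ j z, L z = j + 1 → z ∉ Z j := by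
    intro j z hz h
    have : L z ≤ j := h
    omega
  have hmono : ∀ z, L (p z) ≤ L z := by
    intro z
    by_cases h : z = r
    · rw [hpr z h, h]
    · have h0 : L z ≠ 0 := fun h' => h ((hr z).1 h')
      obtain ⟨j, hj⟩ := Nat.exists_eq_succ_of_ne_zero h0
      have hj' : L z = j + 1 := hj
      by_cases hE : E j z
      · rw [hpE z j hj' hE]
        rcases (hnx1 j z (hnotZ j z hj') hE).2 with h1 | h1
        · have : L (nx j z) ≤ j := h1
          omega
        · have := hEL j _ h1
          omega
      · have := (hpN z j hj' hE).2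
        omega
  have hadj : ∀ z, z ≠ r → N.Adj z (p z) := by
    intro z h
    have h0 : L z ≠ 0 := fun h' => h ((hr z).1 h')
    obtain ⟨j, hj⟩ := Nat.exists_eq_succ_of_ne_zero h0
    have hj' : L z = j + 1 := hj
    by_cases hE : E j z
    · rw [hpE z j hj' hE]
      exact (hnx1 j z (hnotZ j z hj') hE).1
    · exact (hpN z j hj' hE).1
  -- the route inside one layer
  have hroute : ∀ j z, L z = j + 1 → E j z → ∃ (n : ℕ) (C : Set S.E), L (p^[n] z) ≤ j ∧
      C.ncard ≤ k + 1 ∧ ∀ m < n, ∃ e ∈ C, p^[m] z ∈ S.str e := by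
    intro j z hz hE
    obtain ⟨n, C, h1, h2, h3, h4⟩ := hnx2 j z (hnotZ j z hz) hE
    have heq : ∀ m ≤ n, p^[m] z = (nx j)^[m] z := by
      intro m
      induction m with
      | zero => intro _; rfl
      | succ m ih =>
        intro hm
        rw [Function.iterate_succ_apply', Function.iterate_succ_apply', ih (by omega)]
        obtain ⟨h5, e, h6, h7⟩ := h4 m (by omega)
        have hE' : E j ((nx j)^[m] z) := ⟨e, h2 h6, h7⟩
        have hL' : L ((nx j)^[m] z) = j + 1 := by
          have h8 := hEL j _ hE'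
          have h9 : ¬ L ((nx j)^[m] z) ≤ j := h5
          omega
        exact hpE _ j hL' hE'
    refine ⟨n, C, ?_, h3, ?_⟩
    · rw [heq n le_rfl]; exact h1
    · intro m hm
      rw [heq m hm.le]
      exact (h4 m hm).2
  have hRST : IsRST N r p := by
    refine B4.main L r hr p (hpr r rfl) E hadj (fun j z hz hE => (hpN z j hz hE).2) ?_
    intro j z hz hE
    obtain ⟨n, C, h1, _⟩ := hroute j z hz hE
    exact ⟨n, h1⟩
  refine ⟨L, p, hRST, hLs, ?_⟩
  have hw1 : 2 * (k + 1) ≤ w0 k := by
    unfold w0
    nlinarith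
  have hsing : ∀ (B : Set Q) (z : Q), B ⊆ {z} → (S.sh B).ncard ≤ w0 k := by
    intro B z hB
    exact (Set.ncard_le_ncard (sh_mono S hB) (Set.toFinite _)).trans ((sh_singleton S z).trans hw1)
  -- the direct case
  have hdirect : ∀ u, (S.sh {w | w ∈ rp p u ∧ L w = L u}).ncard ≤ w0 k := by
    intro u
    by_cases h0 : L u = 0
    · refine hsing _ r ?_
      rintro w ⟨_, hw⟩
      rw [h0] at hw
      exact (hr w).1 hw
    · obtain ⟨j, hj⟩ := Nat.exists_eq_succ_of_ne_zero h0
      have hj' : L u = j + 1 := hj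
      by_cases hE : E j u
      · obtain ⟨n, C, h1, h2, h3⟩ := hroute j u hj' hE
        refine sh_cover S _ C (k + 1) h2 ?_
        rintro w ⟨⟨m, hm⟩, hw⟩
        have hmn : m < n := by
          by_contra hcon
          have h4 : p^[m] u = p^[m - n] (p^[n] u) := by
            rw [← Function.iterate_add_apply]
            congr 1
            omega
          have h5 := B4.iter_mono p L hmono (p^[n] u) (m - n)
          rw [← h4, hm] at h5
          omega
        have := h3 m hmn
        rw [hm] at this
        exact this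
      · refine hsing _ u ?_
        rintro w ⟨hw, hw'⟩
        by_contra hne
        obtain ⟨m, hm⟩ := B4.rp_step p u w hw hne
        have h5 := B4.iter_mono p L hmono (p u) m
        rw [hm] at h5
        have := (hpN u j hj' hE).2
        omega
  have key : ∀ (n : ℕ) (u : Q), p^[n] u = r → ∀ i, (S.sh {w | w ∈ rp p u ∧ L w = i}).ncard ≤ w0 k := by
    intro n
    induction n with
    | zero =>
      intro u hu i
      refine hsing _ r ?_
      rintro w ⟨⟨m, hm⟩, _⟩
      have hu' : u = r := hu
      have : ∀ m, p^[m] r = r := by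
        intro m
        induction m with
        | zero => rfl
        | succ m ih => rw [Function.iterate_succ_apply, hpr r rfl]; exact ih
      rw [hu', this m] at hm
      exact hm.symm
    | succ n ih =>
      intro u hu i
      rw [Function.iterate_succ_apply] at hu
      rcases lt_trichotomy (L u) i with h | h | h
      · refine hsing _ r ?_
        rintro w ⟨⟨m, hm⟩, hw⟩
        have h5 := B4.iter_mono p L hmono u m
        rw [hm] at h5
        omega
      · rw [← h]
        exact hdirect u
      · refine (Set.ncard_le_ncard (sh_mono S ?_) (Set.toFinite _)).trans (ih (p u) hu i)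
        rintro w ⟨hw, hw'⟩
        refine ⟨B4.rp_step p u w hw ?_, hw'⟩
        rintro rfl
        omega
  intro u i
  obtain ⟨n, hn⟩ := hRST.reach u
  exact key n u hn i

end strings

end KPL
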