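import Pool.Agent.Lib.KPL.B2
import Pool.Agent.Lib.KPL.B3

/-! # Module B5: the spanning tree adapted to a connected set `K` -/

set_option autoImplicit false

namespace KPL

open Set

theorem iter_split {Q : Type} (g : Q → Q) (x : Q) (a b : ℕ) (h : b ≤ a) :
    g^[a] x = g^[a - b] (g^[b] x) := by
  rw [← Function.iterate_add_apply, Nat.sub_add_cancel h]

/-- a path given by iterating a map: every initial piece is preconnected -/
theorem iter_preconnected {Q : Type} (N : SimpleGraph Q) (g : Q → Q) (u : Q) (A : Set Q)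
    (M : ℕ → Prop) (hM : ∀ a b, a ≤ b → M b → M a)
    (hA : ∀ w, w ∈ A ↔ ∃ n, M n ∧ g^[n] u = w)
    (hadj : ∀ n, M (n + 1) → g^[n + 1] u = g^[n] u ∨ N.Adj (g^[n] u) (g^[n + 1] u)) :
    (N.induce A).Preconnected := by
  have key : ∀ n, ∀ hn : M n, ∀ h0 : u ∈ A, ∀ h1 : g^[n] u ∈ A,
      (N.induce A).Reachable ⟨u, h0⟩ ⟨g^[n] u, h1⟩ := by
    intro n
    induction n with
    | zero => intro _ h0 h1; exact SimpleGraph.Reachable.refl _
    | succ n ih =>
      intro hn h0 h1
      have hMn : M n := hM n (n + 1) (Nat.le_succ n) hn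
      have h2 : g^[n] u ∈ A := (hA _).2 ⟨n, hMn, rfl⟩
      have h3 := ih hMn h0 h2
      rcases hadj n hn with h | h
      · have h4 : (⟨g^[n + 1] u, h1⟩ : A) = ⟨g^[n] u, h2⟩ := Subtype.ext h
        rw [h4]; exact h3
      · exact h3.trans (SimpleGraph.Adj.reachable (by
          show N.Adj (g^[n] u) (g^[n + 1] u)
          exact h))
  rintro ⟨x, hx⟩ ⟨y, hy⟩
  obtain ⟨n, hn, rfl⟩ := (hA x).1 hx
  obtain ⟨m, hm, rfl⟩ := (hA y).1 hy
  have h0 : u ∈ A := (hA u).2 ⟨0, hM 0 n (Nat.zero_le n) hn, rfl⟩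
  exact (key n hn h0 hx).symm.trans (key m hm h0 hy)

theorem rp_connected {Q : Type} (N : SimpleGraph Q) (r : Q) (p : Q → Q) (h : IsRST N r p) (u : Q) :
    (N.induce (rp p u)).Connected := by
  have h1 : (N.induce (rp p u)).Preconnected := by
    refine iter_preconnected N p u (rp p u) (fun _ => True) (fun _ _ _ _ => trivial) ?_ ?_
    · intro w
      constructor
      · rintro ⟨n, hn⟩; exact ⟨n, trivial, hn⟩
      · rintro ⟨n, _, hn⟩; exact ⟨n, hn⟩
    · intro n _
      rw [Function.iterate_succ_apply']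
      by_cases hz : p^[n] u = r
      · left; rw [hz, h.root]
      · right; exact h.adj _ hz
  have : Nonempty (rp p u) := ⟨⟨u, 0, rfl⟩⟩
  exact ⟨h1⟩

/-- a rooted spanning tree of a preconnected induced subgraph -/
theorem exists_tree_in {Q : Type} (N : SimpleGraph Q) (K : Set Q) (r : Q) (hr : r ∈ K)
    (hK : (N.induce K).Preconnected) :
    ∃ (q : Q → Q) (D : Q → ℕ), ∀ z ∈ K, z ≠ r → q z ∈ K ∧ N.Adj z (q z) ∧ D (q z) < D z := by
  classical
  let D : Q → ℕ := fun z => if hz : z ∈ K then (N.induce K).dist ⟨z, hz⟩ ⟨r, hr⟩ else 0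
  have hD : ∀ z (hz : z ∈ K), D z = (N.induce K).dist ⟨z, hz⟩ ⟨r, hr⟩ := by
    intro z hz; simp [D, hz]
  have hex : ∀ z ∈ K, z ≠ r → ∃ w, w ∈ K ∧ N.Adj z w ∧ D w < D z := by
    intro z hz hzr
    obtain ⟨W, hW⟩ := (hK ⟨z, hz⟩ ⟨r, hr⟩).exists_walk_length_eq_dist
    cases W with
    | nil => exact absurd rfl hzr
    | @cons _ v _ hadj W' =>
      refine ⟨v.1, v.2, hadj, ?_⟩
      rw [hD z hz, hD v.1 v.2, ← hW, SimpleGraph.Walk.length_cons]
      have := SimpleGraph.dist_le W'
      exact Nat.lt_succ_of_le this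
  choose! q hq using hex
  exact ⟨q, D, hq⟩

section strings
variable {V Q : Type} [Fintype V] [Fintype Q] {G : SimpleGraph V} {N : SimpleGraph Q} {k : ℕ}
  (S : StrSys G N k)

theorem adapted_tree (r : Q) (p : Q → Q) (hp : IsRST N r p) (K : Set Q) (hr : r ∈ K)
    (hK : (N.induce K).Preconnected) :
    ∃ p' : Q → Q, IsRST N r p' ∧ ∀ u,
      (N.induce (rp p' u \ S.plus K)).Preconnected ∧
      rp p' u \ S.plus K ⊆ rp p u ∧
      (S.sh ((rp p' u ∩ S.plus K) \ K)).ncard ≤ w0 k := by
  classical
  obtain ⟨q, D, hq⟩ := exists_tree_in N K r hr hK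
  have h𝓔 : ∀ e ∈ S.tent K, (S.str e ∩ K).Nonempty := by
    rintro e ⟨z, ⟨i, hi0, hi1, hi⟩, hzK⟩
    exact ⟨z, ⟨i, hi1.le, hi⟩, hzK⟩
  obtain ⟨nx, hnx1, hnx2⟩ := routing S K (S.tent K) h𝓔
  have hplus : ∀ z, z ∈ S.plus K ↔ z ∈ K ∨ ∃ e ∈ S.tent K, z ∈ S.str e := by
    intro z; rfl
  let p' : Q → Q := fun z => if z = r then r else if z ∈ K then q z else
    if z ∈ S.plus K then nx z else p z
  have hp'r : p' r = r := by simp [p']
  have hp'K : ∀ z ∈ K, z ≠ r → p' z = q z := by
    intro z hz hzr; simp [p', hz, hzr]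
  have hp'P : ∀ z, z ∉ K → z ∈ S.plus K → p' z = nx z := by
    intro z hz hzP
    have hzr : z ≠ r := fun h => hz (h ▸ hr)
    simp [p', hz, hzr, hzP]
  have hp'N : ∀ z, z ∉ S.plus K → p' z = p z := by
    intro z hzP
    have hz : z ∉ K := fun h => hzP ((hplus z).2 (Or.inl h))
    have hzr : z ≠ r := fun h => hz (h ▸ hr)
    simp [p', hz, hzr, hzP]
  -- closure properties
  have hclK : ∀ z ∈ K, p' z ∈ K := by
    intro z hz
    by_cases hzr : z = r
    · rw [hzr, hp'r]; exact hr
    · rw [hp'K z hz hzr]; exact (hq z hz hzr).1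
  have hclP : ∀ z ∈ S.plus K, p' z ∈ S.plus K := by
    intro z hz
    by_cases hzK : z ∈ K
    · exact (hplus _).2 (Or.inl (hclK z hzK))
    · rw [hp'P z hzK hz]
      have h1 := (hplus z).1 hz
      have h2 : ∃ e ∈ S.tent K, z ∈ S.str e := h1.resolve_left hzK
      exact (hplus _).2 (hnx1 z hzK h2).2
  have hclKn : ∀ n, ∀ z ∈ K, p'^[n] z ∈ K := by
    intro n
    induction n with
    | zero => intro z hz; exact hz
    | succ n ih => intro z hz; rw [Function.iterate_succ_apply]; exact ih _ (hclK z hz)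
  have hclPn : ∀ n, ∀ z ∈ S.plus K, p'^[n] z ∈ S.plus K := by
    intro n
    induction n with
    | zero => intro z hz; exact hz
    | succ n ih => intro z hz; rw [Function.iterate_succ_apply]; exact ih _ (hclP z hz)
  -- before entering `plus K`, `p'` is `p`
  have hbefore : ∀ u n, p'^[n] u ∉ S.plus K → ∀ m ≤ n, p'^[m] u = p^[m] u ∧ p'^[m] u ∉ S.plus K := by
    intro u n hn m hm
    have hnot : ∀ j ≤ n, p'^[j] u ∉ S.plus K := by
      intro j hj hjP
      apply hn
      have h1 : p'^[n] u = p'^[n - j] (p'^[j] u) := iter_split p' u n j hj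
      rw [h1]; exact hclPn _ _ hjP
    refine ⟨?_, hnot m hm⟩
    induction m with
    | zero => rfl
    | succ m ih =>
      have hm' : m ≤ n := by omega
      rw [Function.iterate_succ_apply', Function.iterate_succ_apply', ← ih hm',
        hp'N _ (hnot m hm')]
  -- inside `plus K \ K`, `p'` is `nx`
  have hinside : ∀ z, z ∉ K → z ∈ S.plus K → ∃ (n : ℕ) (C : Set S.E), p'^[n] z ∈ K ∧
      C.ncard ≤ k + 1 ∧ ∀ m < n, ∃ e ∈ C, p'^[m] z ∈ S.str e := by
    intro z hz hzP
    obtain ⟨n, C, hn, hC, hCc, hm⟩ := hnx2 z hz (((hplus z).1 hzP).resolve_left hz)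
    have heq : ∀ m ≤ n, p'^[m] z = nx^[m] z := by
      intro m
      induction m with
      | zero => intro _; rfl
      | succ m ih =>
        intro hmn
        have hmn' : m ≤ n := by omega
        obtain ⟨h1, e, he, h2⟩ := hm m (by omega)
        rw [Function.iterate_succ_apply', Function.iterate_succ_apply', ih hmn']
        exact hp'P _ h1 ((hplus _).2 (Or.inr ⟨e, hC he, h2⟩))
    refine ⟨n, C, ?_, hCc, ?_⟩
    · rw [heq n le_rfl]; exact hn
    · intro m hmn
      obtain ⟨_, e, he, h2⟩ := hm m hmn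
      exact ⟨e, he, by rw [heq m hmn.le]; exact h2⟩
  -- `p'` is a rooted spanning tree
  have hreachK : ∀ d, ∀ z ∈ K, D z ≤ d → ∃ n, p'^[n] z = r := by
    intro d
    induction d with
    | zero =>
      intro z hz hd
      by_cases hzr : z = r
      · exact ⟨0, hzr⟩
      · have := (hq z hz hzr).2.2
        omega
    | succ d ih =>
      intro z hz hd
      by_cases hzr : z = r
      · exact ⟨0, hzr⟩
      · have h1 := hq z hz hzr
        obtain ⟨n, hn⟩ := ih (q z) h1.1 (by omega)
        exact ⟨n + 1, by rw [Function.iterate_succ_apply, hp'K z hz hzr]; exact hn⟩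
  have hreachP : ∀ z ∈ S.plus K, ∃ n, p'^[n] z = r := by
    intro z hz
    by_cases hzK : z ∈ K
    · exact hreachK (D z) z hzK le_rfl
    · obtain ⟨n, C, hn, -, -⟩ := hinside z hzK hz
      obtain ⟨m, hm⟩ := hreachK (D (p'^[n] z)) _ hn le_rfl
      exact ⟨m + n, by rw [Function.iterate_add_apply]; exact hm⟩
  have hRST : IsRST N r p' := by
    refine ⟨hp'r, ?_, ?_⟩
    · intro z hzr
      by_cases hzK : z ∈ K
      · rw [hp'K z hzK hzr]; exact (hq z hzK hzr).2.1
      · by_cases hzP : z ∈ S.plus K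
        · rw [hp'P z hzK hzP]
          exact (hnx1 z hzK (((hplus z).1 hzP).resolve_left hzK)).1
        · rw [hp'N z hzP]; exact hp.adj z hzr
    · intro z
      by_cases hex : ∃ n, p'^[n] z ∈ S.plus K
      · obtain ⟨n, hn⟩ := hex
        obtain ⟨m, hm⟩ := hreachP _ hn
        exact ⟨m + n, by rw [Function.iterate_add_apply]; exact hm⟩
      · exfalso
        push Not at hex
        obtain ⟨n, hn⟩ := hp.reach z
        have h1 := (hbefore z n (hex n) n le_rfl).1
        apply hex n
        rw [h1, hn]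
        exact (hplus r).2 (Or.inl hr)
  refine ⟨p', hRST, fun u => ⟨?_, ?_, ?_⟩⟩
  · -- preconnectedness
    refine iter_preconnected N p' u _ (fun n => p'^[n] u ∉ S.plus K) ?_ ?_ ?_
    · intro a b hab hb
      exact (hbefore u b hb a hab).2
    · intro w
      constructor
      · rintro ⟨⟨n, hn⟩, hw⟩
        exact ⟨n, by rw [hn]; exact hw, hn⟩
      · rintro ⟨n, hn, rfl⟩
        exact ⟨⟨n, rfl⟩, hn⟩
    · intro n _
      rw [Function.iterate_succ_apply']
      by_cases hz : p'^[n] u = r
      · left; rw [hz, hRST.root]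
      · right; exact hRST.adj _ hz
  · rintro w ⟨⟨n, hn⟩, hw⟩
    refine ⟨n, ?_⟩
    rw [← hn] at hw
    rw [← (hbefore u n hw n le_rfl).1, hn]
  · -- the shadow bound
    by_cases hex : ∃ n, p'^[n] u ∈ S.plus K
    · have hn0 := Nat.find_spec hex
      set n0 := Nat.find hex with hn0def
      have hmin : ∀ m < n0, p'^[m] u ∉ S.plus K := fun m hm => Nat.find_min hex hm
      set z := p'^[n0] u with hz
      by_cases hzK : z ∈ K
      · have hempty : (rp p' u ∩ S.plus K) \ K = ∅ := by
          ext w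
          simp only [Set.mem_sdiff, mem_inter_iff, mem_empty_iff_false, iff_false, not_and, not_not]
          rintro ⟨⟨n, hn⟩, hw⟩
          have hge : n0 ≤ n := by
            by_contra hlt
            push Not at hlt
            apply hmin n hlt
            rw [hn]; exact hw
          have h1 : p'^[n] u = p'^[n - n0] z := iter_split p' u n n0 hge
          rw [← hn, h1]
          exact hclKn _ _ hzK
        rw [hempty]
        have : S.sh (∅ : Set Q) = ∅ := by
          ext x; simp [StrSys.sh]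
        rw [this, Set.ncard_empty]
        exact Nat.zero_le _
      · obtain ⟨n, C, hn, hCc, hm⟩ := hinside z hzK hn0
        have h2 := sh_cover S ((rp p' u ∩ S.plus K) \ K) C (k + 1) hCc (by
          rintro w ⟨⟨⟨l, hl⟩, hwP⟩, hwK⟩
          have hge : n0 ≤ l := by
            by_contra hlt
            push Not at hlt
            apply hmin l hlt
            rw [hl]; exact hwP
          have h1 : p'^[l] u = p'^[l - n0] z := iter_split p' u l n0 hge
          have hlt : l - n0 < n := by
            by_contra hge2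
            push Not at hge2
            apply hwK
            have h3 : p'^[l - n0] z = p'^[l - n0 - n] (p'^[n] z) :=
              iter_split p' z (l - n0) n hge2
            rw [← hl, h1, h3]
            exact hclKn _ _ hn
          obtain ⟨e, he, h4⟩ := hm _ hlt
          exact ⟨e, he, by rw [← hl, h1]; exact h4⟩)
        exact h2
    · push Not at hex
      have hempty : (rp p' u ∩ S.plus K) \ K = ∅ := by
        ext w
        simp only [Set.mem_sdiff, mem_inter_iff, mem_empty_iff_false, iff_false, not_and, not_not]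
        rintro ⟨⟨n, hn⟩, hw⟩
        exact absurd (by rw [hn]; exact hw) (hex n)
      rw [hempty]
      have : S.sh (∅ : Set Q) = ∅ := by
        ext x; simp [StrSys.sh]
      rw [this, Set.ncard_empty]
      exact Nat.zero_le _

end strings

end KPL
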