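import Pool.Agent.Lib.KPL.A4
import Pool.Agent.Lib.KPL.B1

/-!
# Module C (MP_641db7_co): the key planarity lemma `few_touching`
-/

set_option autoImplicit false

namespace KPL

open Set

section strings
variable {V Q : Type} [Fintype V] [Fintype Q] {G : SimpleGraph V} {N : SimpleGraph Q} {k : ℕ}
  (S : StrSys G N k)

omit [Fintype V] [Fintype Q] in
theorem C_inter_ne {e : S.E} {z : Q} (hz : z ∈ S.inter e) (v : V) : z ≠ S.ι v := by
  obtain ⟨i, h1, h2, rfl⟩ := hz
  exact S.dummy e i h1 h2 v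

omit [Fintype V] [Fintype Q] in
theorem C_iota_star {v x : V} (h : S.ι v ∈ S.star x) : v = x := by
  rcases h with h | ⟨e, _, h⟩
  · exact S.inj h
  · exact absurd rfl (C_inter_ne S h v)

omit [Fintype V] [Fintype Q] in
theorem C_inter_star {e : S.E} {x : V} (h : S.inc x e) : S.inter e ⊆ S.star x :=
  fun _ hz => Or.inr ⟨e, h, hz⟩

omit [Fintype V] [Fintype Q] in
/-- two strings with a common interior vertex cross -/
theorem C_cross {e e' : S.E} (hne : e' ≠ e) {z : Q} (h : z ∈ S.inter e) (h' : z ∈ S.inter e') :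
    e' ∈ {e' | e' ≠ e ∧ ∃ i j, 0 < i ∧ i < S.len e ∧ 0 < j ∧ j < S.len e' ∧ S.c e i = S.c e' j} := by
  obtain ⟨i, h1, h2, h3⟩ := h
  obtain ⟨j, h4, h5, h6⟩ := h'
  exact ⟨hne, i, j, h1, h2, h4, h5, by rw [h3, h6]⟩

omit [Fintype Q] in
theorem C_union {B U : Set Q} (hB : (N.induce B).Connected)
    (hU : U = ∅ ∨ ((N.induce U).Connected ∧ ∃ b ∈ B, ∃ u ∈ U, N.Adj b u)) :
    (N.induce (B ∪ U)).Connected := by
  rcases hU with rfl | ⟨hU, b, hb, u, hu, hbu⟩
  · rw [Set.union_empty]; exact hB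
  · have h1 : (N.induce (B ∪ {b, u})).Connected :=
      SimpleGraph.induce_union_connected hB.preconnected
        (SimpleGraph.induce_pair_connected_of_adj hbu).preconnected ⟨b, hb, by simp⟩
    have h2 : (N.induce (B ∪ {b, u} ∪ U)).Connected :=
      SimpleGraph.induce_union_connected h1.preconnected hU.preconnected ⟨u, by simp, hu⟩
    have h3 : B ∪ {b, u} ∪ U = B ∪ U := by
      ext z
      simp only [Set.mem_union, Set.mem_insert_iff, Set.mem_singleton_iff]
      constructor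
      · rintro ((h | h | h) | h)
        · exact Or.inl h
        · exact Or.inl (h ▸ hb)
        · exact Or.inr (h ▸ hu)
        · exact Or.inr h
      · rintro (h | h)
        · exact Or.inl (Or.inl h)
        · exact Or.inr h
    rwa [h3] at h2

theorem C_core {J : Type} [Fintype J] (Y : J → Set V) (P : Fin 3 → Set V) (O : Fin 3 → Set Q)
    (K : Set Q) (s x : Fin 3 → J → V)
    (hYc : ∀ j, (G.induce (Y j)).Connected)
    (hYd : ∀ i j, i ≠ j → ∀ x ∈ Y i, ∀ x' ∈ Y j, Disjoint (S.star x) (S.star x'))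
    (hYK : ∀ j, ∀ x ∈ Y j, Disjoint (S.star x) K)
    (hPY : ∀ i j, Disjoint (P i) (Y j))
    (hPP : ∀ i i', i ≠ i' → Disjoint (P i) (P i'))
    (hs : ∀ i j, s i j ∈ P i) (hx : ∀ i j, x i j ∈ Y j) (hadj : ∀ i j, G.Adj (x i j) (s i j))
    (hOK : ∀ i, O i ⊆ K) (hOc : ∀ i, (N.induce (O i)).Preconnected)
    (hOd : ∀ i i', i ≠ i' → Disjoint (O i) (O i'))
    (haway : ∀ i j i', i' ≠ i → S.ι (s i j) ∉ O i')
    (htype : ∀ i, (∃ v, ∀ j, s i j = v) ∨ (Function.Injective (s i) ∧
      ∀ j, S.ι (s i j) ∈ O i ∨ ∃ e, S.inc (s i j) e ∧ (S.inter e ∩ O i).Nonempty ∧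
        ∀ i', i' ≠ i → Disjoint (S.inter e) (O i')))
    (hJ : 4 * d0 k + 3 ≤ Fintype.card J) : ¬ NoK33 N := by
  classical
  have hJne : Nonempty J := by
    rw [← Fintype.card_pos_iff]; omega
  obtain ⟨j0⟩ := hJne
  set base : J → Set Q := fun j => {z | ∃ x ∈ Y j, z ∈ S.star x} with hbase
  have hbc : ∀ j, (N.induce (base j)).Connected := fun j => star_union_connected S (Y j) (hYc j)
  -- the three sets of the second side
  have hA : ∀ i, ∃ A : Set Q, (N.induce A).Connected ∧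
      ((A = {S.ι (s i j0)} ∧ ∀ j, s i j = s i j0) ∨ (A = O i ∧ Function.Injective (s i) ∧
      ∀ j, S.ι (s i j) ∈ O i ∨ ∃ e, S.inc (s i j) e ∧ (S.inter e ∩ O i).Nonempty ∧
        ∀ i', i' ≠ i → Disjoint (S.inter e) (O i'))) := by
    intro i
    rcases htype i with ⟨v, hv⟩ | ⟨hinj, hl⟩
    · refine ⟨{S.ι (s i j0)}, ?_, Or.inl ⟨rfl, fun j => by rw [hv, hv]⟩⟩
      rw [SimpleGraph.connected_iff]
      refine ⟨?_, ⟨⟨_, rfl⟩⟩⟩
      rintro ⟨a, ha⟩ ⟨b, hb⟩
      have : (⟨a, ha⟩ : ({S.ι (s i j0)} : Set Q)) = ⟨b, hb⟩ := by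
        apply Subtype.ext
        rw [Set.mem_singleton_iff] at ha hb
        exact ha.trans hb.symm
      rw [this]
    · refine ⟨O i, ?_, Or.inr ⟨rfl, hinj, hl⟩⟩
      rw [SimpleGraph.connected_iff]
      refine ⟨hOc i, ?_⟩
      rcases hl j0 with h | ⟨e, _, ⟨z, _, hz⟩, _⟩
      · exact ⟨⟨_, h⟩⟩
      · exact ⟨⟨z, hz⟩⟩
  choose A hAc hAt using hA
  have hAA : ∀ i i', i ≠ i' → Disjoint (A i) (A i') := by
    intro i i' hne
    rcases hAt i with ⟨h1, _⟩ | ⟨h1, _, _⟩ <;> rcases hAt i' with ⟨h2, _⟩ | ⟨h2, _, _⟩ <;>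
      rw [h1, h2]
    · rw [Set.disjoint_singleton]
      intro h
      exact Set.disjoint_left.1 (hPP i i' hne) (hs i j0) (S.inj h ▸ hs i' j0)
    · rw [Set.disjoint_singleton_left]
      exact haway i j0 i' hne.symm
    · rw [Set.disjoint_singleton_right]
      exact haway i' j0 i hne
    · exact hOd i i' hne
  have hAbase : ∀ i j, Disjoint (A i) (base j) := by
    intro i j
    rw [Set.disjoint_left]
    rintro z hz ⟨y, hy, hzy⟩
    rcases hAt i with ⟨h1, _⟩ | ⟨h1, _, _⟩
    · rw [h1, Set.mem_singleton_iff] at hz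
      rw [hz] at hzy
      have := C_iota_star S hzy
      exact Set.disjoint_left.1 (hPY i j) (hs i j0) (this ▸ hy)
    · rw [h1] at hz
      exact Set.disjoint_left.1 (hYK j y hy) hzy (hOK i hz)
  -- the tentacles
  have hU : ∀ i j, ∃ (U : Set Q) (e : S.E),
      (U = ∅ ∨ ((N.induce U).Connected ∧ ∃ b ∈ base j, ∃ u ∈ U, N.Adj b u)) ∧
      (∃ w ∈ base j ∪ U, ∃ a ∈ A i, N.Adj w a) ∧ (∀ i', Disjoint U (A i')) ∧
      (U.Nonempty → Function.Injective (s i) ∧ S.inc (s i j) e ∧ (S.inter e ∩ K).Nonempty) ∧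
      (∀ z ∈ U, z = S.ι (s i j) ∨ z ∈ S.inter e) := by
    intro i j
    obtain ⟨⟨z, hz, hzadj⟩, _⟩ := star_touch S (x i j) (s i j) (hadj i j)
    have hzb : z ∈ base j := ⟨x i j, hx i j, hz⟩
    obtain ⟨e0, _⟩ := S.cover _ _ (hadj i j)
    have htriv : S.ι (s i j) ∈ A i → ∃ (U : Set Q) (e : S.E),
      (U = ∅ ∨ ((N.induce U).Connected ∧ ∃ b ∈ base j, ∃ u ∈ U, N.Adj b u)) ∧
      (∃ w ∈ base j ∪ U, ∃ a ∈ A i, N.Adj w a) ∧ (∀ i', Disjoint U (A i')) ∧
      (U.Nonempty → Function.Injective (s i) ∧ S.inc (s i j) e ∧ (S.inter e ∩ K).Nonempty) ∧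
      (∀ z ∈ U, z = S.ι (s i j) ∨ z ∈ S.inter e) := by
      intro hmem
      refine ⟨∅, e0, Or.inl rfl, ⟨z, Or.inl hzb, _, hmem, hzadj⟩, fun i' => Set.empty_disjoint _,
        fun h => absurd h Set.not_nonempty_empty, fun z hz => absurd hz (Set.notMem_empty z)⟩
    rcases hAt i with ⟨h1, h2⟩ | ⟨h1, hinj, hl⟩
    · apply htriv
      rw [h1, h2 j]
      exact Set.mem_singleton _
    · by_cases hmem : S.ι (s i j) ∈ O i
      · apply htriv
        rw [h1]
        exact hmem
      · obtain ⟨e, hinc, hne, hdis⟩ := (hl j).resolve_left hmem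
        obtain ⟨t, ht1, ht2, ht3, ht4, y, hy, o, ho, hyo⟩ := tentacle S e (s i j) hinc (O i) hne hmem
        refine ⟨t, e, Or.inr ⟨ht4, z, hzb, _, ht1, hzadj⟩, ⟨y, Or.inr hy, o, by rw [h1]; exact ho, hyo⟩,
          ?_, ?_, ht2⟩
        · intro i'
          by_cases hii : i' = i
          · subst hii
            rw [h1]
            exact ht3
          · rw [Set.disjoint_left]
            intro w hw hwA
            rcases hAt i' with ⟨h3, _⟩ | ⟨h3, _, _⟩
            · rw [h3, Set.mem_singleton_iff] at hwA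
              rcases ht2 w hw with h4 | h4
              · rw [hwA] at h4
                exact Set.disjoint_left.1 (hPP i' i hii) (hs i' j0) (S.inj h4 ▸ hs i j)
              · exact C_inter_ne S h4 _ hwA
            · rw [h3] at hwA
              rcases ht2 w hw with h4 | h4
              · exact haway i j i' hii (h4 ▸ hwA)
              · exact Set.disjoint_left.1 (hdis i' hii) h4 hwA
        · intro _
          refine ⟨hinj, hinc, ?_⟩
          obtain ⟨w, hw1, hw2⟩ := hne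
          exact ⟨w, hw1, hOK i hw2⟩
  choose U e hU1 hU2 hU3 hU4 hU5 using hU
  -- the string of a tentacle is not incident with the stars of `Y`
  have heY : ∀ i j, (U i j).Nonempty → ∀ j', ∀ y ∈ Y j', ¬ S.inc y (e i j) := by
    intro i j hne j' y hy hinc
    obtain ⟨_, _, w, hw1, hw2⟩ := hU4 i j hne
    exact Set.disjoint_left.1 (hYK j' y hy) (C_inter_star S hinc hw1) hw2
  -- the relation
  set R : J → J → Prop := fun j j' => j' ≠ j ∧ ∃ i, (U i j ∩ base j').Nonempty ∨
    ∃ i', (U i j ∩ U i' j').Nonempty with hR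
  set S1 : Fin 3 → J → Set J := fun i j => {j' | j' ≠ j ∧ (U i j ∩ base j').Nonempty} with hS1
  set S2 : Fin 3 → J → Set J := fun i j => {j' | j' ≠ j ∧ ∃ i', (U i j ∩ U i' j').Nonempty} with hS2
  have hS1c : ∀ i j, (S1 i j).ncard ≤ k := by
    intro i j
    have hex : ∀ j' ∈ S1 i j, ∃ e' : S.E, (∃ z ∈ S.inter (e i j), z ∈ S.inter e' ∧ e' ≠ e i j) ∧
        ∃ y ∈ Y j', S.inc y e' := by
      rintro j' ⟨hne, z, hz, y, hy, hzy⟩
      have hUne : (U i j).Nonempty := ⟨z, hz⟩
      rcases hU5 i j z hz with h | h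
      · rw [h] at hzy
        have := C_iota_star S hzy
        exact absurd (this ▸ hy) (fun h' => Set.disjoint_left.1 (hPY i j') (hs i j) h')
      · rcases hzy with h' | ⟨e', he', hz'⟩
        · exact absurd h' (C_inter_ne S h _)
        · refine ⟨e', ⟨z, h, hz', ?_⟩, y, hy, he'⟩
          rintro rfl
          exact heY i j hUne j' y hy he'
    have : Nonempty S.E := ⟨e i j⟩
    choose! f hf1 hf2 using hex
    refine le_trans ?_ (S.crossing (e i j))
    apply Set.ncard_le_ncard_of_injOn f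
    · intro j' hj'
      obtain ⟨z, hz, hz', hne⟩ := hf1 j' hj'
      exact C_cross S hne hz hz'
    · intro a ha b hb hab
      by_contra hne
      obtain ⟨z, _, hz', _⟩ := hf1 a ha
      obtain ⟨y, hy, hyi⟩ := hf2 a ha
      obtain ⟨y', hy', hyi'⟩ := hf2 b hb
      rw [← hab] at hyi'
      exact Set.disjoint_left.1 (hYd a b hne y hy y' hy') (C_inter_star S hyi hz')
        (C_inter_star S hyi' hz')
  have hS2c : ∀ i j, (S2 i j).ncard ≤ 2 * (k + 1) := by
    intro i j
    set C : Set S.E := insert (e i j) {e' | e' ≠ e i j ∧ ∃ a b, 0 < a ∧ a < S.len (e i j) ∧ 0 < b ∧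
      b < S.len e' ∧ S.c (e i j) a = S.c e' b} with hC
    have hCc : C.ncard ≤ k + 1 := (Set.ncard_insert_le _ _).trans
      (Nat.add_le_add_right (S.crossing (e i j)) 1)
    have hex : ∀ j' ∈ S2 i j, ∃ i' : Fin 3, ∃ e' ∈ C, S.inc (s i' j') e' ∧
        Function.Injective (s i') := by
      rintro j' ⟨hne, i', z, hz, hz'⟩
      obtain ⟨hinj', hinc', _⟩ := hU4 i' j' ⟨z, hz'⟩
      refine ⟨i', e i' j', ?_, hinc', hinj'⟩
      have h1 : z ∈ S.inter (e i j) ∧ z ∈ S.inter (e i' j') := by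
        rcases hU5 i j z hz with h | h <;> rcases hU5 i' j' z hz' with h' | h'
        · exfalso
          have h3 : s i j = s i' j' := S.inj (h.symm.trans h')
          by_cases hii : i = i'
          · subst hii
            exact hne (hinj' h3).symm
          · exact Set.disjoint_left.1 (hPP i i' hii) (hs i j) (h3 ▸ hs i' j')
        · exact absurd h (C_inter_ne S h' _)
        · exact absurd h' (C_inter_ne S h _)
        · exact ⟨h, h'⟩
      by_cases he : e i' j' = e i j
      · rw [he]; exact Set.mem_insert _ _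
      · exact Set.mem_insert_of_mem _ (C_cross S he h1.1 h1.2)
    have : Nonempty S.E := ⟨e i j⟩
    choose! g e' he'C hinc hinj using hex
    have hsub : (S2 i j).ncard ≤ (S.src '' C ∪ S.tgt '' C).ncard := by
      apply Set.ncard_le_ncard_of_injOn (fun j' => s (g j') j')
      · intro j' hj'
        rcases hinc j' hj' with h | h
        · exact Or.inl ⟨_, he'C j' hj', h⟩
        · exact Or.inr ⟨_, he'C j' hj', h⟩
      · intro a ha b hb hab
        change s (g a) a = s (g b) b at hab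
        by_cases hg : g a = g b
        · rw [hg] at hab
          exact hinj b hb hab
        · exact absurd (hab ▸ hs (g b) b) (fun h => Set.disjoint_left.1 (hPP _ _ hg) (hs (g a) a)
            (by rw [hab]; exact hs (g b) b))
    refine hsub.trans ((Set.ncard_union_le _ _).trans ?_)
    have h1 : (S.src '' C).ncard ≤ C.ncard := Set.ncard_image_le (Set.toFinite _)
    have h2 : (S.tgt '' C).ncard ≤ C.ncard := Set.ncard_image_le (Set.toFinite _)
    omega
  have hRd : ∀ j, {j' | R j j'}.ncard ≤ d0 k := by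
    intro j
    have hsub : {j' | R j j'} ⊆ (S1 0 j ∪ S2 0 j) ∪ ((S1 1 j ∪ S2 1 j) ∪ (S1 2 j ∪ S2 2 j)) := by
      rintro j' ⟨hne, i, h⟩
      have h' : j' ∈ S1 i j ∪ S2 i j := by
        rcases h with h | h
        · exact Or.inl ⟨hne, h⟩
        · exact Or.inr ⟨hne, h⟩
      fin_cases i
      · exact Or.inl h'
      · exact Or.inr (Or.inl h')
      · exact Or.inr (Or.inr h')
    have h1 := Set.ncard_le_ncard hsub (Set.toFinite _)
    have h2 := Set.ncard_union_le (S1 0 j ∪ S2 0 j) ((S1 1 j ∪ S2 1 j) ∪ (S1 2 j ∪ S2 2 j))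
    have h3 := Set.ncard_union_le (S1 1 j ∪ S2 1 j) (S1 2 j ∪ S2 2 j)
    have h4 := Set.ncard_union_le (S1 0 j) (S2 0 j)
    have h5 := Set.ncard_union_le (S1 1 j) (S2 1 j)
    have h6 := Set.ncard_union_le (S1 2 j) (S2 2 j)
    have a0 := hS1c 0 j
    have a1 := hS1c 1 j
    have a2 := hS1c 2 j
    have b0 := hS2c 0 j
    have b1 := hS2c 1 j
    have b2 := hS2c 2 j
    unfold d0
    omega
  obtain ⟨f, hf, hfR⟩ := indep_triple R (d0 k) hRd hJ
  -- the minor
  intro hK
  apply hK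
  set W : J → Set Q := fun j => base j ∪ U 0 j ∪ U 1 j ∪ U 2 j with hW
  have hWU : ∀ i j, U i j ⊆ W j := by
    intro i j z hz
    fin_cases i
    · exact Or.inl (Or.inl (Or.inr hz))
    · exact Or.inl (Or.inr hz)
    · exact Or.inr hz
  have hWb : ∀ j, base j ⊆ W j := fun j z hz => Or.inl (Or.inl (Or.inl hz))
  have hWmem : ∀ j, ∀ z ∈ W j, z ∈ base j ∨ ∃ i, z ∈ U i j := by
    rintro j z (((h | h) | h) | h)
    · exact Or.inl h
    · exact Or.inr ⟨0, h⟩
    · exact Or.inr ⟨1, h⟩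
    · exact Or.inr ⟨2, h⟩
  have hWc : ∀ j, (N.induce (W j)).Connected := by
    intro j
    have h0 := C_union (hbc j) (hU1 0 j)
    have h1 : (N.induce (base j ∪ U 0 j ∪ U 1 j)).Connected := by
      apply C_union h0
      rcases hU1 1 j with h | ⟨h, b, hb, u, hu, hbu⟩
      · exact Or.inl h
      · exact Or.inr ⟨h, b, Or.inl hb, u, hu, hbu⟩
    apply C_union h1
    rcases hU1 2 j with h | ⟨h, b, hb, u, hu, hbu⟩
    · exact Or.inl h
    · exact Or.inr ⟨h, b, Or.inl (Or.inl hb), u, hu, hbu⟩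
  have hWW : ∀ j j', j ≠ j' → ¬ R j j' → ¬ R j' j → Disjoint (W j) (W j') := by
    intro j j' hne n1 n2
    rw [Set.disjoint_left]
    intro z hz hz'
    rcases hWmem j z hz with h | ⟨i, h⟩ <;> rcases hWmem j' z hz' with h' | ⟨i', h'⟩
    · obtain ⟨y, hy, hzy⟩ := h
      obtain ⟨y', hy', hzy'⟩ := h'
      exact Set.disjoint_left.1 (hYd j j' hne y hy y' hy') hzy hzy'
    · exact n2 ⟨hne, i', Or.inl ⟨z, h', h⟩⟩
    · exact n1 ⟨hne.symm, i, Or.inl ⟨z, h, h'⟩⟩
    · exact n1 ⟨hne.symm, i, Or.inr ⟨i', z, h, h'⟩⟩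
  refine ⟨A, fun a => W (f a), hAc, fun a => hWc _, hAA, ?_, ?_, ?_⟩
  · intro a b hab
    exact hWW _ _ (fun h => hab (hf h)) (hfR a b hab) (hfR b a hab.symm)
  · intro i a
    rw [Set.disjoint_left]
    intro z hz hz'
    rcases hWmem _ z hz' with h | ⟨i', h⟩
    · exact Set.disjoint_left.1 (hAbase i (f a)) hz h
    · exact Set.disjoint_left.1 (hU3 i' (f a) i) h hz
  · intro i a
    obtain ⟨w, hw, y, hy, hwy⟩ := hU2 i (f a)
    refine ⟨y, hy, w, ?_, hwy.symm⟩
    rcases hw with hw | hw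
    · exact hWb _ hw
    · exact hWU i _ hw

theorem few_touching (hK33 : NoK33 N) (X : Set V) (K : Set Q) (𝒜 : Finset (Set V))
    (O Ex : Set V → Fin 6 → Set Q) (hcard : 𝒜.card = 3) (hA : Attached S X K 𝒜 O Ex)
    (hXK : ∀ x ∈ X, Disjoint (S.star x) K)
    (n : ℕ) (Y : Fin n → Set V) (hYX : ∀ j, Y j ⊆ X) (hYc : ∀ j, (G.induce (Y j)).Connected)
    (hYd : ∀ i j, i ≠ j → ∀ x ∈ Y i, ∀ x' ∈ Y j, Disjoint (S.star x) (S.star x'))
    (hYt : ∀ j, ∀ P ∈ 𝒜, ∃ x ∈ Y j, ∃ s ∈ P, G.Adj x s) : n < N0 k := by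
  classical
  by_contra hcon
  push Not at hcon
  -- enumerate the three parts
  let en := (𝒜.equivFinOfCardEq hcard).symm
  set P : Fin 3 → Set V := fun i => (en i).1 with hP
  have hPA : ∀ i, P i ∈ 𝒜 := fun i => (en i).2
  have hPinj : ∀ i i', i ≠ i' → P i ≠ P i' := by
    intro i i' hne h
    exact hne (en.injective (Subtype.ext h))
  have hch : ∀ (i : Fin 3) (j : Fin n), ∃ x ∈ Y j, ∃ s ∈ P i, G.Adj x s :=
    fun i j => hYt j (P i) (hPA i)
  choose x hx s hs hadj using hch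
  have hland : ∀ (i : Fin 3) (j : Fin n), ∃ l, s i j ∈ S.sh (Ex (P i) l) ∨ S.ι (s i j) ∈ O (P i) l ∨
      ∃ e, S.inc (s i j) e ∧ (S.inter e ∩ O (P i) l).Nonempty ∧
        ∀ P' ∈ 𝒜, P' ≠ P i → ∀ l', Disjoint (S.inter e) (O P' l') :=
    fun i j => hA.land (P i) (hPA i) (s i j) (hs i j) ⟨x i j, hYX j (hx i j), hadj i j⟩
  choose l hl using hland
  -- the landing indices are constant on many `j`
  obtain ⟨lc, hlc⟩ := Fintype.exists_le_card_fiber_of_mul_le_card
    (fun (j : Fin n) (i : Fin 3) => l i j) (n := (m0 k) ^ 8) (by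
      rw [Fintype.card_fin]
      have h1 : Fintype.card (Fin 3 → Fin 6) = 216 := by simp
      rw [h1]
      exact hcon)
  obtain ⟨t, htc, ht⟩ := pigeon (J := {j // j ∈ Finset.univ.filter (fun j : Fin n =>
      (fun i : Fin 3 => l i j) = lc)}) (fun i j => s i j.1) (m0 k) (by
        rw [Fintype.card_coe]
        exact hlc)
  have hltc : ∀ (i : Fin 3) (j : {j // j ∈ Finset.univ.filter (fun j : Fin n =>
      (fun i : Fin 3 => l i j) = lc)}), l i j.1 = lc i := by
    intro i j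
    have := (Finset.mem_filter.1 j.2).2
    exact congrFun this i
  -- remove the indices with exceptional landing
  set Bad : Fin 3 → Finset {j // j ∈ Finset.univ.filter (fun j : Fin n =>
      (fun i : Fin 3 => l i j) = lc)} := fun i =>
    if Set.InjOn (fun j : {j // j ∈ Finset.univ.filter (fun j : Fin n =>
      (fun i : Fin 3 => l i j) = lc)} => s i j.1) t then
      t.filter (fun j => s i j.1 ∈ S.sh (Ex (P i) (lc i))) else ∅ with hBad
  have hBadc : ∀ i, (Bad i).card ≤ w0 k := by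
    intro i
    simp only [hBad]
    split_ifs with h
    · refine le_trans ?_ (hA.Ex_le (P i) (hPA i) (lc i))
      rw [← Set.ncard_coe_finset]
      apply Set.ncard_le_ncard_of_injOn (fun j => s i j.1)
      · intro j hj
        rw [Finset.mem_coe, Finset.mem_filter] at hj
        exact hj.2
      · intro a ha b hb hab
        rw [Finset.mem_coe, Finset.mem_filter] at ha hb
        exact h ha.1 hb.1 hab
    · simp
  set t2 := t \ (Bad 0 ∪ (Bad 1 ∪ Bad 2)) with ht2
  have ht2c : 4 * d0 k + 3 ≤ t2.card := by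
    have h1 := Finset.le_card_sdiff (Bad 0 ∪ (Bad 1 ∪ Bad 2)) t
    have h2 := Finset.card_union_le (Bad 0) (Bad 1 ∪ Bad 2)
    have h3 := Finset.card_union_le (Bad 1) (Bad 2)
    have b0 := hBadc 0
    have b1 := hBadc 1
    have b2 := hBadc 2
    have h4 : m0 k = 3 * w0 k + 4 * d0 k + 3 := rfl
    rw [← ht2] at h1
    omega
  have ht2t : ∀ j : {j // j ∈ t2}, j.1 ∈ t := fun j => (Finset.mem_sdiff.1 j.2).1
  have ht2B : ∀ (j : {j // j ∈ t2}) (i : Fin 3), j.1 ∉ Bad i := by
    intro j i hi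
    have := (Finset.mem_sdiff.1 j.2).2
    apply this
    rw [Finset.mem_union, Finset.mem_union]
    fin_cases i
    · exact Or.inl hi
    · exact Or.inr (Or.inl hi)
    · exact Or.inr (Or.inr hi)
  refine C_core S (J := {j // j ∈ t2}) (fun j => Y j.1.1) P (fun i => O (P i) (lc i)) K
    (fun i j => s i j.1.1) (fun i j => x i j.1.1) ?_ ?_ ?_ ?_ ?_ ?_ ?_ ?_ ?_ ?_ ?_ ?_ ?_ ?_ hK33
  · intro j
    exact hYc _
  · intro i j hne
    apply hYd
    intro h
    exact hne (Subtype.ext (Subtype.ext h))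
  · intro j y hy
    exact hXK y (hYX _ hy)
  · intro i j
    exact (hA.disjX (P i) (hPA i)).mono_right (hYX _)
  · intro i i' hne
    exact hA.disjP _ (hPA i) _ (hPA i') (hPinj i i' hne)
  · intro i j
    exact hs _ _
  · intro i j
    exact hx _ _
  · intro i j
    exact hadj _ _
  · intro i
    exact hA.OK _ (hPA i) _
  · intro i
    exact hA.Oconn _ (hPA i) _
  · intro i i' hne
    exact hA.Odisj _ (hPA i) _ (hPA i') (hPinj i i' hne) _ _
  · intro i j i' hne
    exact hA.away (P i) (hPA i) _ (hs i _) ⟨x i j.1.1, hYX _ (hx i _), hadj i _⟩ (P i') (hPA i')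
      (hPinj i' i hne) _
  · intro i
    by_cases hinj : Set.InjOn (fun j : {j // j ∈ Finset.univ.filter (fun j : Fin n =>
      (fun i : Fin 3 => l i j) = lc)} => s i j.1) t
    · right
      refine ⟨?_, ?_⟩
      · intro a b hab
        exact Subtype.ext (hinj (ht2t a) (ht2t b) hab)
      · intro j
        have h1 := hl i j.1.1
        rw [hltc i j.1] at h1
        rcases h1 with h1 | h1 | ⟨e, he1, he2, he3⟩
        · exfalso
          apply ht2B j i
          simp only [hBad]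
          rw [if_pos hinj, Finset.mem_filter]
          exact ⟨ht2t j, h1⟩
        · exact Or.inl h1
        · exact Or.inr ⟨e, he1, he2, fun i' hne => he3 _ (hPA i') (hPinj i' i hne) _⟩
    · left
      rcases ht i with h | ⟨v, hv⟩
      · exact absurd h hinj
      · exact ⟨v, fun j => hv _ (ht2t j)⟩
  · rw [Fintype.card_coe]
    exact ht2c

end strings

end KPL
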