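import Pool.Agent.Lib.KPL.Defs

/-!
# Triangulated spheres: connectedness and the tree property F1 (module D1, helper56)
-/

set_option autoImplicit false
set_option linter.unusedSectionVars false

namespace KPL

open Set

namespace TriSphere

variable {I Q : Type} [Fintype I] [Fintype Q] (S : TriSphere I Q)

/-- start vertex of a dart -/
private def st (d : I × Fin 3) : Q := S.a d.1 d.2

/-- previous dart around the start vertex -/
private def sgi (d : I × Fin 3) : I × Fin 3 := ((S.α d).1, (S.α d).2 + 1)

/-- next dart around the start vertex -/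
private def sg (d : I × Fin 3) : I × Fin 3 := S.α (d.1, d.2 - 1)

private lemma sg_sgi (d : I × Fin 3) : S.sg (S.sgi d) = d := by
  unfold sg sgi
  simp only [add_sub_cancel_right, Prod.mk.eta]
  exact S.inv d

private lemma sgi_sg (d : I × Fin 3) : S.sgi (S.sg d) = d := by
  unfold sg sgi
  rw [S.inv]
  simp

private lemma st_α (d : I × Fin 3) : S.st (S.α d) = S.a d.1 (d.2 + 1) := S.glue d

private lemma st_sgi (d : I × Fin 3) : S.st (S.sgi d) = S.st d := by
  have h := S.glue (S.α d)
  rw [S.inv] at h
  exact h.symm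

private lemma st_sg (d : I × Fin 3) : S.st (S.sg d) = S.st d := by
  rw [← S.st_sgi (S.sg d), sgi_sg]

/-- boundary of a set of triangles -/
private def bd (A : Set I) (d : I × Fin 3) : Prop := ¬ (d.1 ∈ A ↔ (S.α d).1 ∈ A)

private lemma bd_α (A : Set I) (d : I × Fin 3) : S.bd A (S.α d) ↔ S.bd A d := by
  unfold bd
  rw [S.inv]
  tauto

open Classical in
private lemma parity (A : Set I) (q : Q) :
    Even (Finset.univ.filter (fun d : I × Fin 3 => S.st d = q ∧ S.bd A d)).card := by
  have h1 : (((Finset.univ.filter (fun d : I × Fin 3 => S.st d = q ∧ S.bd A d)).card : ℕ) : ZMod 2)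
      = 0 := by
    rw [← Finset.filter_filter, Finset.card_filter]
    push_cast
    set f : I × Fin 3 → ZMod 2 := fun d => if d.1 ∈ A then 1 else 0 with hf
    have h2 : ∀ d : I × Fin 3, ((if S.bd A d then 1 else 0 : ZMod 2)) = f d + f (S.sgi d) := by
      intro d
      have e : (S.sgi d).1 = (S.α d).1 := rfl
      simp only [hf, e]
      unfold bd
      by_cases h3 : d.1 ∈ A <;> by_cases h4 : (S.α d).1 ∈ A <;> simp [h3, h4] <;> decide
    simp_rw [h2]
    rw [Finset.sum_add_distrib]
    have h5 : ∑ d ∈ Finset.univ.filter (fun d : I × Fin 3 => S.st d = q), f (S.sgi d) =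
        ∑ d ∈ Finset.univ.filter (fun d : I × Fin 3 => S.st d = q), f d := by
      apply Finset.sum_nbij' (i := S.sgi) (j := S.sg)
      · intro d hd
        simp only [Finset.mem_filter, Finset.mem_univ, true_and] at hd ⊢
        rw [S.st_sgi, hd]
      · intro d hd
        simp only [Finset.mem_filter, Finset.mem_univ, true_and] at hd ⊢
        rw [S.st_sg, hd]
      · intro d _
        exact S.sg_sgi d
      · intro d _
        exact S.sgi_sg d
      · intro d _
        rfl
    rw [h5]
    exact CharTwo.add_self_eq_zero _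
  exact (ZMod.natCast_eq_zero_iff_even).1 h1

/-! ### rooted spanning trees -/

section tree

variable {S} {r : Q} {p : Q → Q} (hp : IsRST S.graph r p)

open Classical in
/-- depth of a vertex -/
private noncomputable def dep (hp : IsRST S.graph r p) (z : Q) : ℕ := Nat.find (hp.reach z)

private lemma dep_p {z : Q} (hz : z ≠ r) : dep hp (p z) + 1 = dep hp z := by
  classical
  unfold dep
  symm
  rw [Nat.find_eq_iff]
  constructor
  · rw [Function.iterate_succ_apply]
    exact Nat.find_spec (hp.reach (p z))
  · intro n hn h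
    cases n with
    | zero => exact hz h
    | succ n =>
      rw [Function.iterate_succ_apply] at h
      exact Nat.find_min (hp.reach (p z)) (by omega) h

private lemma exists_tree_dart (hp : IsRST S.graph r p) : ∃ t : Q → I × Fin 3, ∀ z, z ≠ r →
    S.st (t z) = z ∧ S.st (S.α (t z)) = p z := by
  classical
  have h : ∀ z, ∃ d : I × Fin 3, z ≠ r → S.st d = z ∧ S.st (S.α d) = p z := by
    intro z
    by_cases hz : z = r
    · obtain ⟨d, _⟩ := S.surj r
      exact ⟨d, fun h => absurd hz h⟩
    · obtain ⟨_, d, h1, h2⟩ := hp.adj z hz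
      exact ⟨d, fun _ => ⟨h1, by rw [S.st_α]; exact h2⟩⟩
  choose t ht using h
  exact ⟨t, ht⟩

/-- tree darts -/
private def TD (S : TriSphere I Q) (r : Q) (t : Q → I × Fin 3) (d : I × Fin 3) : Prop :=
  ∃ z, z ≠ r ∧ (d = t z ∨ d = S.α (t z))

private lemma TD_α {t : Q → I × Fin 3} {d : I × Fin 3} (h : TD S r t d) : TD S r t (S.α d) := by
  obtain ⟨z, hz, h1 | h1⟩ := h
  · exact ⟨z, hz, Or.inr (by rw [h1])⟩
  · exact ⟨z, hz, Or.inl (by rw [h1, S.inv])⟩

variable {t : Q → I × Fin 3} (ht : ∀ z, z ≠ r → S.st (t z) = z ∧ S.st (S.α (t z)) = p z)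

include hp ht in
/-- the leaf argument -/
private lemma leaf (X : Set Q) (hX : ∀ q, q ≠ r → p q ∈ X → q ∈ X) (A : Set I)
    (hA : ∀ d, S.st d ∈ X → S.bd A d → TD S r t d) : ∀ d, S.st d ∈ X → ¬ S.bd A d := by
  classical
  have h1 : ∀ q ∈ X, q ≠ r → ¬ S.bd A (t q) := by
    by_contra hcon
    push Not at hcon
    obtain ⟨q0, hq0, hq0r, hq0b⟩ := hcon
    obtain ⟨q, hq, hmax⟩ := Finset.exists_max_image
      (Finset.univ.filter (fun q => q ∈ X ∧ q ≠ r ∧ S.bd A (t q))) (dep hp)
      ⟨q0, by simp [hq0, hq0r, hq0b]⟩
    simp only [Finset.mem_filter, Finset.mem_univ, true_and] at hq hmax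
    obtain ⟨hqX, hqr, hqb⟩ := hq
    have h2 : Finset.univ.filter (fun d : I × Fin 3 => S.st d = q ∧ S.bd A d) = {t q} := by
      ext d
      simp only [Finset.mem_filter, Finset.mem_univ, true_and, Finset.mem_singleton]
      constructor
      · rintro ⟨h3, h4⟩
        obtain ⟨z, hz, h5 | h5⟩ := hA d (by rw [h3]; exact hqX) h4
        · have : z = q := by rw [← (ht z hz).1, ← h5, h3]
          rw [h5, this]
        · exfalso
          have h6 : p z = q := by rw [← (ht z hz).2, ← h5, h3]
          have h7 : S.bd A (t z) := by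
            rw [h5, bd_α] at h4
            exact h4
          have h8 := hmax z ⟨hX z hz (by rw [h6]; exact hqX), hz, h7⟩
          have h9 := dep_p hp hz
          rw [h6] at h9
          omega
      · rintro rfl
        exact ⟨(ht q hqr).1, hqb⟩
    have h3 := S.parity A q
    rw [h2] at h3
    simp at h3
  intro d hd hb
  obtain ⟨z, hz, h5 | h5⟩ := hA d hd hb
  · have : S.st d = z := by rw [h5]; exact (ht z hz).1
    rw [this] at hd
    rw [h5] at hb
    exact h1 z hd hz hb
  · have : S.st d = p z := by rw [h5]; exact (ht z hz).2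
    rw [this] at hd
    rw [h5, bd_α] at hb
    exact h1 z (hX z hz hd) hz hb

/-- the dual tree -/
private def dual (S : TriSphere I Q) (r : Q) (t : Q → I × Fin 3) : SimpleGraph I where
  Adj i j := i ≠ j ∧ ∃ d, d.1 = i ∧ (S.α d).1 = j ∧ ¬ TD S r t d
  symm := by
    constructor
    rintro i j ⟨h, d, h1, h2, h3⟩
    refine ⟨h.symm, S.α d, h2, by rw [S.inv]; exact h1, ?_⟩
    intro h4
    have := TD_α h4
    rw [S.inv] at this
    exact h3 this
  loopless := by
    constructor
    intro i h
    exact h.1 rfl

include hp ht in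
private lemma dual_connected : (dual S r t).Connected := by
  classical
  obtain ⟨d0, _⟩ := S.surj r
  haveI : Nonempty I := ⟨d0.1⟩
  have key : ∀ i, (dual S r t).Reachable d0.1 i := by
    set A : Set I := {i | (dual S r t).Reachable d0.1 i} with hAdef
    have hcl : ∀ d, ¬ S.bd A d := by
      intro d
      apply leaf hp ht univ (fun _ _ _ => mem_univ _) A _ d (mem_univ _)
      intro d _ hb
      by_contra hTD
      apply hb
      have hne : d.1 ≠ (S.α d).1 := by
        intro h
        apply hb
        rw [h]
      have hadj : (dual S r t).Adj d.1 (S.α d).1 := ⟨hne, d, rfl, rfl, hTD⟩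
      constructor
      · intro h
        exact h.trans hadj.reachable
      · intro h
        exact h.trans hadj.symm.reachable
    have hA : A = univ := by
      apply S.conn A ⟨d0.1, SimpleGraph.Reachable.refl _⟩
      intro d hd
      by_contra h
      exact hcl d (fun h' => h (h'.1 hd))
    intro i
    have : i ∈ A := by rw [hA]; exact mem_univ _
    exact this
  exact ⟨fun i j => (key i).symm.trans (key j)⟩

include hp ht in
private lemma td_inj : Function.Injective (fun x : {z : Q // z ≠ r} × Bool =>
    if x.2 then t x.1.1 else S.α (t x.1.1)) := by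
  have hα : Function.Injective S.α := fun a b h => by rw [← S.inv a, h, S.inv]
  rintro ⟨⟨z, hz⟩, b⟩ ⟨⟨z', hz'⟩, b'⟩ h
  have h1 := ht z hz
  have h2 := ht z' hz'
  have h3 := dep_p hp hz
  have h4 := dep_p hp hz'
  cases b <;> cases b' <;> simp only [Bool.false_eq_true, if_false, if_true] at h
  · have h5 := hα h
    have : z = z' := by rw [← h1.1, h5, h2.1]
    subst this
    rfl
  · exfalso
    -- α (t z) = t z'
    have h5 : p z = z' := by rw [← h1.2, h, h2.1]
    have h6 : p z' = z := by rw [← h2.2, ← h, S.inv, h1.1]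
    rw [h5] at h3
    rw [h6] at h4
    omega
  · exfalso
    have h5 : p z' = z := by rw [← h2.2, ← h, h1.1]
    have h6 : p z = z' := by rw [← h1.2, h, S.inv, h2.1]
    rw [h6] at h3
    rw [h5] at h4
    omega
  · have : z = z' := by rw [← h1.1, h, h2.1]
    subst this
    rfl

include hp ht in
private lemma dual_isTree : (dual S r t).IsTree := by
  classical
  rw [SimpleGraph.isTree_iff_connected_and_card]
  have hc := dual_connected hp ht
  refine ⟨hc, le_antisymm ?_ hc.card_vert_le_card_edgeSet_add_one⟩
  rw [Nat.card_eq_fintype_card, Nat.card_eq_fintype_card]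
  -- tree darts
  have h1 : 2 * (Fintype.card Q - 1) ≤
      (Finset.univ.filter (fun d : I × Fin 3 => TD S r t d)).card := by
    have h2 : Fintype.card ({z : Q // z ≠ r} × Bool) = 2 * (Fintype.card Q - 1) := by
      rw [Fintype.card_prod, Fintype.card_bool, mul_comm]
      congr 1
      rw [Fintype.card_subtype_compl, Fintype.card_subtype_eq]
    rw [← h2, ← Finset.card_univ, ← Finset.card_image_of_injective _ (td_inj hp ht)]
    apply Finset.card_le_card
    intro d hd
    simp only [Finset.mem_image, Finset.mem_univ, true_and] at hd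
    obtain ⟨⟨⟨z, hz⟩, b⟩, rfl⟩ := hd
    simp only [Finset.mem_filter, Finset.mem_univ, true_and]
    cases b
    · exact ⟨z, hz, Or.inr (by simp)⟩
    · exact ⟨z, hz, Or.inl (by simp)⟩
  have h3 : (Finset.univ.filter (fun d : I × Fin 3 => TD S r t d)).card +
      (Finset.univ.filter (fun d : I × Fin 3 => ¬ TD S r t d)).card = 3 * Fintype.card I := by
    rw [Finset.card_filter_add_card_filter_not, Finset.card_univ, Fintype.card_prod,
      Fintype.card_fin, mul_comm]
  have h4 : Fintype.card (dual S r t).Dart ≤
      (Finset.univ.filter (fun d : I × Fin 3 => ¬ TD S r t d)).card := by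
    have h5 : ∀ e : (dual S r t).Dart, ∃ d : I × Fin 3, d.1 = e.fst ∧ (S.α d).1 = e.snd ∧
        ¬ TD S r t d := fun e => e.adj.2
    choose g hg1 hg2 hg3 using h5
    rw [← Finset.card_univ]
    apply Finset.card_le_card_of_injOn g
    · intro e _
      simp only [Finset.coe_filter, Finset.mem_univ, true_and, mem_setOf_eq]
      exact hg3 e
    · intro e _ e' _ h
      apply SimpleGraph.Dart.ext
      apply Prod.ext
      · rw [← hg1 e, ← hg1 e', h]
      · rw [← hg2 e, ← hg2 e', h]
  rw [SimpleGraph.dart_card_eq_twice_card_edges] at h4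
  have h5 := S.euler
  have h6 : 0 < Fintype.card Q := Fintype.card_pos_iff.2 ⟨r⟩
  have h7 : (dual S r t).edgeFinset.card = Fintype.card (dual S r t).edgeSet := by
    rw [SimpleGraph.edgeFinset_card]
  rw [← h7]
  omega

end tree

/-- criterion for connectedness of an induced subgraph -/
private lemma induce_connected_of {J : Type} (T : SimpleGraph J) (C : Set J) (hC : C.Nonempty)
    (h : ∀ A ⊆ C, A.Nonempty → (∀ i ∈ A, ∀ j ∈ C, T.Adj i j → j ∈ A) → A = C) :
    (T.induce C).Connected := by
  obtain ⟨c, hc⟩ := hC
  haveI : Nonempty C := ⟨⟨c, hc⟩⟩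
  have key : ∀ x : C, (T.induce C).Reachable ⟨c, hc⟩ x := by
    have h1 := h {j | ∃ hj : j ∈ C, (T.induce C).Reachable ⟨c, hc⟩ ⟨j, hj⟩}
      (fun j hj => hj.1) ⟨c, hc, SimpleGraph.Reachable.refl _⟩ (by
        rintro i ⟨hi, hi'⟩ j hj hij
        exact ⟨hj, hi'.trans (SimpleGraph.Adj.reachable (by simpa using hij))⟩)
    rintro ⟨x, hx⟩
    have h2 : x ∈ {j | ∃ hj : j ∈ C, (T.induce C).Reachable ⟨c, hc⟩ ⟨j, hj⟩} := by
      rw [h1]; exact hx
    exact h2.2
  exact ⟨fun i j => (key i).symm.trans (key j)⟩

/-- the 1-skeleton of a triangulated sphere is connected -/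
theorem connected : S.graph.Connected := by
  classical
  -- vertices exist
  have hQ : Nonempty Q := by
    have := S.euler
    by_contra h
    rw [not_nonempty_iff] at h
    rw [Fintype.card_eq_zero] at this
    omega
  obtain ⟨q0⟩ := hQ
  have hside : ∀ d : I × Fin 3, S.graph.Reachable (S.a d.1 d.2) (S.a d.1 (d.2 + 1)) := by
    intro d
    by_cases h : S.a d.1 d.2 = S.a d.1 (d.2 + 1)
    · rw [← h]
    · exact SimpleGraph.Adj.reachable ⟨h, d, rfl, rfl⟩
  have htri : ∀ i (c c' : Fin 3), S.graph.Reachable (S.a i c) (S.a i c') := by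
    intro i
    have h0 := hside (i, 0)
    have h1 := hside (i, 1)
    have h2 := hside (i, 2)
    simp only at h0 h1 h2
    have e0 : (0 : Fin 3) + 1 = 1 := rfl
    have e1 : (1 : Fin 3) + 1 = 2 := rfl
    have e2 : (2 : Fin 3) + 1 = 0 := rfl
    rw [e0] at h0
    rw [e1] at h1
    rw [e2] at h2
    intro c c'
    have h3 : ∀ c : Fin 3, S.graph.Reachable (S.a i 0) (S.a i c) := by
      intro c
      fin_cases c
      · exact SimpleGraph.Reachable.refl _
      · exact h0
      · exact h2.symm
    exact (h3 c).symm.trans (h3 c')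
  have hA : {i | S.graph.Reachable q0 (S.a i 0)} = univ := by
    apply S.conn
    · obtain ⟨d, hd⟩ := S.surj q0
      refine ⟨d.1, ?_⟩
      have := htri d.1 d.2 0
      rw [hd] at this
      exact this
    · intro d hd
      have h1 := htri d.1 0 (d.2 + 1)
      have h2 := htri (S.α d).1 (S.α d).2 0
      rw [S.glue] at h2
      exact (SimpleGraph.Reachable.trans hd h1).trans h2
  have key : ∀ q, S.graph.Reachable q0 q := by
    intro q
    obtain ⟨d, hd⟩ := S.surj q
    have h1 : d.1 ∈ {i | S.graph.Reachable q0 (S.a i 0)} := by rw [hA]; exact mem_univ _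
    have h2 := htri d.1 0 d.2
    rw [hd] at h2
    exact SimpleGraph.Reachable.trans h1 h2
  haveI : Nonempty Q := ⟨q0⟩
  exact ⟨fun x y => (key x).symm.trans (key y)⟩

/-- F1: the tree property -/
theorem treeProp : TreeProp S.graph := by
  classical
  intro r p hp
  obtain ⟨t, ht⟩ := exists_tree_dart hp
  refine ⟨I, inferInstance, dual S r t, S.a, dual_isTree hp ht, ?_, ?_⟩
  · rintro z w ⟨_, d, h1, h2⟩
    exact ⟨d.1, ⟨d.2, 0, h1⟩, ⟨d.2 + 1, 0, h2⟩⟩
  · intro z
    set X : Set Q := {q | z ∈ rp p q} with hXdef
    have hX : ∀ q, q ≠ r → p q ∈ X → q ∈ X := by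
      rintro q _ ⟨n, hn⟩
      exact ⟨n + 1, by rw [Function.iterate_succ_apply]; exact hn⟩
    have hzX : z ∈ X := ⟨0, rfl⟩
    have hmem : ∀ i c, S.a i c ∈ X → i ∈ {i | ∃ c, z ∈ rp p (S.a i c)} := fun i c h => ⟨c, h⟩
    apply induce_connected_of
    · obtain ⟨d, hd⟩ := S.surj z
      exact ⟨d.1, d.2, by rw [hd]; exact hzX⟩
    · intro A hAC hAne hAcl
      -- no boundary darts at descendants of z
      have hbd : ∀ d, S.st d ∈ X → ¬ S.bd A d := by
        apply leaf hp ht X hX A
        intro d hd hb
        by_contra hTD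
        have hne : d.1 ≠ (S.α d).1 := by
          intro h
          apply hb
          rw [h]
        have hadj : (dual S r t).Adj d.1 (S.α d).1 := ⟨hne, d, rfl, rfl, hTD⟩
        have hm1 : d.1 ∈ {i | ∃ c, z ∈ rp p (S.a i c)} := ⟨d.2, hd⟩
        have hm2 : (S.α d).1 ∈ {i | ∃ c, z ∈ rp p (S.a i c)} := by
          refine ⟨(S.α d).2 + 1, ?_⟩
          have := S.st_sgi d
          unfold st sgi at this
          simp only at this
          rw [this]
          exact hd
        apply hb
        constructor
        · intro h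
          exact hAcl _ h _ hm2 hadj
        · intro h
          exact hAcl _ h _ hm1 hadj.symm
      -- all triangles at a descendant are on the same side
      have hstep : ∀ d, S.st d ∈ X → (d.1 ∈ A ↔ (S.sg d).1 ∈ A) := by
        intro d hd
        have h1 := hbd (S.sg d) (by rw [S.st_sg]; exact hd)
        unfold bd at h1
        rw [not_not] at h1
        have h2 : (S.α (S.sg d)).1 = d.1 := by
          unfold sg
          rw [S.inv]
        rw [h2] at h1
        exact h1.symm
      have hsame : ∀ d d', S.st d ∈ X → S.st d = S.st d' → (d.1 ∈ A ↔ d'.1 ∈ A) := by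
        intro d d' hd hdd
        obtain ⟨n, hn⟩ := S.orbit d d' hdd
        have h1 : ∀ m : ℕ, S.st (S.sg^[m] d) = S.st d ∧ (d.1 ∈ A ↔ (S.sg^[m] d).1 ∈ A) := by
          intro m
          induction m with
          | zero => exact ⟨rfl, Iff.rfl⟩
          | succ m ih =>
            rw [Function.iterate_succ_apply']
            refine ⟨by rw [S.st_sg, ih.1], ih.2.trans (hstep _ (by rw [ih.1]; exact hd))⟩
        have h2 := (h1 n).2
        have h3 : S.sg^[n] d = d' := hn
        rw [h3] at h2
        exact h2
      obtain ⟨dz, hdz⟩ := S.surj z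
      -- every descendant is on the side of z
      have hdesc : ∀ n : ℕ, ∀ q, p^[n] q = z → ∀ d, S.st d = q → (d.1 ∈ A ↔ dz.1 ∈ A) := by
        intro n
        induction n with
        | zero =>
          intro q hq d hd
          simp only [Function.iterate_zero, id_eq] at hq
          apply hsame
          · rw [hd, hq]; exact hzX
          · rw [hd, hq]; exact hdz.symm
        | succ n ih =>
          intro q hq d hd
          by_cases hqr : q = r
          · apply ih q _ d hd
            rw [Function.iterate_succ_apply, hqr, hp.root] at hq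
            rw [hqr]
            exact hq
          · have h1 := ht q hqr
            have hqX : q ∈ X := ⟨n + 1, hq⟩
            have h2 := hsame d (t q) (by rw [hd]; exact hqX) (by rw [hd, h1.1])
            rw [Function.iterate_succ_apply] at hq
            -- the triangle of `t q` has the corner `p q`
            have h3 := ih (p q) hq ((t q).1, (t q).2 + 1) (by
              have := h1.2
              rw [S.st_α] at this
              exact this)
            exact h2.trans h3
      apply Subset.antisymm hAC
      rintro i ⟨c, n, hn⟩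
      have h1 := hdesc n (S.a i c) hn (i, c) rfl
      obtain ⟨j, hj⟩ := hAne
      obtain ⟨c', n', hn'⟩ := hAC hj
      have h2 := hdesc n' (S.a j c') hn' (j, c') rfl
      exact h1.2 (h2.1 hj)

end TriSphere

end KPL
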