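import Mathlib

/-!
# Product structure of k-planar graphs (MP_641db7_co): definitions

Public definitions (`strongProd`, `TreewidthLE`, `IsPlaneMap`, `IsPlanar`, `IsKPlanar`) and the internal
combinatorial setting (`StrSys` = system of strings in a host graph).
-/

set_option autoImplicit false

namespace KPL

open Set

/-! ## Public definitions -/

/-- Strong product of two simple graphs. -/
def strongProd {A B : Type*} (G : SimpleGraph A) (H : SimpleGraph B) : SimpleGraph (A × B) where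
  Adj x y := x ≠ y ∧ (x.1 = y.1 ∨ G.Adj x.1 y.1) ∧ (x.2 = y.2 ∨ H.Adj x.2 y.2)
  symm := by
    constructor
    rintro x y ⟨h1, h2, h3⟩
    exact ⟨h1.symm, h2.imp Eq.symm (fun h => h.symm), h3.imp Eq.symm (fun h => h.symm)⟩
  loopless := by
    constructor
    intro x h
    exact h.1 rfl

/-- `H` has treewidth at most `t`: there is a tree decomposition (tree `T` on a finite index type `I`,
bags `B i`) with all bags of size at most `t + 1`. -/
def TreewidthLE {A : Type*} (H : SimpleGraph A) (t : ℕ) : Prop :=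
  ∃ (I : Type) (_ : Fintype I) (T : SimpleGraph I) (B : I → Finset A), T.IsTree ∧
    (∀ i, (B i).card ≤ t + 1) ∧
    (∀ a, ∃ i, a ∈ B i) ∧
    (∀ a b, H.Adj a b → ∃ i, a ∈ B i ∧ b ∈ B i) ∧
    (∀ a, (T.induce {i | a ∈ B i}).Preconnected)

/-- `M` is a connected finite graph together with (the existence of) a rotation system `ρ` whose number
`m` of faces satisfies Euler's formula `|V| + m = |E| + 2` of the sphere.  The faces are the cycles of
the permutation `d ↦ ρ (reverse of d)` of the darts. -/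
def IsPlaneMap {P : Type} (M : SimpleGraph P) : Prop :=
  M.Connected ∧ ∃ (ρ : Equiv.Perm M.Dart) (m : ℕ) (face : M.Dart → Fin m),
    (∀ d, (ρ d).fst = d.fst) ∧
    (∀ d d' : M.Dart, d.fst = d'.fst → ∃ n : ℕ, (ρ^[n]) d = d') ∧
    Function.Surjective face ∧
    (∀ d d' : M.Dart, face d = face d' ↔ ∃ n : ℕ, ((fun e : M.Dart => ρ e.symm)^[n]) d = d') ∧
    Nat.card P + m = Nat.card M.edgeSet + 2

/-- A finite graph is planar if it is (isomorphic to) a subgraph of a plane map. -/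
def IsPlanar {P : Type} (M : SimpleGraph P) : Prop :=
  ∃ (P' : Type) (_ : Fintype P') (M' : SimpleGraph P'), IsPlaneMap M' ∧
    ∃ f : P → P', Function.Injective f ∧ ∀ a b, M.Adj a b → M'.Adj (f a) (f b)

/-- `G` is `k`-planar: there are a finite planar graph `M` (the planarisation of a drawing, possibly
with additional vertices and edges), distinct vertices `ι v` of `M` representing the vertices of `G`,
and for every edge `uv` of `G` a path `W u v` of `M` from `ι u` to `ι v` (the drawing of the edge)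
whose interior vertices do not represent vertices of `G`, such that for every edge `uv` at most `k`
other edges of `G` cross it, i.e. have a path that shares an interior vertex with `W u v`. -/
def IsKPlanar (k : ℕ) {V : Type} (G : SimpleGraph V) : Prop :=
  ∃ (P : Type) (_ : Fintype P) (M : SimpleGraph P) (ι : V → P)
    (W : ∀ u v, G.Adj u v → M.Walk (ι u) (ι v)),
    IsPlanar M ∧ Function.Injective ι ∧
    (∀ u v h, (W u v h).IsPath) ∧
    (∀ u v (h : G.Adj u v), W v u h.symm = (W u v h).reverse) ∧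
    (∀ u v h x, ι x ∈ (W u v h).support → x = u ∨ x = v) ∧
    (∀ u v (h : G.Adj u v),
      {e : Sym2 V | e ≠ s(u, v) ∧ ∃ (u' v' : V) (h' : G.Adj u' v'), e = s(u', v') ∧
        ∃ z, z ∈ (W u v h).support ∧ z ∈ (W u' v' h').support ∧ z ∉ range ι}.ncard ≤ k)

/-- `G` is contained (as a subgraph) in `H ⊠ P ⊠ K_m` for some `H` of treewidth at most `t` and some
path `P`. -/
def InProduct {V : Type} (G : SimpleGraph V) (t m : ℕ) : Prop :=
  ∃ (A : Type) (_ : Fintype A) (H : SimpleGraph A) (n : ℕ), TreewidthLE H t ∧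
    ∃ f : V → (A × Fin n) × Fin m, Function.Injective f ∧
      ∀ u v, G.Adj u v →
        (strongProd (strongProd H (SimpleGraph.pathGraph n)) (⊤ : SimpleGraph (Fin m))).Adj (f u) (f v)

/-! ## Internal definitions -/

/-- rooted spanning tree of `N`, given by a parent function -/
structure IsRST {Q : Type} (N : SimpleGraph Q) (r : Q) (p : Q → Q) : Prop where
  root : p r = r
  adj : ∀ z, z ≠ r → N.Adj z (p z)
  reach : ∀ z, ∃ n : ℕ, p^[n] z = r

/-- root path of `z` -/
def rp {Q : Type} (p : Q → Q) (z : Q) : Set Q := {w | ∃ n : ℕ, p^[n] z = w}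

/-- F1: for every rooted spanning tree there is a tree decomposition whose bags are unions of three
root paths -/
def TreeProp {Q : Type} (N : SimpleGraph Q) : Prop :=
  ∀ (r : Q) (p : Q → Q), IsRST N r p →
    ∃ (I : Type) (_ : Fintype I) (T : SimpleGraph I) (a : I → Fin 3 → Q),
      T.IsTree ∧
      (∀ z w, N.Adj z w → ∃ i, (∃ c, z ∈ rp p (a i c)) ∧ (∃ c, w ∈ rp p (a i c))) ∧
      (∀ z, (T.induce {i | ∃ c, z ∈ rp p (a i c)}).Connected)

/-- F2: no `K_{3,3}` minor -/
def NoK33 {Q : Type} (N : SimpleGraph Q) : Prop :=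
  ¬ ∃ (A B : Fin 3 → Set Q), (∀ i, (N.induce (A i)).Connected) ∧ (∀ i, (N.induce (B i)).Connected) ∧
    (∀ i j, i ≠ j → Disjoint (A i) (A j)) ∧ (∀ i j, i ≠ j → Disjoint (B i) (B j)) ∧
    (∀ i j, Disjoint (A i) (B j)) ∧
    (∀ i j, ∃ x ∈ A i, ∃ y ∈ B j, N.Adj x y)

/-- A system of strings: a graph `G` 'drawn' in a host graph `N`; the edge `e` of `G` is the string
`c e 0, c e 1, …, c e (len e)`; every string crosses at most `k` other strings. -/
structure StrSys {V Q : Type} (G : SimpleGraph V) (N : SimpleGraph Q) (k : ℕ) where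
  ι : V → Q
  inj : Function.Injective ι
  E : Type
  fE : Fintype E
  src : E → V
  tgt : E → V
  adjG : ∀ e, G.Adj (src e) (tgt e)
  cover : ∀ u v, G.Adj u v → ∃ e, (src e = u ∧ tgt e = v) ∨ (src e = v ∧ tgt e = u)
  len : E → ℕ
  c : E → ℕ → Q
  len_pos : ∀ e, 0 < len e
  c_zero : ∀ e, c e 0 = ι (src e)
  c_len : ∀ e, c e (len e) = ι (tgt e)
  adjN : ∀ e i, i < len e → N.Adj (c e i) (c e (i+1))
  cinj : ∀ e i j, i ≤ len e → j ≤ len e → c e i = c e j → i = j
  dummy : ∀ e i, 0 < i → i < len e → ∀ v, c e i ≠ ι v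
  crossing : ∀ e, {e' | e' ≠ e ∧ ∃ i j, 0 < i ∧ i < len e ∧ 0 < j ∧ j < len e' ∧ c e i = c e' j}.ncard ≤ k

namespace StrSys

variable {V Q : Type} {G : SimpleGraph V} {N : SimpleGraph Q} {k : ℕ} (S : StrSys G N k)

instance : Fintype S.E := S.fE

/-- interior (dummy) vertices of a string -/
def inter (e : S.E) : Set Q := {z | ∃ i, 0 < i ∧ i < S.len e ∧ S.c e i = z}

/-- all vertices of a string -/
def str (e : S.E) : Set Q := {z | ∃ i, i ≤ S.len e ∧ S.c e i = z}

/-- incidence between vertices of `G` and strings -/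
def inc (x : V) (e : S.E) : Prop := S.src e = x ∨ S.tgt e = x

/-- the star of `x`: `ι x` and all interior vertices of strings at `x` -/
def star (x : V) : Set Q := {z | z = S.ι x ∨ ∃ e, S.inc x e ∧ z ∈ S.inter e}

/-- the shadow of a set `A` of host vertices: the vertices of `G` whose star meets `A` -/
def sh (A : Set Q) : Set V := {x | ∃ z ∈ A, z ∈ S.star x}

/-- tentacles of `K`: strings with an interior vertex in `K` -/
def tent (K : Set Q) : Set S.E := {e | (S.inter e ∩ K).Nonempty}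

/-- `K` together with all its tentacles -/
def plus (K : Set Q) : Set Q := K ∪ {z | ∃ e ∈ S.tent K, z ∈ S.str e}

end StrSys

/-- load bound of a root path in one layer -/
def w0 (k : ℕ) : ℕ := 2 * (k + 1) * (k + 1)

def d0 (k : ℕ) : ℕ := 9 * k + 6
def m0 (k : ℕ) : ℕ := 3 * w0 k + 4 * d0 k + 3
def N0 (k : ℕ) : ℕ := 216 * (m0 k) ^ 8

/-- the data of the parts `P ∈ 𝒜` attached to a set `X`: `O P l` are connected subsets of the skeleton
`K`, `Ex P l` small exceptional sets, every vertex `s ∈ P` adjacent to `X` lands on one of them. -/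
structure Attached {V Q : Type} {G : SimpleGraph V} {N : SimpleGraph Q} {k : ℕ} (S : StrSys G N k)
    (X : Set V) (K : Set Q) (𝒜 : Finset (Set V)) (O Ex : Set V → Fin 6 → Set Q) : Prop where
  disjX : ∀ P ∈ 𝒜, Disjoint P X
  disjP : ∀ P ∈ 𝒜, ∀ P' ∈ 𝒜, P ≠ P' → Disjoint P P'
  OK : ∀ P ∈ 𝒜, ∀ l, O P l ⊆ K
  Oconn : ∀ P ∈ 𝒜, ∀ l, (N.induce (O P l)).Preconnected
  Odisj : ∀ P ∈ 𝒜, ∀ P' ∈ 𝒜, P ≠ P' → ∀ l l', Disjoint (O P l) (O P' l')
  Ex_le : ∀ P ∈ 𝒜, ∀ l, (S.sh (Ex P l)).ncard ≤ w0 k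
  inPlus : ∀ P ∈ 𝒜, ∀ s ∈ P, (∃ x ∈ X, G.Adj x s) → S.ι s ∈ S.plus K
  away : ∀ P ∈ 𝒜, ∀ s ∈ P, (∃ x ∈ X, G.Adj x s) → ∀ P' ∈ 𝒜, P' ≠ P → ∀ l, S.ι s ∉ O P' l
  land : ∀ P ∈ 𝒜, ∀ s ∈ P, (∃ x ∈ X, G.Adj x s) → ∃ l,
    s ∈ S.sh (Ex P l) ∨ S.ι s ∈ O P l ∨
      ∃ e, S.inc s e ∧ (S.inter e ∩ O P l).Nonempty ∧
        ∀ P' ∈ 𝒜, P' ≠ P → ∀ l', Disjoint (S.inter e) (O P' l')

/-- `Z` is (the vertex set of) a connected component of `G[W]` -/
structure IsComp {V : Type} (G : SimpleGraph V) (W Z : Set V) : Prop where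
  sub : Z ⊆ W
  conn : (G.induce Z).Connected
  closed : ∀ x ∈ Z, ∀ y ∈ W, G.Adj x y → y ∈ Z

/-- elimination structure of width 3 on `{0, …, n-1}` with back neighbourhoods `A t` -/
def Elim (n : ℕ) (A : ℕ → Finset ℕ) : Prop :=
  ∀ t < n, (∀ a ∈ A t, a < t) ∧ (A t).card ≤ 3 ∧ ∀ a ∈ A t, ∀ b ∈ A t, a < b → a ∈ A b

/-! ## Triangulated spheres as gluings of triangles -/

/-- A triangulated sphere: triangles `i : I` with corners `a i 0, a i 1, a i 2`; the side `(i, c)`
goes from `a i c` to `a i (c+1)` and is glued to the side `α (i, c)` with opposite orientation. -/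
structure TriSphere (I Q : Type) [Fintype I] [Fintype Q] where
  a : I → Fin 3 → Q
  α : I × Fin 3 → I × Fin 3
  inv : ∀ d, α (α d) = d
  fpf : ∀ d, α d ≠ d
  glue : ∀ d, a (α d).1 (α d).2 = a d.1 (d.2 + 1)
  orbit : ∀ d d' : I × Fin 3, a d.1 d.2 = a d'.1 d'.2 →
    ∃ n : ℕ, ((fun e : I × Fin 3 => α (e.1, e.2 - 1))^[n]) d = d'
  surj : ∀ q, ∃ d : I × Fin 3, a d.1 d.2 = q
  euler : 2 * Fintype.card Q = Fintype.card I + 4
  conn : ∀ A : Set I, A.Nonempty → (∀ d, d.1 ∈ A → (α d).1 ∈ A) → A = univ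

/-- the graph (1-skeleton) of a triangulated sphere -/
def TriSphere.graph {I Q : Type} [Fintype I] [Fintype Q] (S : TriSphere I Q) : SimpleGraph Q where
  Adj x y := x ≠ y ∧ ∃ d : I × Fin 3, S.a d.1 d.2 = x ∧ S.a d.1 (d.2 + 1) = y
  symm := by
    constructor
    rintro x y ⟨h, d, h1, h2⟩
    refine ⟨h.symm, S.α d, ?_, ?_⟩
    · rw [S.glue]; exact h2
    · have := S.glue (S.α d)
      rw [S.inv] at this
      rw [← this]; exact h1
  loopless := by
    constructor
    intro x h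
    exact h.1 rfl

end KPL
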