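import Mathlib
import Pool.Agent.Lib.KPL.Defs

/-!
# Module D2: a triangulated sphere has no `K_{3,3}` minor
-/

set_option autoImplicit false

namespace KPL

open Set

namespace D2

/-! ### linear algebra: few edges give many classes -/

theorem classes_card {I E : Type} [Fintype I] [Fintype E] (s t : E → I)
    [Fintype (Quot (fun x y : I => ∃ e, s e = x ∧ t e = y))] :
    Fintype.card I ≤ Fintype.card E
      + Fintype.card (Quot (fun x y : I => ∃ e, s e = x ∧ t e = y)) := by
  classical
  let L : (I → ℚ) →ₗ[ℚ] (E → ℚ) :=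
    { toFun := fun f e => f (s e) - f (t e)
      map_add' := by intro f g; ext e; simp; ring
      map_smul' := by intro c f; ext e; simp; ring }
  let M : (Quot (fun x y : I => ∃ e, s e = x ∧ t e = y) → ℚ) →ₗ[ℚ] (I → ℚ) :=
    LinearMap.funLeft ℚ ℚ (Quot.mk _)
  have hker : LinearMap.ker L ≤ LinearMap.range M := by
    intro f hf
    rw [LinearMap.mem_ker] at hf
    refine ⟨Quot.lift f ?_, ?_⟩
    · rintro x y ⟨e, rfl, rfl⟩
      have := congrFun hf e
      simp only [L, LinearMap.coe_mk, AddHom.coe_mk, Pi.zero_apply] at this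
      linarith
    · ext i
      rfl
  have h1 := LinearMap.finrank_range_add_finrank_ker L
  have h2 : Module.finrank ℚ (LinearMap.range L) ≤ Module.finrank ℚ (E → ℚ) :=
    Submodule.finrank_le _
  have h3 : Module.finrank ℚ (LinearMap.ker L) ≤ Module.finrank ℚ (LinearMap.range M) :=
    Submodule.finrank_mono hker
  have h4 : Module.finrank ℚ (LinearMap.range M) ≤
      Module.finrank ℚ (Quot (fun x y : I => ∃ e, s e = x ∧ t e = y) → ℚ) :=
    LinearMap.finrank_range_le M
  simp only [Module.finrank_fintype_fun_eq_card] at h1 h2 h4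
  omega

/-! ### matrices with even rows and columns -/

theorem mat_lemma : ∀ a b c d : ZMod 2,
    (a = 0 ∧ b = 0 ∧ c = 0 ∧ d = 0) ∨
    4 ≤ (if a = 0 then 0 else 1) + (if b = 0 then 0 else 1) + (if a + b = 0 then 0 else 1)
      + ((if c = 0 then 0 else 1) + (if d = 0 then 0 else 1) + (if c + d = 0 then 0 else 1))
      + ((if a + c = 0 then 0 else 1) + (if b + d = 0 then 0 else 1)
        + (if a + b + (c + d) = 0 then 0 else 1)) := by
  decide

theorem z2 (x : ZMod 2) : x + x = 0 := by
  revert x; decide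

theorem z2' {x y : ZMod 2} (h : x + y = 0) : x = y := by
  revert x y; decide

theorem even_matrix (M : Fin 3 → Fin 3 → ZMod 2) (hr : ∀ i, ∑ j, M i j = 0)
    (hc : ∀ j, ∑ i, M i j = 0) :
    (∀ i j, M i j = 0) ∨ 4 ≤ ∑ i, ∑ j, (if M i j = 0 then 0 else 1) := by
  have r0 := hr 0
  have r1 := hr 1
  have r2 := hr 2
  have c0 := hc 0
  have c1 := hc 1
  rw [Fin.sum_univ_three] at r0 r1 r2 c0 c1
  have e02 : M 0 2 = M 0 0 + M 0 1 := (z2' r0).symm
  have e12 : M 1 2 = M 1 0 + M 1 1 := (z2' r1).symm
  have e20 : M 2 0 = M 0 0 + M 1 0 := (z2' c0).symm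
  have e21 : M 2 1 = M 0 1 + M 1 1 := (z2' c1).symm
  have e22 : M 2 2 = M 0 0 + M 0 1 + (M 1 0 + M 1 1) := by
    have := (z2' r2).symm
    rw [this, e20, e21]; ring
  simp only [Fin.sum_univ_three]
  rw [e02, e12, e22, e20, e21]
  rcases mat_lemma (M 0 0) (M 0 1) (M 1 0) (M 1 1) with ⟨h1, h2, h3, h4⟩ | h
  · left
    intro i j
    fin_cases i <;> fin_cases j <;>
      simp only [Fin.zero_eta, Fin.mk_one, Fin.reduceFinMk, e02, e12, e20, e21, e22, h1, h2, h3, h4,
        add_zero]
  · right
    exact h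

/-! ### boundaries of sets of triangles -/

section tri

variable {I Q : Type} [Fintype I] [Fintype Q] (S : TriSphere I Q)

/-- start of a dart -/
def st (d : I × Fin 3) : Q := S.a d.1 d.2

/-- boundary of an indicator function -/
def bd (χ : I → ZMod 2) (d : I × Fin 3) : ZMod 2 := χ d.1 + χ (S.α d).1

theorem bd_alpha (χ : I → ZMod 2) (d : I × Fin 3) : bd S χ (S.α d) = bd S χ d := by
  simp only [bd, S.inv]
  exact add_comm _ _

/-- rotation at a vertex -/
def rot : Equiv.Perm (I × Fin 3) where
  toFun d := S.α (d.1, d.2 - 1)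
  invFun d := ((S.α d).1, (S.α d).2 + 1)
  left_inv d := by simp [S.inv]
  right_inv d := by simp [S.inv]

theorem st_rot (d : I × Fin 3) : st S (rot S d) = st S d := by
  have h := S.glue (d.1, d.2 - 1)
  simp only [sub_add_cancel] at h
  exact h

theorem vsum (χ : I → ZMod 2) (q : Q) [DecidablePred fun d => st S d = q] :
    ∑ d ∈ Finset.univ.filter (fun d => st S d = q), bd S χ d = 0 := by
  have h : ∑ d ∈ Finset.univ.filter (fun d => st S d = q), χ d.1
      = ∑ d ∈ Finset.univ.filter (fun d => st S d = q), χ (S.α d).1 := by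
    refine Finset.sum_equiv (rot S) ?_ ?_
    · intro d
      simp only [Finset.mem_filter, Finset.mem_univ, true_and, st_rot]
    · intro d _
      show χ d.1 = χ (S.α (S.α (d.1, d.2 - 1))).1
      rw [S.inv]
  simp only [bd, Finset.sum_add_distrib]
  rw [← h]
  exact z2 _

theorem wsum {B : Type} [DecidableEq B] (β : Q → B) (χ : I → ZMod 2) (b : B) :
    ∑ d ∈ Finset.univ.filter (fun d => β (st S d) = b ∧ β (st S (S.α d)) ≠ b), bd S χ d = 0 := by
  classical
  have htot : ∑ d ∈ Finset.univ.filter (fun d => β (st S d) = b), bd S χ d = 0 := by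
    rw [← Finset.sum_fiberwise_of_maps_to (s := Finset.univ.filter (fun d => β (st S d) = b))
      (t := Finset.univ.filter (fun q => β q = b)) (g := fun d => st S d)]
    · apply Finset.sum_eq_zero
      intro q hq
      have hf : (Finset.univ.filter (fun d => β (st S d) = b)).filter (fun d => st S d = q)
          = Finset.univ.filter (fun d => st S d = q) := by
        ext d
        simp only [Finset.mem_filter, Finset.mem_univ, true_and] at hq ⊢
        constructor
        · exact fun h => h.2
        · exact fun h => ⟨by rw [h]; exact hq, h⟩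
      rw [hf]
      exact vsum S χ q
    · intro d hd
      simpa using hd
  have hin : ∑ d ∈ Finset.univ.filter (fun d => β (st S d) = b ∧ β (st S (S.α d)) = b),
      bd S χ d = 0 := by
    refine Finset.sum_involution (fun d _ => S.α d) ?_ ?_ ?_ ?_
    · intro d _
      rw [bd_alpha]
      exact z2 _
    · intro d _ _
      exact S.fpf d
    · intro d hd
      simp only [Finset.mem_filter, Finset.mem_univ, true_and, S.inv] at hd ⊢
      exact ⟨hd.2, hd.1⟩
    · intro d _
      exact S.inv d
  have hsplit := Finset.sum_filter_add_sum_filter_not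
    (Finset.univ.filter (fun d => β (st S d) = b)) (fun d => β (st S (S.α d)) = b) (bd S χ)
  rw [Finset.filter_filter, Finset.filter_filter, hin, htot, zero_add] at hsplit
  exact hsplit

theorem bd_const {χ : I → ZMod 2} (h : ∀ d, bd S χ d = 0) (i j : I) : χ i = χ j := by
  have hA := S.conn {x | χ x = χ i} ⟨i, rfl⟩ (by
    intro d hd
    have h1 : χ d.1 = χ (S.α d).1 := z2' (h d)
    show χ (S.α d).1 = χ i
    rw [← h1]
    exact hd)
  have : j ∈ {x | χ x = χ i} := by rw [hA]; trivial
  exact this.symm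

/-- the combinatorial data of a (spanning) `K_{3,3}` minor -/
structure Mdl where
  β : Q → Fin 3 ⊕ Fin 3
  r : Fin 3 ⊕ Fin 3 → Q
  rk : Q → ℕ
  e : Q → I × Fin 3
  k : Fin 3 → Fin 3 → I × Fin 3
  hβr : ∀ b, β (r b) = b
  e_st : ∀ z, (∀ b, z ≠ r b) → st S (e z) = z
  e_rk : ∀ z, (∀ b, z ≠ r b) → rk (st S (S.α (e z))) < rk z
  e_β : ∀ z, (∀ b, z ≠ r b) → β (st S (S.α (e z))) = β z
  k1 : ∀ i j, β (st S (k i j)) = Sum.inl i
  k2 : ∀ i j, β (st S (S.α (k i j))) = Sum.inr j

variable {S} (M : Mdl S)

/-- darts of the forest or of the nine connecting edges -/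
def InCK (d : I × Fin 3) : Prop :=
  (∃ z, (∀ b, z ≠ M.r b) ∧ (d = M.e z ∨ d = S.α (M.e z))) ∨
    (∃ i j, d = M.k i j ∨ d = S.α (M.k i j))

theorem inCK_alpha {d : I × Fin 3} (h : InCK M (S.α d)) : InCK M d := by
  rcases h with ⟨z, hz, h | h⟩ | ⟨i, j, h | h⟩
  · exact Or.inl ⟨z, hz, Or.inr (by rw [← h, S.inv])⟩
  · refine Or.inl ⟨z, hz, Or.inl ?_⟩
    have := congrArg S.α h
    rwa [S.inv, S.inv] at this
  · exact Or.inr ⟨i, j, Or.inr (by rw [← h, S.inv])⟩
  · refine Or.inr ⟨i, j, Or.inl ?_⟩
    have := congrArg S.α h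
    rwa [S.inv, S.inv] at this

theorem rowsum {χ : I → ZMod 2} (h : ∀ d, ¬ InCK M d → bd S χ d = 0) (i : Fin 3) :
    ∑ j, bd S χ (M.k i j) = 0 := by
  classical
  have hw := wsum S M.β χ (Sum.inl i)
  have hinj : Set.InjOn (fun j => M.k i j) (Finset.univ : Finset (Fin 3)) := by
    intro j _ j' _ hj
    have h1 := M.k2 i j
    simp only at hj
    rw [hj, M.k2 i j'] at h1
    exact (Sum.inr.inj h1).symm
  rw [← Finset.sum_image (f := bd S χ) hinj, ← hw]
  refine Finset.sum_subset ?_ ?_
  · intro d hd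
    obtain ⟨j, _, rfl⟩ := Finset.mem_image.mp hd
    simp only [Finset.mem_filter, Finset.mem_univ, true_and, M.k1, M.k2]
    simp
  · intro d hd hd'
    simp only [Finset.mem_filter, Finset.mem_univ, true_and] at hd
    apply h
    rintro (⟨z, hz, rfl | rfl⟩ | ⟨i', j', rfl | rfl⟩)
    · apply hd.2
      rw [M.e_β z hz, ← hd.1, M.e_st z hz]
    · apply hd.2
      rw [S.inv, M.e_st z hz, ← hd.1, M.e_β z hz]
    · rw [M.k1] at hd
      apply hd'
      rw [Finset.mem_image]
      refine ⟨j', Finset.mem_univ _, ?_⟩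
      rw [Sum.inl.inj hd.1]
    · rw [M.k2] at hd
      exact absurd hd.1 (by simp)

theorem colsum {χ : I → ZMod 2} (h : ∀ d, ¬ InCK M d → bd S χ d = 0) (j : Fin 3) :
    ∑ i, bd S χ (M.k i j) = 0 := by
  classical
  have hw := wsum S M.β χ (Sum.inr j)
  have hinj : Set.InjOn (fun i => S.α (M.k i j)) (Finset.univ : Finset (Fin 3)) := by
    intro i _ i' _ hj
    have h1 := M.k1 i j
    simp only at hj
    have h2 := congrArg S.α hj
    rw [S.inv, S.inv] at h2
    rw [h2, M.k1 i' j] at h1
    exact (Sum.inl.inj h1).symm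
  have hal : ∑ i, bd S χ (M.k i j) = ∑ i, bd S χ (S.α (M.k i j)) :=
    Finset.sum_congr rfl fun i _ => (bd_alpha S χ _).symm
  rw [hal, ← Finset.sum_image (f := bd S χ) hinj, ← hw]
  refine Finset.sum_subset ?_ ?_
  · intro d hd
    obtain ⟨i, _, rfl⟩ := Finset.mem_image.mp hd
    simp only [Finset.mem_filter, Finset.mem_univ, true_and, M.k1, M.k2, S.inv]
    simp
  · intro d hd hd'
    simp only [Finset.mem_filter, Finset.mem_univ, true_and] at hd
    apply h
    rintro (⟨z, hz, rfl | rfl⟩ | ⟨i', j', rfl | rfl⟩)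
    · apply hd.2
      rw [M.e_β z hz, ← hd.1, M.e_st z hz]
    · apply hd.2
      rw [S.inv, M.e_st z hz, ← hd.1, M.e_β z hz]
    · rw [M.k1] at hd
      exact absurd hd.1 (by simp)
    · rw [M.k2] at hd
      apply hd'
      rw [Finset.mem_image]
      refine ⟨i', Finset.mem_univ _, ?_⟩
      rw [Sum.inr.inj hd.1]

theorem allzero {χ : I → ZMod 2} (h : ∀ d, ¬ InCK M d → bd S χ d = 0)
    (hM : ∀ i j, bd S χ (M.k i j) = 0) (d : I × Fin 3) : bd S χ d = 0 := by
  classical
  by_contra hd
  have key : ∀ d, bd S χ d ≠ 0 → ∃ z, (∀ b, z ≠ M.r b) ∧ (d = M.e z ∨ d = S.α (M.e z)) := by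
    intro d hd
    by_cases hC : InCK M d
    · rcases hC with hC | ⟨i, j, rfl | rfl⟩
      · exact hC
      · exact absurd (hM i j) hd
      · rw [bd_alpha] at hd
        exact absurd (hM i j) hd
    · exact absurd (h d hC) hd
  let F : Finset Q := Finset.univ.filter (fun z => (∀ b, z ≠ M.r b) ∧ bd S χ (M.e z) ≠ 0)
  have hF : F.Nonempty := by
    obtain ⟨z, hz, h1 | h1⟩ := key d hd
    · exact ⟨z, by simp only [F, Finset.mem_filter, Finset.mem_univ, true_and]; rw [← h1]; exact ⟨hz, hd⟩⟩
    · refine ⟨z, ?_⟩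
      simp only [F, Finset.mem_filter, Finset.mem_univ, true_and]
      rw [h1, bd_alpha] at hd
      exact ⟨hz, hd⟩
  obtain ⟨z, hzF, hmax⟩ := Finset.exists_max_image F M.rk hF
  simp only [F, Finset.mem_filter, Finset.mem_univ, true_and] at hzF hmax
  have hv := vsum S χ z
  rw [Finset.sum_eq_single (M.e z)] at hv
  · exact hzF.2 hv
  · intro d' hd' hne
    simp only [Finset.mem_filter, Finset.mem_univ, true_and] at hd'
    by_contra hbd
    obtain ⟨z', hz', h1 | h1⟩ := key d' hbd
    · apply hne
      have h2 := M.e_st z' hz'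
      rw [← h1, hd'] at h2
      rw [h1, ← h2]
    · have h2 := M.e_rk z' hz'
      rw [← h1, hd'] at h2
      have h3 := hmax z' ⟨hz', by rw [h1, bd_alpha] at hbd; exact hbd⟩
      omega
  · intro hn
    exfalso
    apply hn
    simp only [Finset.mem_filter, Finset.mem_univ, true_and]
    exact M.e_st z hzF.1

/-! ### counting -/

theorem roots_card (M : Mdl S) [DecidableEq Q] :
    (Finset.univ.filter (fun z => ∀ b, z ≠ M.r b)).card + 6 = Fintype.card Q := by
  have hinj : Function.Injective M.r := fun b b' h => by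
    have := congrArg M.β h
    rwa [M.hβr, M.hβr] at this
  have h1 : (Finset.univ.image M.r).card = 6 := by
    rw [Finset.card_image_of_injective _ hinj]
    rfl
  have h2 : Finset.univ.filter (fun z => ∀ b, z ≠ M.r b) = (Finset.univ.image M.r)ᶜ := by
    ext z
    simp only [Finset.mem_filter, Finset.mem_univ, true_and, Finset.mem_compl, Finset.mem_image,
      not_exists]
    exact ⟨fun h b hb => h b hb.symm, fun h b hb => h b hb.symm⟩
  rw [h2, Finset.card_compl, h1]
  have h3 : (Finset.univ.image M.r).card ≤ Fintype.card Q := Finset.card_le_univ _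
  omega

/-- the orientation of an edge given by a numbering -/
noncomputable def ori (S : TriSphere I Q) (o : I × Fin 3 → ℕ) (d : I × Fin 3) : I × Fin 3 :=
  open Classical in if o d < o (S.α d) then d else S.α d

theorem ori_cases (o : I × Fin 3 → ℕ) (d : I × Fin 3) : ori S o d = d ∨ ori S o d = S.α d := by
  unfold ori
  split_ifs
  · exact Or.inl rfl
  · exact Or.inr rfl

theorem ori_lt {o : I × Fin 3 → ℕ} (ho : Function.Injective o) (d : I × Fin 3) :
    o (ori S o d) < o (S.α (ori S o d)) := by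
  unfold ori
  split_ifs with h
  · exact h
  · rw [S.inv]
    rcases lt_trichotomy (o d) (o (S.α d)) with h1 | h1 | h1
    · exact absurd h1 h
    · exact absurd (ho h1).symm (S.fpf d)
    · exact h1

theorem ori_eq {o : I × Fin 3 → ℕ} {d d' : I × Fin 3} (h : ori S o d = ori S o d') :
    d = d' ∨ d = S.α d' := by
  rcases ori_cases (S := S) o d with h1 | h1 <;> rcases ori_cases (S := S) o d' with h2 | h2
  · exact Or.inl (by rw [← h1, ← h2, h])
  · exact Or.inr (by rw [← h1, ← h2, h])
  · refine Or.inr ?_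
    rw [← S.inv d, ← h1, h, h2]
  · refine Or.inl ?_
    rw [← S.inv d, ← h1, h, h2, S.inv]

/-- the used edges -/
noncomputable def gg (M : Mdl S) (o : I × Fin 3 → ℕ) :
    {z : Q // ∀ b, z ≠ M.r b} ⊕ (Fin 3 × Fin 3) → I × Fin 3
  | Sum.inl z => ori S o (M.e z)
  | Sum.inr ij => ori S o (M.k ij.1 ij.2)

theorem e_ne_alpha (M : Mdl S) {z z' : Q} (hz : ∀ b, z ≠ M.r b) (hz' : ∀ b, z' ≠ M.r b)
    (h : M.e z = S.α (M.e z')) : False := by
  have h1 := M.e_st z hz
  have h2 := M.e_rk z' hz'
  rw [← h, h1] at h2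
  have h3 := M.e_st z' hz'
  have h4 := M.e_rk z hz
  have h5 := congrArg S.α h
  rw [S.inv] at h5
  rw [h5, h3] at h4
  omega

theorem e_ne_k (M : Mdl S) {z : Q} (hz : ∀ b, z ≠ M.r b) (i j : Fin 3) :
    M.e z ≠ M.k i j ∧ M.e z ≠ S.α (M.k i j) := by
  have h1 := M.e_β z hz
  have h2 := congrArg M.β (M.e_st z hz)
  constructor
  · intro h
    rw [h, M.k2] at h1
    rw [h, M.k1, ← h1] at h2
    cases h2
  · intro h
    rw [h, S.inv, M.k1] at h1
    rw [h, M.k2, ← h1] at h2
    cases h2

theorem gg_inj (M : Mdl S) (o : I × Fin 3 → ℕ) : Function.Injective (gg M o) := by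
  rintro (⟨z, hz⟩ | ⟨i, j⟩) (⟨z', hz'⟩ | ⟨i', j'⟩) h
  · rcases ori_eq (S := S) (o := o) h with h1 | h1
    · have h2 := M.e_st z hz
      simp only at h1
      rw [h1, M.e_st z' hz'] at h2
      subst h2
      rfl
    · exact (e_ne_alpha M hz hz' h1).elim
  · rcases ori_eq (S := S) (o := o) h with h1 | h1
    · exact absurd h1 (e_ne_k M hz _ _).1
    · exact absurd h1 (e_ne_k M hz _ _).2
  · rcases ori_eq (S := S) (o := o) h.symm with h1 | h1
    · exact absurd h1 (e_ne_k M hz' _ _).1
    · exact absurd h1 (e_ne_k M hz' _ _).2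
  · rcases ori_eq (S := S) (o := o) h with h1 | h1
    · simp only at h1
      have h2 := M.k1 i j
      have h3 := M.k2 i j
      rw [h1, M.k1] at h2
      rw [h1, M.k2] at h3
      rw [Sum.inl.inj h2, Sum.inr.inj h3]
    · simp only at h1
      have h2 := M.k1 i j
      rw [h1, M.k2] at h2
      cases h2

theorem half_card (S : TriSphere I Q) [DecidableEq I] {o : I × Fin 3 → ℕ}
    (ho : Function.Injective o) :
    2 * (Finset.univ.filter (fun d => o d < o (S.α d))).card = 3 * Fintype.card I := by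
  have h1 := Finset.card_filter_add_card_filter_not (s := (Finset.univ : Finset (I × Fin 3)))
    (fun d => o d < o (S.α d))
  have h2 : (Finset.univ.filter (fun d => o d < o (S.α d))).card
      = (Finset.univ.filter (fun d => ¬ o d < o (S.α d))).card := by
    refine Finset.card_bij' (fun d _ => S.α d) (fun d _ => S.α d) ?_ ?_ ?_ ?_
    · intro d hd
      simp only [Finset.mem_filter, Finset.mem_univ, true_and, S.inv] at hd ⊢
      omega
    · intro d hd
      simp only [Finset.mem_filter, Finset.mem_univ, true_and, S.inv] at hd ⊢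
      have h3 : o (S.α d) ≠ o d := fun h => S.fpf d (ho h)
      omega
    · intro d _
      exact S.inv d
    · intro d _
      exact S.inv d
  have h3 : (Finset.univ : Finset (I × Fin 3)).card = Fintype.card I * 3 := by
    rw [Finset.card_univ, Fintype.card_prod, Fintype.card_fin]
  omega

theorem no_mdl (M : Mdl S) : False := by
  classical
  -- a numbering of the darts
  let o : I × Fin 3 → ℕ := fun d => (Fintype.equivFin (I × Fin 3) d : ℕ)
  have ho : Function.Injective o := fun a b h =>
    (Fintype.equivFin (I × Fin 3)).injective (Fin.ext h)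
  -- the remaining edges
  let E := {d : I × Fin 3 // o d < o (S.α d) ∧ d ∉ Finset.univ.image (gg M o)}
  have hE : Fintype.card E + 5 = Fintype.card I := by
    have h1 := half_card S ho
    have h2 := roots_card M
    have h3 := S.euler
    have h4 : (Finset.univ.image (gg M o)).card
        = (Finset.univ.filter (fun z => ∀ b, z ≠ M.r b)).card + 9 := by
      rw [Finset.card_image_of_injective _ (gg_inj M o), Finset.card_univ, Fintype.card_sum,
        Fintype.card_subtype]
      rfl
    have h5 : Fintype.card E = (Finset.univ.filter (fun d => o d < o (S.α d))).card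
        - (Finset.univ.image (gg M o)).card := by
      rw [Fintype.card_subtype, ← Finset.card_sdiff_of_subset]
      · refine congrArg Finset.card (Finset.ext fun d => ?_)
        simp only [Finset.mem_filter, Finset.mem_univ, true_and, Finset.mem_sdiff]
      · intro d hd
        obtain ⟨x, _, rfl⟩ := Finset.mem_image.mp hd
        simp only [Finset.mem_filter, Finset.mem_univ, true_and]
        rcases x with z | ij
        · exact ori_lt ho _
        · exact ori_lt ho _
    have h6 : (Finset.univ.image (gg M o)).card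
        ≤ (Finset.univ.filter (fun d => o d < o (S.α d))).card := by
      apply Finset.card_le_card
      intro d hd
      obtain ⟨x, _, rfl⟩ := Finset.mem_image.mp hd
      simp only [Finset.mem_filter, Finset.mem_univ, true_and]
      rcases x with z | ij
      · exact ori_lt ho _
      · exact ori_lt ho _
    omega
  let s : E → I := fun d => d.1.1
  let t : E → I := fun d => (S.α d.1).1
  let C := Quot (fun x y : I => ∃ e, s e = x ∧ t e = y)
  let instC : Fintype C := Fintype.ofSurjective (Quot.mk _) Quot.mk_surjective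
  have hC : 5 ≤ Fintype.card C := by
    have h1 : Fintype.card I ≤ Fintype.card E + Fintype.card C := classes_card s t
    omega
  let cl : I → C := Quot.mk _
  -- indicator functions of the classes
  let χ : C → I → ZMod 2 := fun V i => if cl i = V then 1 else 0
  have hχ : ∀ V d, ¬ InCK M d → bd S (χ V) d = 0 := by
    have h0 : ∀ V d, ¬ InCK M d → o d < o (S.α d) → bd S (χ V) d = 0 := by
      intro V d hd hod
      have hmem : d ∉ Finset.univ.image (gg M o) := by
        intro hm
        obtain ⟨x, _, hx⟩ := Finset.mem_image.mp hm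
        apply hd
        rcases x with z | ij
        · rcases ori_cases (S := S) o (M.e z) with h1 | h1
          · exact Or.inl ⟨z.1, z.2, Or.inl (by rw [← h1, ← hx]; rfl)⟩
          · exact Or.inl ⟨z.1, z.2, Or.inr (by rw [← h1, ← hx]; rfl)⟩
        · rcases ori_cases (S := S) o (M.k ij.1 ij.2) with h1 | h1
          · exact Or.inr ⟨ij.1, ij.2, Or.inl (by rw [← h1, ← hx]; rfl)⟩
          · exact Or.inr ⟨ij.1, ij.2, Or.inr (by rw [← h1, ← hx]; rfl)⟩
      have hcl : cl d.1 = cl (S.α d).1 :=
        Quot.sound ⟨⟨d, hod, hmem⟩, rfl, rfl⟩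
      simp only [bd, χ, hcl]
      exact z2 _
    intro V d hd
    rcases lt_trichotomy (o d) (o (S.α d)) with h1 | h1 | h1
    · exact h0 V d hd h1
    · exact absurd (ho h1).symm (S.fpf d)
    · rw [← bd_alpha]
      exact h0 V (S.α d) (fun h => hd (inCK_alpha M h)) (by rw [S.inv]; exact h1)
  -- every class uses at least four of the nine edges
  have h4 : ∀ V : C, 4 ≤ ∑ i, ∑ j, (if bd S (χ V) (M.k i j) = 0 then 0 else 1) := by
    intro V
    rcases even_matrix (fun i j => bd S (χ V) (M.k i j)) (rowsum M (hχ V)) (colsum M (hχ V))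
      with h | h
    · exfalso
      have hall := allzero M (hχ V) h
      obtain ⟨i, rfl⟩ := Quot.mk_surjective V
      have hone : ∀ W : C, W = cl i := by
        intro W
        obtain ⟨j, rfl⟩ := Quot.mk_surjective W
        have h1 := bd_const S hall i j
        by_contra hne
        have h2 : χ (cl i) i = 1 := if_pos rfl
        have h3 : χ (cl i) j = 0 := if_neg hne
        rw [show (Quot.mk _ i : C) = cl i from rfl, h2, h3] at h1
        exact one_ne_zero h1
      have h5 : Fintype.card C ≤ 1 := by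
        rw [Fintype.card_le_one_iff]
        intro a b
        rw [hone a, hone b]
      omega
    · exact h
  -- every edge is used by at most two classes
  have h2 : ∀ i j, ∑ V : C, (if bd S (χ V) (M.k i j) = 0 then 0 else 1) ≤ 2 := by
    intro i j
    have h1 : ∀ V : C, (if bd S (χ V) (M.k i j) = 0 then 0 else 1)
        ≤ (if cl (M.k i j).1 = V then 1 else 0) + (if cl (S.α (M.k i j)).1 = V then 1 else 0) := by
      intro V
      simp only [bd, χ]
      by_cases ha : cl (M.k i j).1 = V
      · simp only [ha, if_true]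
        split_ifs <;> omega
      · by_cases hb : cl (S.α (M.k i j)).1 = V
        · simp only [hb, if_true]
          split_ifs <;> omega
        · simp [ha, hb]
    calc ∑ V : C, (if bd S (χ V) (M.k i j) = 0 then 0 else 1)
        ≤ ∑ V : C, ((if cl (M.k i j).1 = V then 1 else 0)
          + (if cl (S.α (M.k i j)).1 = V then 1 else 0)) := Finset.sum_le_sum fun V _ => h1 V
      _ = 2 := by
        rw [Finset.sum_add_distrib, Finset.sum_ite_eq, Finset.sum_ite_eq]
        simp
  have hsum : ∑ V : C, ∑ i, ∑ j, (if bd S (χ V) (M.k i j) = 0 then 0 else 1) ≤ 18 := by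
    rw [Finset.sum_comm]
    calc ∑ i, ∑ V : C, ∑ j, (if bd S (χ V) (M.k i j) = 0 then 0 else 1)
        = ∑ i : Fin 3, ∑ j : Fin 3, ∑ V : C, (if bd S (χ V) (M.k i j) = 0 then 0 else 1) :=
          Finset.sum_congr rfl fun i _ => Finset.sum_comm
      _ ≤ ∑ i : Fin 3, ∑ j : Fin 3, 2 :=
          Finset.sum_le_sum fun i _ => Finset.sum_le_sum fun j _ => h2 i j
      _ = 18 := by simp
  have hsum' : 4 * Fintype.card C
      ≤ ∑ V : C, ∑ i, ∑ j, (if bd S (χ V) (M.k i j) = 0 then 0 else 1) := by
    calc 4 * Fintype.card C = ∑ _V : C, 4 := by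
          rw [Finset.sum_const, Finset.card_univ, smul_eq_mul, mul_comm]
      _ ≤ _ := Finset.sum_le_sum fun V _ => h4 V
  omega

/-- the 1-skeleton is connected -/
theorem preconn (S : TriSphere I Q) : S.graph.Preconnected := by
  intro x y
  have hside : ∀ (i : I) (c : Fin 3), S.graph.Reachable (S.a i c) (S.a i (c + 1)) := by
    intro i c
    by_cases h : S.a i c = S.a i (c + 1)
    · rw [h]
    · exact SimpleGraph.Adj.reachable ⟨h, (i, c), rfl, rfl⟩
  have htri : ∀ (i : I) (c c' : Fin 3), S.graph.Reachable (S.a i c) (S.a i c') := by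
    intro i c c'
    have h0 := hside i 0
    have h1 := hside i 1
    have h2 := hside i 2
    have e0 : (0 : Fin 3) + 1 = 1 := rfl
    have e1 : (1 : Fin 3) + 1 = 2 := rfl
    have e2 : (2 : Fin 3) + 1 = 0 := rfl
    rw [e0] at h0
    rw [e1] at h1
    rw [e2] at h2
    fin_cases c <;> fin_cases c'
    · exact SimpleGraph.Reachable.refl _
    · exact h0
    · exact h2.symm
    · exact h0.symm
    · exact SimpleGraph.Reachable.refl _
    · exact h1
    · exact h2
    · exact h1.symm
    · exact SimpleGraph.Reachable.refl _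
  obtain ⟨dx, hdx⟩ := S.surj x
  obtain ⟨dy, hdy⟩ := S.surj y
  have hA := S.conn {i | ∃ c, S.graph.Reachable x (S.a i c)}
    ⟨dx.1, dx.2, by rw [hdx]⟩ (by
      rintro d ⟨c, hc⟩
      refine ⟨(S.α d).2, ?_⟩
      rw [S.glue d]
      exact hc.trans (htri d.1 c (d.2 + 1)))
  have hy : dy.1 ∈ {i | ∃ c, S.graph.Reachable x (S.a i c)} := by rw [hA]; trivial
  obtain ⟨c, hc⟩ := hy
  rw [← hdy]
  exact hc.trans (htri dy.1 c dy.2)

end tri

/-! ### forests from reachability -/

/-- points that reach `Z` in exactly `n` steps -/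
def lev {α : Type} (R : α → α → Prop) (Z : Set α) : ℕ → α → Prop
  | 0, z => z ∈ Z
  | n + 1, z => ∃ w, R z w ∧ lev R Z n w

theorem exists_parent {α : Type} (R : α → α → Prop) (Z : Set α)
    (h : ∀ z, ∃ w ∈ Z, Relation.ReflTransGen R z w) :
    ∃ (rk : α → ℕ) (p : α → α), ∀ z, z ∉ Z → R z (p z) ∧ rk (p z) < rk z := by
  classical
  have hL : ∀ z, ∃ n, lev R Z n z := by
    intro z
    obtain ⟨w, hw, hzw⟩ := h z
    induction hzw using Relation.ReflTransGen.head_induction_on with
    | refl => exact ⟨0, hw⟩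
    | head h1 _ ih =>
      obtain ⟨n, hn⟩ := ih
      exact ⟨n + 1, _, h1, hn⟩
  let rk : α → ℕ := fun z => Nat.find (hL z)
  have key : ∀ z, ∃ w, z ∉ Z → R z w ∧ rk w < rk z := by
    intro z
    by_cases hz : z ∈ Z
    · exact ⟨z, fun h => absurd hz h⟩
    · have h1 : lev R Z (rk z) z := Nat.find_spec (hL z)
      rcases hrk : rk z with _ | n
      · rw [hrk] at h1
        exact absurd h1 hz
      · rw [hrk] at h1
        obtain ⟨w, hw, hn⟩ := h1
        exact ⟨w, fun _ => ⟨hw, lt_of_le_of_lt (Nat.find_min' (hL w) hn) (Nat.lt_succ_self n)⟩⟩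
  choose p hp using key
  exact ⟨rk, p, hp⟩

theorem exists_label {α B : Type} (rk : α → ℕ) (p : α → α) (r : B → α)
    (hr : Function.Injective r) (h : ∀ z, (∀ b, z ≠ r b) → rk (p z) < rk z) :
    ∃ β : α → B, (∀ b, β (r b) = b) ∧ ∀ z, (∀ b, z ≠ r b) → β (p z) = β z := by
  classical
  let F : (z : α) → ((w : α) → rk w < rk z → B) → B := fun z rec =>
    if hz : ∃ b, z = r b then hz.choose
    else rec (p z) (h z (fun b hb => hz ⟨b, hb⟩))
  have hwf : WellFounded (fun a b : α => rk a < rk b) := (measure rk).wf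
  refine ⟨hwf.fix F, ?_, ?_⟩
  · intro b
    rw [hwf.fix_eq]
    have hex : ∃ b', r b = r b' := ⟨b, rfl⟩
    simp only [F, dif_pos hex]
    exact hr hex.choose_spec.symm
  · intro z hz
    have hex : ¬ ∃ b, z = r b := by
      rintro ⟨b, hb⟩
      exact hz b hb
    rw [hwf.fix_eq F z]
    simp only [F, dif_neg hex]

end D2

open D2 in
theorem TriSphere.noK33 {I Q : Type} [Fintype I] [Fintype Q] (S : TriSphere I Q) :
    NoK33 S.graph := by
  classical
  rintro ⟨A, B, hA, hB, hAA, hBB, hAB, hadj⟩
  let U : Fin 3 ⊕ Fin 3 → Set Q := Sum.elim A B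
  have hUc : ∀ b, (S.graph.induce (U b)).Connected := by
    rintro (i | j)
    · exact hA i
    · exact hB j
  have hUd : ∀ b b', b ≠ b' → Disjoint (U b) (U b') := by
    rintro (i | i) (j | j) hij
    · exact hAA i j (fun h => hij (by rw [h]))
    · exact hAB i j
    · exact (hAB j i).symm
    · exact hBB i j (fun h => hij (by rw [h]))
  have hUu : ∀ b b' z, z ∈ U b → z ∈ U b' → b = b' := by
    intro b b' z h1 h2
    by_contra hne
    exact Set.disjoint_left.mp (hUd b b' hne) h1 h2
  have hne : ∀ b, ∃ z, z ∈ U b := by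
    intro b
    obtain ⟨z⟩ := (hUc b).nonempty
    exact ⟨z.1, z.2⟩
  choose r hrU using hne
  have hrinj : Function.Injective r := fun b b' h => hUu b b' (r b) (hrU b) (by rw [h]; exact hrU b')
  let R : Q → Q → Prop := fun z w => S.graph.Adj z w ∧ ∀ b, z ∈ U b → w ∈ U b
  have hin : ∀ b z, z ∈ U b → Relation.ReflTransGen R z (r b) := by
    intro b z hz
    have h1 : (S.graph.induce (U b)).Reachable ⟨z, hz⟩ ⟨r b, hrU b⟩ :=
      (hUc b).preconnected _ _
    rw [SimpleGraph.reachable_iff_reflTransGen] at h1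
    refine Relation.ReflTransGen.lift (p := R) (fun x : U b => (x : Q)) ?_ _ _ h1
    intro x y hxy
    refine ⟨hxy, fun b' hb' => ?_⟩
    rw [hUu b' b x.1 hb' x.2]
    exact y.2
  have hall : ∀ z, ∃ w ∈ Set.range r, Relation.ReflTransGen R z w := by
    intro z
    have h1 := D2.preconn S z (r (Sum.inl 0))
    rw [SimpleGraph.reachable_iff_reflTransGen] at h1
    induction h1 using Relation.ReflTransGen.head_induction_on with
    | refl => exact ⟨_, ⟨_, rfl⟩, Relation.ReflTransGen.refl⟩
    | @head x y hxy _ ih =>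
      by_cases hx : ∃ b, x ∈ U b
      · obtain ⟨b, hb⟩ := hx
        exact ⟨r b, ⟨b, rfl⟩, hin b x hb⟩
      · obtain ⟨w, hw, hyw⟩ := ih
        exact ⟨w, hw, Relation.ReflTransGen.head ⟨hxy, fun b hb => absurd ⟨b, hb⟩ hx⟩ hyw⟩
  obtain ⟨rk, p, hp⟩ := D2.exists_parent R (Set.range r) hall
  have hnr : ∀ z, (∀ b, z ≠ r b) → z ∉ Set.range r := by
    rintro z hz ⟨b, hb⟩
    exact hz b hb.symm
  obtain ⟨β, hβr, hβp⟩ := D2.exists_label rk p r hrinj (fun z hz => (hp z (hnr z hz)).2)
  have hβU : ∀ n z b, rk z = n → z ∈ U b → β z = b := by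
    intro n
    induction n using Nat.strong_induction_on with
    | _ n ih =>
      intro z b hn hz
      by_cases hzr : ∀ b', z ≠ r b'
      · have h1 := hp z (hnr z hzr)
        rw [← hβp z hzr]
        exact ih (rk (p z)) (by rw [← hn]; exact h1.2) (p z) b rfl (h1.1.2 b hz)
      · push Not at hzr
        obtain ⟨b', hb'⟩ := hzr
        rw [hb', hβr]
        exact hUu b' b (r b') (hrU b') (by rw [← hb']; exact hz)
  have hedge : ∀ z, ∃ d : I × Fin 3, (∀ b, z ≠ r b) →
      S.a d.1 d.2 = z ∧ S.a d.1 (d.2 + 1) = p z := by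
    intro z
    by_cases hzr : ∀ b', z ≠ r b'
    · obtain ⟨⟨_, d, h1, h2⟩, _⟩ := (hp z (hnr z hzr)).1
      exact ⟨d, fun _ => ⟨h1, h2⟩⟩
    · obtain ⟨d, _⟩ := S.surj z
      exact ⟨d, fun h => absurd h hzr⟩
  choose e he using hedge
  have hk : ∀ i j, ∃ d : I × Fin 3, S.a d.1 d.2 ∈ A i ∧ S.a d.1 (d.2 + 1) ∈ B j := by
    intro i j
    obtain ⟨x, hx, y, hy, _, d, h1, h2⟩ := hadj i j
    exact ⟨d, by rw [h1]; exact hx, by rw [h2]; exact hy⟩
  choose k hk1 hk2 using hk
  exact D2.no_mdl (S := S)
    { β := β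
      r := r
      rk := rk
      e := e
      k := k
      hβr := hβr
      e_st := fun z hz => (he z hz).1
      e_rk := fun z hz => by
        show rk (S.a (S.α (e z)).1 (S.α (e z)).2) < rk z
        rw [S.glue, (he z hz).2]
        exact (hp z (hnr z hz)).2
      e_β := fun z hz => by
        show β (S.a (S.α (e z)).1 (S.α (e z)).2) = β z
        rw [S.glue, (he z hz).2]
        exact hβp z hz
      k1 := fun i j => hβU _ _ (Sum.inl i) rfl (hk1 i j)
      k2 := fun i j => by
        show β (S.a (S.α (k i j)).1 (S.α (k i j)).2) = Sum.inr j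
        rw [S.glue]
        exact hβU _ _ (Sum.inr j) rfl (hk2 i j) }

end KPL
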