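import Pool.Agent.Lib.KPL.Defs

/-! D3: stellar subdivision of a plane map is a triangulated sphere -/

set_option autoImplicit false

namespace KPL

open Set

namespace Stellar

variable {P : Type} {M : SimpleGraph P}

/-- corners of the stellar triangle of the dart `d` -/
def crn {m : ℕ} (face : M.Dart → Fin m) (d : M.Dart) (c : Fin 3) : P ⊕ Fin m :=
  if c = 0 then Sum.inl d.fst else if c = 1 then Sum.inl d.snd else Sum.inr (face d)

/-- the face permutation -/
def phi (ρ : Equiv.Perm M.Dart) : Equiv.Perm M.Dart where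
  toFun d := ρ d.symm
  invFun d := (ρ.symm d).symm
  left_inv d := by simp
  right_inv d := by simp

/-- gluing of the sides -/
def glu (ρ : Equiv.Perm M.Dart) (x : M.Dart × Fin 3) : M.Dart × Fin 3 :=
  if x.2 = 0 then (x.1.symm, 0) else if x.2 = 1 then (phi ρ x.1, 2) else ((phi ρ).symm x.1, 1)

@[simp] lemma crn_zero {m : ℕ} (face : M.Dart → Fin m) (d : M.Dart) :
    crn face d 0 = Sum.inl d.fst := by simp [crn]
@[simp] lemma crn_one {m : ℕ} (face : M.Dart → Fin m) (d : M.Dart) :
    crn face d 1 = Sum.inl d.snd := by simp [crn]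
@[simp] lemma crn_two {m : ℕ} (face : M.Dart → Fin m) (d : M.Dart) :
    crn face d 2 = Sum.inr (face d) := by simp [crn]
@[simp] lemma glu_zero (ρ : Equiv.Perm M.Dart) (d : M.Dart) : glu ρ (d, 0) = (d.symm, 0) := by
  simp [glu]
@[simp] lemma glu_one (ρ : Equiv.Perm M.Dart) (d : M.Dart) : glu ρ (d, 1) = (phi ρ d, 2) := by
  simp [glu]
@[simp] lemma glu_two (ρ : Equiv.Perm M.Dart) (d : M.Dart) :
    glu ρ (d, 2) = ((phi ρ).symm d, 1) := by
  simp [glu]

lemma glu_inv (ρ : Equiv.Perm M.Dart) (x : M.Dart × Fin 3) : glu ρ (glu ρ x) = x := by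
  obtain ⟨d, c⟩ := x
  fin_cases c
  · change glu ρ (glu ρ (d, 0)) = (d, 0)
    simp
  · change glu ρ (glu ρ (d, 1)) = (d, 1)
    simp
  · change glu ρ (glu ρ (d, 2)) = (d, 2)
    simp

lemma glu_ne (ρ : Equiv.Perm M.Dart) (x : M.Dart × Fin 3) : glu ρ x ≠ x := by
  obtain ⟨d, c⟩ := x
  fin_cases c
  · change glu ρ (d, 0) ≠ (d, 0)
    simp only [glu_zero, ne_eq, Prod.mk.injEq, and_true]
    exact d.symm_ne
  · change glu ρ (d, 1) ≠ (d, 1)
    simp
  · change glu ρ (d, 2) ≠ (d, 2)
    simp

lemma glu_glue {m : ℕ} (ρ : Equiv.Perm M.Dart) (face : M.Dart → Fin m)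
    (hρ : ∀ d, (ρ d).fst = d.fst)
    (hface : ∀ d, face (phi ρ d) = face d) (x : M.Dart × Fin 3) :
    crn face (glu ρ x).1 (glu ρ x).2 = crn face x.1 (x.2 + 1) := by
  have h1 : ∀ d, (phi ρ d).fst = d.snd := by
    intro d
    change (ρ d.symm).fst = d.snd
    rw [hρ]
    rfl
  obtain ⟨d, c⟩ := x
  fin_cases c
  · change crn face (glu ρ (d, 0)).1 (glu ρ (d, 0)).2 = crn face d (0 + 1)
    simp only [glu_zero, crn_zero, zero_add, crn_one]
    rfl
  · change crn face (glu ρ (d, 1)).1 (glu ρ (d, 1)).2 = crn face d (1 + 1)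
    have : (1 : Fin 3) + 1 = 2 := rfl
    rw [this]
    simp only [glu_one, crn_two, hface]
  · change crn face (glu ρ (d, 2)).1 (glu ρ (d, 2)).2 = crn face d (2 + 1)
    have : (2 : Fin 3) + 1 = 0 := rfl
    rw [this]
    simp only [glu_two, crn_one, crn_zero]
    have := h1 ((phi ρ).symm d)
    rw [Equiv.apply_symm_apply] at this
    rw [this]

/-- the corner rotation -/
def sg (ρ : Equiv.Perm M.Dart) (e : M.Dart × Fin 3) : M.Dart × Fin 3 := glu ρ (e.1, e.2 - 1)

lemma sg_zero (ρ : Equiv.Perm M.Dart) (d : M.Dart) : sg ρ (d, 0) = ((phi ρ).symm d, 1) := by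
  change glu ρ (d, 0 - 1) = _
  have : (0 : Fin 3) - 1 = 2 := rfl
  rw [this]; simp

lemma sg_one (ρ : Equiv.Perm M.Dart) (d : M.Dart) : sg ρ (d, 1) = (d.symm, 0) := by
  change glu ρ (d, 1 - 1) = _
  have : (1 : Fin 3) - 1 = 0 := rfl
  rw [this]; simp

lemma sg_two (ρ : Equiv.Perm M.Dart) (d : M.Dart) : sg ρ (d, 2) = (phi ρ d, 2) := by
  change glu ρ (d, 2 - 1) = _
  have : (2 : Fin 3) - 1 = 1 := rfl
  rw [this]; simp

lemma sg_two_iter (ρ : Equiv.Perm M.Dart) (d : M.Dart) (n : ℕ) :
    (sg ρ)^[n] (d, 2) = ((phi ρ)^[n] d, 2) := by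
  induction n with
  | zero => rfl
  | succ n ih => rw [Function.iterate_succ_apply', ih, sg_two, Function.iterate_succ_apply']

lemma sg_sq_zero (ρ : Equiv.Perm M.Dart) (d : M.Dart) :
    sg ρ (sg ρ (d, 0)) = (ρ.symm d, 0) := by
  rw [sg_zero, sg_one]
  change (((ρ.symm d).symm).symm, (0 : Fin 3)) = _
  simp

lemma sg_iter_zero (ρ : Equiv.Perm M.Dart) (d : M.Dart) (n : ℕ) :
    (sg ρ)^[2 * n] (d, 0) = ((ρ.symm)^[n] d, 0) := by
  induction n with
  | zero => rfl
  | succ n ih =>
    have : 2 * (n + 1) = (2 * n + 1) + 1 := by ring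
    rw [this, Function.iterate_succ_apply', Function.iterate_succ_apply', ih, sg_sq_zero,
      Function.iterate_succ_apply']

lemma symm_iter (ρ : Equiv.Perm M.Dart) (n : ℕ) (d d' : M.Dart) (h : (ρ^[n]) d = d') :
    (ρ.symm)^[n] d' = d := by
  rw [← h]
  exact (Function.LeftInverse.iterate ρ.symm_apply_apply n) d

lemma orb {m : ℕ} (ρ : Equiv.Perm M.Dart) (face : M.Dart → Fin m)
    (hρ : ∀ d, (ρ d).fst = d.fst)
    (hO : ∀ d d' : M.Dart, d.fst = d'.fst → ∃ n : ℕ, (ρ^[n]) d = d')
    (hF : ∀ d d' : M.Dart, face d = face d' → ∃ n : ℕ, ((phi ρ)^[n]) d = d')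
    (x y : M.Dart × Fin 3) (h : crn face x.1 x.2 = crn face y.1 y.2) :
    ∃ n : ℕ, (sg ρ)^[n] x = y := by
  have h1 : ∀ d, (phi ρ d).fst = d.snd := by
    intro d
    change (ρ d.symm).fst = d.snd
    rw [hρ]
    rfl
  -- from (d,0) to (e,0)
  have h00 : ∀ d e : M.Dart, d.fst = e.fst → ∃ n : ℕ, (sg ρ)^[n] (d, 0) = (e, 0) := by
    intro d e hde
    obtain ⟨n, hn⟩ := hO e d hde.symm
    exact ⟨2 * n, by rw [sg_iter_zero, symm_iter ρ n e d hn]⟩
  have h01 : ∀ d e : M.Dart, d.fst = e.snd → ∃ n : ℕ, (sg ρ)^[n] (d, 0) = (e, 1) := by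
    intro d e hde
    obtain ⟨n, hn⟩ := h00 d (phi ρ e) (by rw [h1, hde])
    refine ⟨n + 1, ?_⟩
    rw [Function.iterate_succ_apply', hn, sg_zero, Equiv.symm_apply_apply]
  obtain ⟨d, c⟩ := x
  obtain ⟨e, c'⟩ := y
  have hc : c = 0 ∨ c = 1 ∨ c = 2 := by fin_cases c <;> simp
  have hc' : c' = 0 ∨ c' = 1 ∨ c' = 2 := by fin_cases c' <;> simp
  rcases hc with rfl | rfl | rfl <;> rcases hc' with rfl | rfl | rfl
  · simp only [crn_zero, Sum.inl.injEq] at h
    exact h00 d e h
  · simp only [crn_zero, crn_one, Sum.inl.injEq] at h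
    exact h01 d e h
  · simp at h
  · simp only [crn_zero, crn_one, Sum.inl.injEq] at h
    obtain ⟨n, hn⟩ := h00 d.symm e h
    exact ⟨n + 1, by rw [Function.iterate_succ_apply, sg_one, hn]⟩
  · simp only [crn_one, Sum.inl.injEq] at h
    obtain ⟨n, hn⟩ := h01 d.symm e h
    exact ⟨n + 1, by rw [Function.iterate_succ_apply, sg_one, hn]⟩
  · simp at h
  · simp at h
  · simp at h
  · simp only [crn_two, Sum.inr.injEq] at h
    obtain ⟨n, hn⟩ := hF d e h
    exact ⟨n, by rw [sg_two_iter, hn]⟩

lemma closed_univ (hM : M.Connected) (ρ : Equiv.Perm M.Dart)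
    (hO : ∀ d d' : M.Dart, d.fst = d'.fst → ∃ n : ℕ, (ρ^[n]) d = d')
    (A : Set M.Dart) (hA : A.Nonempty) (hs : ∀ d ∈ A, d.symm ∈ A) (hp : ∀ d ∈ A, phi ρ d ∈ A) :
    A = univ := by
  have hr : ∀ d ∈ A, ρ d ∈ A := by
    intro d hd
    have := hp d.symm (hs d hd)
    change ρ d.symm.symm ∈ A at this
    simpa using this
  have hrn : ∀ (n : ℕ), ∀ d ∈ A, (ρ^[n]) d ∈ A := by
    intro n
    induction n with
    | zero => intro d hd; exact hd
    | succ n ih =>
      intro d hd
      rw [Function.iterate_succ_apply']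
      exact hr _ (ih d hd)
  have hv : ∀ d ∈ A, ∀ e : M.Dart, d.fst = e.fst → e ∈ A := by
    intro d hd e hde
    obtain ⟨n, hn⟩ := hO d e hde
    rw [← hn]
    exact hrn n d hd
  obtain ⟨d0, hd0⟩ := hA
  have key : ∀ v : P, M.Reachable d0.fst v → ∀ e : M.Dart, e.fst = v → e ∈ A := by
    intro v hv'
    obtain ⟨w⟩ := hv'
    have : ∀ (u v : P) (w : M.Walk u v), (∀ e : M.Dart, e.fst = u → e ∈ A) →
        ∀ e : M.Dart, e.fst = v → e ∈ A := by
      intro u v w
      induction w with
      | nil => intro h; exact h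
      | cons hadj w ih =>
        rename_i a b c
        intro h
        apply ih
        intro e he
        have h1 : (⟨(a, b), hadj⟩ : M.Dart) ∈ A := h _ rfl
        have h2 := hs _ h1
        exact hv _ h2 e he.symm
    exact this _ _ w (fun e he => hv d0 hd0 e he.symm)
  ext e
  simp only [mem_univ, iff_true]
  exact key e.fst (hM.preconnected _ _) e rfl

end Stellar

/-- the trivial triangulated sphere: two triangles -/
def twoTri : TriSphere (Fin 2) (Fin 3) where
  a i c := if i = 0 then c else -c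
  α x := (1 - x.1, - x.2 - 1)
  inv := by decide
  fpf := by decide
  glue := by decide
  orbit := by
    intro d d' h
    have key : ∀ d d' : Fin 2 × Fin 3, (if d.1 = 0 then d.2 else -d.2) =
        (if d'.1 = 0 then d'.2 else -d'.2) → d = d' ∨ ((1 - d.1, -(d.2 - 1) - 1) : Fin 2 × Fin 3) = d' := by
      decide
    rcases key d d' h with h | h
    · exact ⟨0, h⟩
    · exact ⟨1, h⟩
  surj := by decide
  euler := by decide
  conn := by
    intro A hA h
    obtain ⟨i, hi⟩ := hA
    have h1 : 1 - i ∈ A := h (i, 0) hi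
    ext j
    simp only [mem_univ, iff_true]
    have h2 : ∀ i j : Fin 2, j = i ∨ j = 1 - i := by decide
    have := h2 i j
    rcases this with rfl | rfl
    · exact hi
    · exact h1

/-- stellar subdivision: a plane map with at least one edge embeds in a triangulated sphere with an
additional vertex -/
theorem stellar {P : Type} [Fintype P] (M : SimpleGraph P) (hM : IsPlaneMap M) :
    ∃ (I Q : Type) (_ : Fintype I) (_ : Fintype Q) (S : TriSphere I Q) (f : P → Q) (r : Q),
      Function.Injective f ∧ (∀ a b, M.Adj a b → S.graph.Adj (f a) (f b)) ∧ r ∉ range f := by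
  classical
  obtain ⟨hc, ρ, m, face, hρ, hO, hfs, hF, hE⟩ := hM
  by_cases hne : Nonempty M.Dart
  · have hF' : ∀ d d' : M.Dart, face d = face d' ↔ ∃ n : ℕ, ((Stellar.phi ρ)^[n]) d = d' := hF
    have hface : ∀ d, face (Stellar.phi ρ d) = face d := by
      intro d
      symm
      rw [hF']
      exact ⟨1, rfl⟩
    have hcardE : Nat.card M.edgeSet = M.edgeFinset.card := by
      rw [Nat.card_eq_fintype_card, SimpleGraph.edgeFinset_card]
    have hcardD : Fintype.card M.Dart = 2 * M.edgeFinset.card := SimpleGraph.dart_card_eq_twice_card_edges M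
    let S : TriSphere M.Dart (P ⊕ Fin m) :=
      { a := Stellar.crn face
        α := Stellar.glu ρ
        inv := Stellar.glu_inv ρ
        fpf := Stellar.glu_ne ρ
        glue := Stellar.glu_glue ρ face hρ hface
        orbit := Stellar.orb ρ face hρ hO (fun d d' h => (hF' d d').1 h)
        surj := by
          intro q
          rcases q with v | i
          · obtain ⟨d0⟩ := hne
            obtain ⟨w, hw⟩ : ∃ w, M.Adj v w := by
              by_cases hv : v = d0.fst
              · exact ⟨d0.snd, by rw [hv]; exact d0.adj⟩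
              · obtain ⟨W⟩ := hc.preconnected v d0.fst
                cases W with
                | nil => exact absurd rfl hv
                | cons h _ => exact ⟨_, h⟩
            exact ⟨(⟨(v, w), hw⟩, 0), by simp⟩
          · obtain ⟨d, hd⟩ := hfs i
            exact ⟨(d, 2), by simp [hd]⟩
        euler := by
          rw [Fintype.card_sum, Fintype.card_fin, hcardD]
          rw [Nat.card_eq_fintype_card, hcardE] at hE
          omega
        conn := by
          intro A hA h
          apply Stellar.closed_univ hc ρ hO A hA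
          · intro d hd
            have := h (d, 0) hd
            simpa using this
          · intro d hd
            have := h (d, 1) hd
            simpa using this }
    obtain ⟨d0⟩ := hne
    refine ⟨M.Dart, P ⊕ Fin m, inferInstance, inferInstance, S, Sum.inl, Sum.inr (face d0),
      Sum.inl_injective, ?_, ?_⟩
    · intro a b hab
      refine ⟨fun h => hab.ne (Sum.inl_injective h), (⟨(a, b), hab⟩, 0), ?_, ?_⟩
      · change Stellar.crn face _ 0 = _
        simp
      · change Stellar.crn face _ (0 + 1) = _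
        simp
    · simp
  · have hsub : Subsingleton P := by
      constructor
      intro a b
      obtain ⟨W⟩ := hc.preconnected a b
      cases W with
      | nil => rfl
      | cons h _ => exact absurd ⟨⟨(_, _), h⟩⟩ hne
    refine ⟨Fin 2, Fin 3, inferInstance, inferInstance, twoTri, fun _ => 0, 1, ?_, ?_, ?_⟩
    · intro a b _
      exact Subsingleton.elim a b
    · intro a b hab
      exact absurd ⟨⟨(a, b), hab⟩⟩ hne
    · rintro ⟨x, hx⟩
      simp at hx

end KPL
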