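import Pool.Agent.Lib.KPL.A1
import Pool.Agent.Lib.KPL.A2
import Pool.Agent.Lib.KPL.A3
import Pool.Agent.Lib.KPL.A4
import Pool.Agent.Lib.KPL.B1
import Pool.Agent.Lib.KPL.B2
import Pool.Agent.Lib.KPL.B3
import Pool.Agent.Lib.KPL.B4
import Pool.Agent.Lib.KPL.B5
import Pool.Agent.Lib.KPL.C

/-! Module E: the recursion step and the core theorem -/

set_option autoImplicit false
set_option linter.unusedSectionVars false
set_option linter.unusedVariables false

namespace KPL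

open Set

section
variable {V Q : Type} [Fintype V] [Fintype Q] {G : SimpleGraph V} {N : SimpleGraph Q} {k : ℕ}
  (S : StrSys G N k)

/-- state of the recursion -/
def State (r : Q) (X : Set V) (𝒜 : Finset (Set V)) : Prop :=
  ∃ (K : Set Q) (O Ex : Set V → Fin 6 → Set Q), r ∈ K ∧ (N.induce K).Preconnected ∧
    (∀ x ∈ X, Disjoint (S.star x) K) ∧ Attached S X K 𝒜 O Ex ∧
    (∀ x ∈ X, ∀ y ∉ X, G.Adj x y → ∃ P ∈ 𝒜, y ∈ P)

/-- bound on the number of vertices of a part in a layer -/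
def fK (k : ℕ) : ℕ := (2 * N0 k) * (3 * (4 * w0 k))

lemma N0_pos (k : ℕ) : 1 ≤ N0 k := by
  unfold N0
  have : 0 < m0 k := by unfold m0; omega
  have := pow_pos this 8
  omega

lemma mem_star_self (x : V) : S.ι x ∈ S.star x := Or.inl rfl

lemma iota_mem_str {e : S.E} {x : V} (h : S.inc x e) : S.ι x ∈ S.str e := by
  rcases h with h | h
  · exact ⟨0, Nat.zero_le _, by rw [S.c_zero, h]⟩
  · exact ⟨S.len e, le_rfl, by rw [S.c_len, h]⟩

lemma inter_sub_str (e : S.E) : S.inter e ⊆ S.str e := by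
  rintro z ⟨i, _, h2, h3⟩
  exact ⟨i, h2.le, h3⟩

lemma inter_sub_star {e : S.E} {x : V} (h : S.inc x e) : S.inter e ⊆ S.star x :=
  fun _ hz => Or.inr ⟨e, h, hz⟩

/-- connectedness of a union of connected sets with a common point -/
lemma preconnected_union_root {Q : Type} (N : SimpleGraph Q) (r : Q) (K : Set Q) (hrK : r ∈ K)
    (hK : (N.induce K).Preconnected) {J : Type} (R : J → Set Q) (hR : ∀ j, r ∈ R j)
    (hRc : ∀ j, (N.induce (R j)).Preconnected) :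
    (N.induce (K ∪ ⋃ j, R j)).Preconnected := by
  have key : ∀ z, ∀ hz : z ∈ K ∪ ⋃ j, R j,
      (N.induce (K ∪ ⋃ j, R j)).Reachable ⟨r, Or.inl hrK⟩ ⟨z, hz⟩ := by
    intro z hz
    rcases hz with hz' | hz'
    · have h1 : K ⊆ K ∪ ⋃ j, R j := subset_union_left
      have := (hK ⟨r, hrK⟩ ⟨z, hz'⟩).map (N.induceHomOfLE h1).toHom
      exact this
    · obtain ⟨j, hj⟩ := mem_iUnion.1 hz'
      have h1 : R j ⊆ K ∪ ⋃ j, R j := (subset_iUnion R j).trans subset_union_right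
      have := (hRc j ⟨r, hR j⟩ ⟨z, hj⟩).map (N.induceHomOfLE h1).toHom
      exact this
  intro a b
  exact (key a.1 a.2).symm.trans (key b.1 b.2)

lemma mem_rp_self {Q : Type} (p : Q → Q) (z : Q) : z ∈ rp p z := ⟨0, rfl⟩

lemma root_mem_rp {Q : Type} {N : SimpleGraph Q} {r : Q} {p : Q → Q} (h : IsRST N r p) (z : Q) :
    r ∈ rp p z := h.reach z

/-- bound for the cardinality of a union over a finset and `Fin 3` -/
lemma ncard_biUnion_le' {V I : Type} [Finite V] (F : Finset I) (g : I → Fin 3 → Set V) (m : ℕ)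
    (hg : ∀ i c, (g i c).ncard ≤ m) : ({u | ∃ i ∈ F, ∃ c, u ∈ g i c} : Set V).ncard ≤ F.card * (3 * m) := by
  classical
  induction F using Finset.induction_on with
  | empty => simp
  | insert i F hi ih =>
    rw [Finset.card_insert_of_notMem hi]
    have hsub : ({u | ∃ j ∈ insert i F, ∃ c, u ∈ g j c} : Set V) ⊆
        (g i 0 ∪ (g i 1 ∪ g i 2)) ∪ {u | ∃ j ∈ F, ∃ c, u ∈ g j c} := by
      rintro u ⟨j, hj, c, hc⟩
      rcases Finset.mem_insert.1 hj with rfl | hj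
      · left
        fin_cases c
        · exact Or.inl hc
        · exact Or.inr (Or.inl hc)
        · exact Or.inr (Or.inr hc)
      · right
        exact ⟨j, hj, c, hc⟩
    have h1 := ncard_le_ncard hsub (toFinite _)
    have h2 := ncard_union_le (g i 0 ∪ (g i 1 ∪ g i 2)) {u | ∃ j ∈ F, ∃ c, u ∈ g j c}
    have h3 := ncard_union_le (g i 0) (g i 1 ∪ g i 2)
    have h4 := ncard_union_le (g i 1) (g i 2)
    have h5 := hg i 0
    have h6 := hg i 1
    have h7 := hg i 2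
    nlinarith

theorem step (hT : TreeProp N) (hK33 : NoK33 N) (r : Q) (L : Q → ℕ) (p : Q → Q) (hp : IsRST N r p)
    (hL : ∀ e, ∀ z ∈ S.str e, ∀ z' ∈ S.str e, L z ≤ L z' + 1)
    (hload : ∀ u i, (S.sh {w | w ∈ rp p u ∧ L w = i}).ncard ≤ w0 k)
    (X : Set V) (𝒜 : Finset (Set V)) (hS : State S r X 𝒜) (hc : 𝒜.card ≤ 3)
    (hX : (G.induce X).Connected) :
    ∃ P ⊆ X, P.Nonempty ∧ (∀ i, {u | u ∈ P ∧ L (S.ι u) = i}.ncard ≤ fK k) ∧
      ∀ Z : Set V, IsComp G (X \ P) Z →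
        ∃ 𝒜' : Finset (Set V), (∀ P' ∈ 𝒜', P' = P ∨ P' ∈ 𝒜) ∧ 𝒜'.card ≤ 3 ∧
          (∀ x ∈ Z, ∀ y ∉ Z, G.Adj x y → ∃ P' ∈ 𝒜', y ∈ P') ∧ State S r Z 𝒜' := by
  classical
  obtain ⟨K, O, Ex, hrK, hK, hXK, hA, hnb⟩ := hS
  obtain ⟨p', hp', hp'u⟩ := adapted_tree S r p hp K hrK hK
  obtain ⟨I, fI, T, a, hTree, hTadj, hTconn⟩ := hT r p' hp'
  set B : Q → Set I := fun z => {i | ∃ c, z ∈ rp p' (a i c)} with hB
  set U : Set V → Set Q := fun Y => {z | ∃ x ∈ Y, z ∈ S.star x} with hU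
  set TV : Set V → Set I := fun Y => {i | ∃ z ∈ U Y, i ∈ B z} with hTV
  have hBadj : ∀ z w, N.Adj z w → (B z ∩ B w).Nonempty := by
    intro z w hzw
    obtain ⟨i, h1, h2⟩ := hTadj z w hzw
    exact ⟨i, h1, h2⟩
  have hTVc : ∀ Y, (G.induce Y).Connected → (T.induce (TV Y)).Connected := fun Y hY =>
    union_connected N T B hTconn hBadj (U Y) (star_union_connected S Y hY)
  have hTVmono : ∀ Y Y' : Set V, Y ⊆ Y' → TV Y ⊆ TV Y' := by
    rintro Y Y' h i ⟨z, ⟨x, hx, hz⟩, hi⟩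
    exact ⟨z, ⟨x, h hx, hz⟩, hi⟩
  set 𝓓 : Set (Set I) := {D | ∃ Y ⊆ X, (G.induce Y).Connected ∧
    (Y = X ∨ (𝒜.card = 3 ∧ ∀ P ∈ 𝒜, ∃ x ∈ Y, ∃ s ∈ P, G.Adj x s)) ∧ D = TV Y} with h𝓓
  have hn : ¬ ∃ f : Fin (N0 k + 1) → Set I, (∀ j, f j ∈ 𝓓) ∧ ∀ i j, i ≠ j → Disjoint (f i) (f j) := by
    rintro ⟨f, hf, hdis⟩
    choose Y hYX hYc hYt hYf using hf
    by_cases hex : ∃ j, Y j = X
    · obtain ⟨j, hj⟩ := hex
      have hN := N0_pos k
      obtain ⟨j', hj'⟩ : ∃ j' : Fin (N0 k + 1), j' ≠ j := by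
        by_cases h0 : j = 0
        · refine ⟨Fin.last _, ?_⟩
          rw [h0]
          intro h
          have := congrArg Fin.val h
          simp at this
          omega
        · exact ⟨0, fun h => h0 h.symm⟩
      have h1 : TV (Y j') ⊆ TV (Y j) := hTVmono _ _ (by rw [hj]; exact hYX j')
      obtain ⟨⟨i, hi⟩⟩ := (hTVc (Y j') (hYc j')).nonempty
      have h2 := hdis j' j hj'
      rw [hYf j', hYf j] at h2
      exact disjoint_left.1 h2 hi (h1 hi)
    · push Not at hex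
      have hcard : 𝒜.card = 3 := by
        rcases hYt 0 with h | h
        · exact absurd h (hex 0)
        · exact h.1
      have := few_touching S hK33 X K 𝒜 O Ex hcard hA hXK (N0 k + 1) Y hYX hYc
        (by
          intro i j hij x hx x' hx'
          rw [disjoint_left]
          intro z hz hz'
          obtain ⟨⟨i0, hi0⟩⟩ := (hTconn z).nonempty
          have h2 := hdis i j hij
          rw [hYf i, hYf j] at h2
          exact disjoint_left.1 h2 ⟨z, ⟨x, hx, hz⟩, hi0⟩ ⟨z, ⟨x', hx', hz'⟩, hi0⟩)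
        (by
          intro j
          rcases hYt j with h | h
          · exact absurd h (hex j)
          · exact h.2)
      omega
  obtain ⟨F, hFcard, hFhit, hFbd⟩ := tree_lemma T hTree 𝓓
    (by
      rintro D ⟨Y, hY1, hY2, _, rfl⟩
      exact hTVc Y hY2) (N0 k) hn
  set P : Set V := {x | x ∈ X ∧ ∃ z ∈ S.star x, ∃ i ∈ F, i ∈ B z} with hP
  have hPX : P ⊆ X := fun x hx => hx.1
  have hPne : P.Nonempty := by
    obtain ⟨i, hiF, z, ⟨x, hx, hz⟩, hi⟩ := hFhit (TV X) ⟨X, Subset.rfl, hX, Or.inl rfl, rfl⟩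
    exact ⟨x, hx, z, hz, i, hiF, hi⟩
  have hFne : F.Nonempty := by
    obtain ⟨i, hiF, _⟩ := hFhit (TV X) ⟨X, Subset.rfl, hX, Or.inl rfl, rfl⟩
    exact ⟨i, hiF⟩
  have hstarL : ∀ u, ∀ z ∈ S.star u, L z ≤ L (S.ι u) + 1 ∧ L (S.ι u) ≤ L z + 1 := by
    intro u z hz
    rcases hz with rfl | ⟨e, he, hz⟩
    · exact ⟨Nat.le_succ _, Nat.le_succ _⟩
    · have h1 := inter_sub_str S e hz
      have h2 := iota_mem_str S he
      exact ⟨hL e z h1 _ h2, hL e _ h2 z h1⟩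
  have hthin : ∀ i, {u | u ∈ P ∧ L (S.ι u) = i}.ncard ≤ fK k := by
    intro m
    set g : I → Fin 3 → Set V := fun i c =>
      S.sh ((rp p' (a i c) ∩ S.plus K) \ K) ∪ (S.sh {w | w ∈ rp p (a i c) ∧ L w = m - 1} ∪
        (S.sh {w | w ∈ rp p (a i c) ∧ L w = m} ∪ S.sh {w | w ∈ rp p (a i c) ∧ L w = m + 1})) with hg
    have hgle : ∀ i c, (g i c).ncard ≤ 4 * w0 k := by
      intro i c
      have h1 := ncard_union_le (S.sh ((rp p' (a i c) ∩ S.plus K) \ K))
        (S.sh {w | w ∈ rp p (a i c) ∧ L w = m - 1} ∪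
        (S.sh {w | w ∈ rp p (a i c) ∧ L w = m} ∪ S.sh {w | w ∈ rp p (a i c) ∧ L w = m + 1}))
      have h2 := ncard_union_le (S.sh {w | w ∈ rp p (a i c) ∧ L w = m - 1})
        (S.sh {w | w ∈ rp p (a i c) ∧ L w = m} ∪ S.sh {w | w ∈ rp p (a i c) ∧ L w = m + 1})
      have h3 := ncard_union_le (S.sh {w | w ∈ rp p (a i c) ∧ L w = m})
        (S.sh {w | w ∈ rp p (a i c) ∧ L w = m + 1})
      have h4 := (hp'u (a i c)).2.2
      have h5 := hload (a i c) (m - 1)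
      have h6 := hload (a i c) m
      have h7 := hload (a i c) (m + 1)
      simp only [hg]
      omega
    have hsub : {u | u ∈ P ∧ L (S.ι u) = m} ⊆ {u | ∃ i ∈ F, ∃ c, u ∈ g i c} := by
      rintro u ⟨⟨huX, z, hz, i, hiF, c, hc⟩, hum⟩
      refine ⟨i, hiF, c, ?_⟩
      have hzK : z ∉ K := disjoint_left.1 (hXK u huX) hz
      by_cases hzp : z ∈ S.plus K
      · left
        exact ⟨z, ⟨⟨hc, hzp⟩, hzK⟩, hz⟩
      · right
        have hzr : z ∈ rp p (a i c) := (hp'u (a i c)).2.1 ⟨hc, hzp⟩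
        have h1 := hstarL u z hz
        rw [hum] at h1
        have h2 : L z = m - 1 ∨ L z = m ∨ L z = m + 1 := by omega
        rcases h2 with h2 | h2 | h2
        · left
          exact ⟨z, ⟨hzr, h2⟩, hz⟩
        · right; left
          exact ⟨z, ⟨hzr, h2⟩, hz⟩
        · right; right
          exact ⟨z, ⟨hzr, h2⟩, hz⟩
    have h1 := ncard_le_ncard hsub (toFinite _)
    have h2 := ncard_biUnion_le' F g _ hgle
    calc {u | u ∈ P ∧ L (S.ι u) = m}.ncard ≤ _ := h1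
      _ ≤ F.card * (3 * (4 * w0 k)) := h2
      _ ≤ fK k := by
        unfold fK
        exact Nat.mul_le_mul_right _ hFcard
  refine ⟨P, hPX, hPne, hthin, ?_⟩
  intro Z hZ
  have hZX : Z ⊆ X := fun x hx => (hZ.sub hx).1
  have hZP : ∀ x ∈ Z, x ∉ P := fun x hx => (hZ.sub hx).2
  have hZF : ∀ x ∈ Z, ∀ z ∈ S.star x, ∀ i ∈ F, i ∉ B z := by
    intro x hx z hz i hi hiB
    exact hZP x hx ⟨hZX hx, z, hz, i, hi, hiB⟩
  have hTVZ := hTVc Z hZ.conn
  have hTVZF : ∀ i ∈ TV Z, i ∉ F := by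
    rintro i ⟨z, ⟨x, hx, hz⟩, hi⟩ hiF
    exact hZF x hx z hz i hiF hi
  obtain ⟨f1, hf1, f2, hf2, hf12⟩ := hFbd (TV Z) hTVZ hTVZF hFne
  set nd : Fin 6 → I × Fin 3 := ![(f1,0),(f1,1),(f1,2),(f2,0),(f2,1),(f2,2)] with hnd
  have hnd1 : ∀ c : Fin 3, ∃ l, nd l = (f1, c) := by
    intro c
    fin_cases c
    · exact ⟨0, rfl⟩
    · exact ⟨1, rfl⟩
    · exact ⟨2, rfl⟩
  have hnd2 : ∀ c : Fin 3, ∃ l, nd l = (f2, c) := by
    intro c
    fin_cases c
    · exact ⟨3, rfl⟩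
    · exact ⟨4, rfl⟩
    · exact ⟨5, rfl⟩
  have hndF : ∀ l, (nd l).1 ∈ F := by
    intro l
    fin_cases l <;> assumption
  set rt : Fin 6 → Set Q := fun l => rp p' (a (nd l).1 (nd l).2) with hrt
  set O' : Set V → Fin 6 → Set Q := fun P' l => if P' = P then rt l \ S.plus K else O P' l with hO'
  set Ex' : Set V → Fin 6 → Set Q := fun P' l => if P' = P then (rt l ∩ S.plus K) \ K else Ex P' l
    with hEx'
  set K' : Set Q := K ∪ ⋃ j : {i // i ∈ F} × Fin 3, rp p' (a j.1.1 j.2) with hK'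
  have hKK' : K ⊆ K' := subset_union_left
  have hrtK' : ∀ l, rt l ⊆ K' := by
    intro l z hz
    right
    exact mem_iUnion.2 ⟨(⟨(nd l).1, hndF l⟩, (nd l).2), hz⟩
  have hKplus : K ⊆ S.plus K := subset_union_left
  have hplus : ∀ e, e ∈ S.tent K → S.str e ⊆ S.plus K := fun e he z hz => Or.inr ⟨e, he, hz⟩
  have hplusmono : S.plus K ⊆ S.plus K' := by
    rintro z (hz | ⟨e, ⟨w, hw1, hw2⟩, hz⟩)
    · exact Or.inl (hKK' hz)
    · exact Or.inr ⟨e, ⟨w, hw1, hKK' hw2⟩, hz⟩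
  have hK'c : (N.induce K').Preconnected :=
    preconnected_union_root N r K hrK hK _ (fun j => root_mem_rp hp' _)
      (fun j => (rp_connected N r p' hp' _).preconnected)
  have hstarK' : ∀ x ∈ Z, Disjoint (S.star x) K' := by
    intro x hx
    rw [disjoint_left]
    rintro z hz (hzK | hzU)
    · exact disjoint_left.1 (hXK x (hZX hx)) hz hzK
    · obtain ⟨⟨⟨i, hi⟩, c⟩, hj⟩ := mem_iUnion.1 hzU
      exact hZF x hx z hz i hi ⟨c, hj⟩
  have hPnot : P ∉ 𝒜 := by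
    intro h
    obtain ⟨x, hx⟩ := hPne
    exact disjoint_left.1 (hA.disjX P h) hx (hPX hx)
  set 𝒜' : Finset (Set V) := (insert P 𝒜).filter (fun P' => ∃ x ∈ Z, ∃ s ∈ P', G.Adj x s) with h𝒜'
  have h𝒜'mem : ∀ P' ∈ 𝒜', P' = P ∨ P' ∈ 𝒜 := by
    intro P' h
    exact Finset.mem_insert.1 (Finset.mem_filter.1 h).1
  have hnbZ : ∀ x ∈ Z, ∀ y ∉ Z, G.Adj x y → ∃ P' ∈ 𝒜', y ∈ P' := by
    intro x hx y hy hxy
    by_cases hyX : y ∈ X
    · have hyP : y ∈ P := by
        by_contra hyP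
        exact hy (hZ.closed x hx y ⟨hyX, hyP⟩ hxy)
      refine ⟨P, Finset.mem_filter.2 ⟨Finset.mem_insert_self _ _, x, hx, y, hyP, hxy⟩, hyP⟩
    · obtain ⟨P', hP', hyP'⟩ := hnb x (hZX hx) y hyX hxy
      refine ⟨P', Finset.mem_filter.2 ⟨Finset.mem_insert_of_mem hP', x, hx, y, hyP', hxy⟩, hyP'⟩
  have h𝒜'card : 𝒜'.card ≤ 3 := by
    by_cases h3 : 𝒜.card = 3
    · obtain ⟨P0, hP0, hP0n⟩ : ∃ P0 ∈ 𝒜, P0 ∉ 𝒜' := by
        by_contra hcon
        push Not at hcon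
        have hZ𝓓 : TV Z ∈ 𝓓 := ⟨Z, hZX, hZ.conn, Or.inr ⟨h3, fun P0 hP0 =>
          (Finset.mem_filter.1 (hcon P0 hP0)).2⟩, rfl⟩
        obtain ⟨i, hiF, hi⟩ := hFhit _ hZ𝓓
        exact hTVZF i hi hiF
      have hsub : 𝒜' ⊆ insert P (𝒜.erase P0) := by
        intro P' hP'
        rcases h𝒜'mem P' hP' with rfl | h
        · exact Finset.mem_insert_self _ _
        · refine Finset.mem_insert_of_mem (Finset.mem_erase.2 ⟨?_, h⟩)
          rintro rfl
          exact hP0n hP'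
      have h1 := Finset.card_le_card hsub
      have h2 := Finset.card_insert_le P (𝒜.erase P0)
      have h3' := Finset.card_erase_of_mem hP0
      omega
    · have hsub : 𝒜' ⊆ insert P 𝒜 := Finset.filter_subset _ _
      have h1 := Finset.card_le_card hsub
      have h2 := Finset.card_insert_le P 𝒜
      omega
  refine ⟨𝒜', h𝒜'mem, h𝒜'card, hnbZ, K', O', Ex', hKK' hrK, hK'c, hstarK', ?_, hnbZ⟩
  have hO'P : ∀ l, O' P l = rt l \ S.plus K := fun l => if_pos rfl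
  have hO'n : ∀ P' ∈ 𝒜, ∀ l, O' P' l = O P' l := fun P' h l => if_neg (by rintro rfl; exact hPnot h)
  have hE'P : ∀ l, Ex' P l = (rt l ∩ S.plus K) \ K := fun l => if_pos rfl
  have hE'n : ∀ P' ∈ 𝒜, ∀ l, Ex' P' l = Ex P' l := fun P' h l => if_neg (by rintro rfl; exact hPnot h)
  have hnewold : ∀ l, ∀ P' ∈ 𝒜, ∀ l', Disjoint (rt l \ S.plus K) (O P' l') := by
    intro l P' h l'
    rw [disjoint_left]
    rintro z ⟨_, hz⟩ hz'
    exact hz (hKplus (hA.OK P' h l' hz'))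
  constructor
  · -- disjX
    intro P' hP'
    rcases h𝒜'mem P' hP' with rfl | h
    · rw [disjoint_right]; exact hZP
    · exact (hA.disjX P' h).mono_right hZX
  · -- disjP
    intro P1 h1 P2 h2 hne
    rcases h𝒜'mem P1 h1 with rfl | h1' <;> rcases h𝒜'mem P2 h2 with rfl | h2'
    · exact absurd rfl hne
    · exact ((hA.disjX P2 h2').mono_right hPX).symm
    · exact (hA.disjX P1 h1').mono_right hPX
    · exact hA.disjP P1 h1' P2 h2' hne
  · -- OK
    intro P' hP' l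
    rcases h𝒜'mem P' hP' with rfl | h
    · rw [hO'P]; exact sdiff_subset.trans (hrtK' l)
    · rw [hO'n P' h]; exact (hA.OK P' h l).trans hKK'
  · -- Oconn
    intro P' hP' l
    rcases h𝒜'mem P' hP' with rfl | h
    · rw [hO'P]; exact (hp'u _).1
    · rw [hO'n P' h]; exact hA.Oconn P' h l
  · -- Odisj
    intro P1 h1 P2 h2 hne l l'
    rcases h𝒜'mem P1 h1 with rfl | h1' <;> rcases h𝒜'mem P2 h2 with rfl | h2'
    · exact absurd rfl hne
    · rw [hO'P, hO'n P2 h2']; exact hnewold l P2 h2' l'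
    · rw [hO'P, hO'n P1 h1']; exact (hnewold l' P1 h1' l).symm
    · rw [hO'n P1 h1', hO'n P2 h2']; exact hA.Odisj P1 h1' P2 h2' hne l l'
  · -- Ex_le
    intro P' hP' l
    rcases h𝒜'mem P' hP' with rfl | h
    · rw [hE'P]; exact (hp'u _).2.2
    · rw [hE'n P' h]; exact hA.Ex_le P' h l
  · -- inPlus
    rintro P' hP' s hs ⟨x, hx, hxs⟩
    rcases h𝒜'mem P' hP' with rfl | h
    · obtain ⟨hsX, z, hz, i, hiF, c, hc⟩ := hs
      have hzK' : z ∈ K' := Or.inr (mem_iUnion.2 ⟨(⟨i, hiF⟩, c), hc⟩)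
      rcases hz with rfl | ⟨e, he, hz⟩
      · exact Or.inl hzK'
      · exact Or.inr ⟨e, ⟨z, hz, hzK'⟩, iota_mem_str S he⟩
    · exact hplusmono (hA.inPlus P' h s hs ⟨x, hZX hx, hxs⟩)
  · -- away
    rintro P1 h1 s hs ⟨x, hx, hxs⟩ P2 h2 hne l
    rcases h𝒜'mem P1 h1 with rfl | h1' <;> rcases h𝒜'mem P2 h2 with rfl | h2'
    · exact absurd rfl hne
    · rw [hO'n P2 h2']
      intro hmem
      exact disjoint_left.1 (hXK s (hPX hs)) (mem_star_self S s) (hA.OK P2 h2' l hmem)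
    · rw [hO'P]
      intro hmem
      exact hmem.2 (hA.inPlus P1 h1' s hs ⟨x, hZX hx, hxs⟩)
    · rw [hO'n P2 h2']
      exact hA.away P1 h1' s hs ⟨x, hZX hx, hxs⟩ P2 h2' hne l
  · -- land
    rintro P1 h1 s hs ⟨x, hx, hxs⟩
    rcases h𝒜'mem P1 h1 with rfl | h1'
    · -- new part
      have hsX := hPX hs
      set D : Set I := {i | ∃ z ∈ S.star s, i ∈ B z} with hD
      have hDc : (T.induce D).Connected := union_connected N T B hTconn hBadj _ (star_connected S s)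
      have hDZ : (D ∩ TV Z).Nonempty := by
        rcases (star_touch S x s hxs).2 with ⟨z, hz1, hz2⟩ | ⟨z, hz1, w, hw, hzw⟩
        · obtain ⟨⟨i, hi⟩⟩ := (hTconn z).nonempty
          exact ⟨i, ⟨z, hz2, hi⟩, ⟨z, ⟨x, hx, hz1⟩, hi⟩⟩
        · obtain ⟨i, hi1, hi2⟩ := hBadj z w hzw
          exact ⟨i, ⟨w, hw, hi2⟩, ⟨z, ⟨x, hx, hz1⟩, hi1⟩⟩
      have hDF : ∃ i ∈ F, i ∈ D := by
        obtain ⟨_, z, hz, i, hiF, hi⟩ := hs
        exact ⟨i, hiF, z, hz, hi⟩
      obtain ⟨l, z, hz, hzl⟩ : ∃ l, ∃ z ∈ S.star s, z ∈ rt l := by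
        rcases hf12 D hDc hDZ hDF with ⟨z, hz, c, hc⟩ | ⟨z, hz, c, hc⟩
        · obtain ⟨l, hl⟩ := hnd1 c
          exact ⟨l, z, hz, by simp only [hrt, hl]; exact hc⟩
        · obtain ⟨l, hl⟩ := hnd2 c
          exact ⟨l, z, hz, by simp only [hrt, hl]; exact hc⟩
      have hzK : z ∉ K := disjoint_left.1 (hXK s hsX) hz
      refine ⟨l, ?_⟩
      by_cases hzp : z ∈ S.plus K
      · left
        rw [hE'P]
        exact ⟨z, ⟨⟨hzl, hzp⟩, hzK⟩, hz⟩
      · right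
        rcases hz with rfl | ⟨e, he, hz⟩
        · left
          rw [hO'P]
          exact ⟨hzl, hzp⟩
        · right
          refine ⟨e, he, ⟨z, hz, by rw [hO'P]; exact ⟨hzl, hzp⟩⟩, ?_⟩
          intro P2 h2 hne l'
          rcases h𝒜'mem P2 h2 with h2' | h2'
          · exact absurd h2' hne
          · rw [hO'n P2 h2']
            rw [disjoint_left]
            intro w hw hw'
            exact disjoint_left.1 (hXK s hsX) (inter_sub_star S he hw) (hA.OK P2 h2' l' hw')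
    · -- old part
      obtain ⟨l, hl⟩ := hA.land P1 h1' s hs ⟨x, hZX hx, hxs⟩
      refine ⟨l, ?_⟩
      rw [hE'n P1 h1', hO'n P1 h1']
      rcases hl with hl | hl | ⟨e, he, hne, hd⟩
      · exact Or.inl hl
      · exact Or.inr (Or.inl hl)
      · refine Or.inr (Or.inr ⟨e, he, hne, ?_⟩)
        intro P2 h2 hP2 l'
        rcases h𝒜'mem P2 h2 with rfl | h2'
        · rw [hO'P]
          rw [disjoint_left]
          intro w hw hw'
          have heK : e ∈ S.tent K := by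
            obtain ⟨v, hv1, hv2⟩ := hne
            exact ⟨v, hv1, hA.OK P1 h1' l hv2⟩
          exact hw'.2 (hplus e heK (inter_sub_str S e hw))
        · rw [hO'n P2 h2']
          exact hd P2 h2' hP2 l'

/-- CORE THEOREM -/
theorem core (hN : N.Connected) (hT : TreeProp N) (hK33 : NoK33 N) (r : Q)
    (hr : ∀ x, r ∉ S.star x) : InProduct G 3 (fK k) := by
  classical
  obtain ⟨L, p, hp, hL, hload⟩ := layering S hN r
  have hstep := step S hT hK33 r L p hp hL hload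
  obtain ⟨n, col, A, hE, hcol, hadj, hthin⟩ := assembly G
    (fun P => ∀ i, {u | u ∈ P ∧ L (S.ι u) = i}.ncard ≤ fK k) (State S r)
    (fun X 𝒜 hS hc _ hX => hstep X 𝒜 hS hc hX)
    (by
      intro Z hZ
      refine ⟨{r}, fun _ _ => ∅, fun _ _ => ∅, rfl, ?_, ?_, ?_, ?_⟩
      · rintro ⟨a, ha⟩ ⟨b, hb⟩
        have ha' : a = r := ha
        have hb' : b = r := hb
        subst ha' hb'
        exact SimpleGraph.Reachable.refl _
      · intro x _
        rw [disjoint_singleton_right]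
        exact hr x
      · constructor <;> intro P hP <;> exact absurd hP (Finset.notMem_empty P)
      · intro x hx y hy hxy
        exact absurd (hZ.closed x hx y (mem_univ y) hxy) hy)
  refine elim_inProduct G n (fK k) col A (fun v => L (S.ι v)) hE hcol hadj ?_ ?_
  · intro u v huv
    obtain ⟨e, he⟩ := S.cover u v huv
    rcases he with ⟨h1, h2⟩ | ⟨h1, h2⟩
    · exact hL e _ (iota_mem_str S (Or.inl h1)) _ (iota_mem_str S (Or.inr h2))
    · exact hL e _ (iota_mem_str S (Or.inr h2)) _ (iota_mem_str S (Or.inl h1))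
  · intro v i
    exact hthin v i

end

end KPL
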