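import Pool.Agent.Lib.KPL.E
import Pool.Agent.Lib.KPL.D1
import Pool.Agent.Lib.KPL.D2
import Pool.Agent.Lib.KPL.D3

/-! Module F: from `IsKPlanar` to string systems; final theorem -/

set_option autoImplicit false
set_option linter.unusedSectionVars false
set_option linter.unusedVariables false

namespace KPL

open Set

theorem kplanar_strsys {V : Type} [Fintype V] (k : ℕ) (G : SimpleGraph V) (h : IsKPlanar k G) :
    ∃ (I Q : Type) (_ : Fintype I) (_ : Fintype Q) (S : TriSphere I Q) (Y : StrSys G S.graph k)
      (r : Q), ∀ x, r ∉ Y.star x := by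
  classical
  obtain ⟨P, fP, M, ι, W, ⟨P', fP', M', hM', f, hf, hfadj⟩, hι, hWp, hWs, hWr, hWk⟩ := h
  obtain ⟨I, Q, fI, fQ, S, g, r, hg, hgadj, hr⟩ := stellar M' hM'
  set φ : P → Q := fun x => g (f x) with hφ
  have hφinj : Function.Injective φ := hg.comp hf
  have hφadj : ∀ a b, M.Adj a b → S.graph.Adj (φ a) (φ b) := fun a b h => hgadj _ _ (hfadj a b h)
  have hadj : ∀ e : G.edgeSet, G.Adj (Quot.out e.1).1 (Quot.out e.1).2 := by
    intro e
    have h1 : s((Quot.out e.1).1, (Quot.out e.1).2) = e.1 := Quot.out_eq e.1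
    have h2 := e.2
    rw [← h1] at h2
    exact h2
  let w : ∀ e : G.edgeSet, M.Walk (ι (Quot.out e.1).1) (ι (Quot.out e.1).2) :=
    fun e => W _ _ (hadj e)
  have hwp : ∀ e, (w e).IsPath := fun e => hWp _ _ _
  have hlen : ∀ e, 0 < (w e).length := by
    intro e
    rcases Nat.eq_zero_or_pos (w e).length with h0 | h0
    · exact absurd (hι (SimpleGraph.Walk.eq_of_length_eq_zero h0)) (hadj e).ne
    · exact h0
  have hginj : ∀ e i j, i ≤ (w e).length → j ≤ (w e).length → (w e).getVert i = (w e).getVert j →
      i = j := fun e i j hi hj h => (hwp e).getVert_injOn hi hj h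
  have hreal : ∀ e i, 0 < i → i < (w e).length → ∀ v, (w e).getVert i ≠ ι v := by
    intro e i h0 h1 v hv
    have hmem : ι v ∈ (w e).support := hv ▸ SimpleGraph.Walk.getVert_mem_support _ _
    rcases hWr _ _ _ v hmem with hv' | hv'
    · have : (w e).getVert i = (w e).getVert 0 := by
        rw [hv, hv', SimpleGraph.Walk.getVert_zero]
      have := hginj e i 0 h1.le (Nat.zero_le _) this
      omega
    · have : (w e).getVert i = (w e).getVert (w e).length := by
        rw [hv, hv', SimpleGraph.Walk.getVert_length]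
      have := hginj e i _ h1.le le_rfl this
      omega
  let Y : StrSys G S.graph k :=
    { ι := fun v => φ (ι v)
      inj := hφinj.comp hι
      E := G.edgeSet
      fE := Fintype.ofFinite _
      src := fun e => (Quot.out e.1).1
      tgt := fun e => (Quot.out e.1).2
      adjG := hadj
      cover := by
        intro u v huv
        refine ⟨⟨s(u, v), huv⟩, ?_⟩
        have h1 : s((Quot.out (s(u, v) : Sym2 V)).1, (Quot.out (s(u, v) : Sym2 V)).2) = s(u, v) :=
          Quot.out_eq _
        rcases Sym2.eq_iff.1 h1 with h | h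
        · left; exact h
        · right; exact ⟨h.1, h.2⟩
      len := fun e => (w e).length
      c := fun e i => φ ((w e).getVert i)
      len_pos := hlen
      c_zero := fun e => by rw [SimpleGraph.Walk.getVert_zero]
      c_len := fun e => by rw [SimpleGraph.Walk.getVert_length]
      adjN := fun e i hi => hφadj _ _ ((w e).adj_getVert_succ hi)
      cinj := fun e i j hi hj h => hginj e i j hi hj (hφinj h)
      dummy := fun e i h0 h1 v h => hreal e i h0 h1 v (hφinj h)
      crossing := by
        intro e
        refine le_trans ?_ (hWk _ _ (hadj e))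
        refine Set.ncard_le_ncard_of_injOn (fun e' : G.edgeSet => e'.1) ?_ ?_ (toFinite _)
        · rintro e' ⟨hne, i, j, hi0, hi1, hj0, hj1, hij⟩
          refine ⟨?_, _, _, hadj e', ?_, (w e).getVert i, ?_, ?_, ?_⟩
          · intro h
            apply hne
            apply Subtype.ext
            rw [h]
            exact Quot.out_eq _
          · exact (Quot.out_eq e'.1).symm
          · exact SimpleGraph.Walk.getVert_mem_support _ _
          · rw [hφinj hij]
            exact SimpleGraph.Walk.getVert_mem_support _ _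
          · rintro ⟨v, hv⟩
            exact hreal e i hi0 hi1 v hv.symm
        · intro a _ b _ hab
          exact Subtype.ext hab }
  refine ⟨I, Q, fI, fQ, S, Y, r, ?_⟩
  intro x hx
  rcases hx with hx | ⟨e, _, i, _, _, hi⟩
  · exact hr ⟨f (ι x), hx.symm⟩
  · exact hr ⟨f ((w e).getVert i), hi⟩

theorem kplanar_inProduct {V : Type} [Fintype V] (k : ℕ) (G : SimpleGraph V) (h : IsKPlanar k G) :
    InProduct G 3 (fK k) := by
  obtain ⟨I, Q, fI, fQ, S, Y, r, hr⟩ := kplanar_strsys k G h
  exact core Y S.connected S.treeProp S.noK33 r hr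

/-- `fK` is a polynomial -/
theorem fK_poly : ∃ f : Polynomial ℕ, ∀ k, f.eval k = fK k := by
  refine ⟨(Polynomial.C 2 * (Polynomial.C 216 * (Polynomial.C 3 * (Polynomial.C 2 *
    (Polynomial.X + 1) * (Polynomial.X + 1)) + Polynomial.C 4 * (Polynomial.C 9 * Polynomial.X +
    Polynomial.C 6) + Polynomial.C 3) ^ 8)) * (Polynomial.C 3 * (Polynomial.C 4 * (Polynomial.C 2 *
    (Polynomial.X + 1) * (Polynomial.X + 1)))), ?_⟩
  intro k
  simp [fK, N0, m0, d0, w0]

theorem main : ∃ f : Polynomial ℕ, ∀ (k : ℕ) (V : Type) (_ : Fintype V) (G : SimpleGraph V),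
    IsKPlanar k G → InProduct G 3 (f.eval k) := by
  obtain ⟨f, hf⟩ := fK_poly
  refine ⟨f, ?_⟩
  intro k V _ G h
  rw [hf]
  exact kplanar_inProduct k G h

end KPL
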