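import Pool.Agent.Lib.KPL.TDefs

/-!
# T1: a triangulated sphere containing a box of the triangular lattice

Triangles `(true, i, j)` with corners `(i, j), (i+1, j), (i, j+1)` and `(false, i, j)` with corners
`(i+1, j), (i, j), (i+1, j-1)`; the rows `-1` and `m+1` are collapsed to poles.
-/

set_option autoImplicit false

namespace KPT

open Set KPL

namespace GridSphere

variable (n m : ℕ)

/-- triangles -/
abbrev TI : Type := Bool × (ZMod n × Fin (m + 1))

/-- vertices -/
abbrev TQ : Type := (ZMod n × Fin (m + 1)) ⊕ Bool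

variable {n m}

/-- the vertex above `(i, j)` -/
def top (i : ZMod n) (j : Fin (m + 1)) : TQ n m :=
  if h : j.1 < m then Sum.inl (i, ⟨j.1 + 1, by omega⟩) else Sum.inr true

/-- the vertex below `(i, j)` -/
def bot (i : ZMod n) (j : Fin (m + 1)) : TQ n m :=
  if h : 0 < j.1 then Sum.inl (i, ⟨j.1 - 1, by omega⟩) else Sum.inr false

/-- corners -/
def cor : TI n m → Fin 3 → TQ n m
  | (true, (i, j)), 0 => Sum.inl (i, j)
  | (true, (i, j)), 1 => Sum.inl (i + 1, j)
  | (true, (i, j)), 2 => top i j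
  | (false, (i, j)), 0 => Sum.inl (i + 1, j)
  | (false, (i, j)), 1 => Sum.inl (i, j)
  | (false, (i, j)), 2 => bot (i + 1) j

/-- gluing -/
def al : TI n m × Fin 3 → TI n m × Fin 3
  | ((true, (i, j)), 0) => ((false, (i, j)), 0)
  | ((true, (i, j)), 1) =>
    if h : j.1 < m then ((false, (i, ⟨j.1 + 1, by omega⟩)), 1) else ((true, (i + 1, j)), 2)
  | ((true, (i, j)), 2) =>
    if h : j.1 < m then ((false, (i - 1, ⟨j.1 + 1, by omega⟩)), 2) else ((true, (i - 1, j)), 1)
  | ((false, (i, j)), 0) => ((true, (i, j)), 0)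
  | ((false, (i, j)), 1) =>
    if h : 0 < j.1 then ((true, (i, ⟨j.1 - 1, by omega⟩)), 1) else ((false, (i - 1, j)), 2)
  | ((false, (i, j)), 2) =>
    if h : 0 < j.1 then ((true, (i + 1, ⟨j.1 - 1, by omega⟩)), 2) else ((false, (i + 1, j)), 1)

lemma al_t0 (i : ZMod n) (j : Fin (m + 1)) : al ((true, (i, j)), 0) = ((false, (i, j)), 0) := rfl
lemma al_f0 (i : ZMod n) (j : Fin (m + 1)) : al ((false, (i, j)), 0) = ((true, (i, j)), 0) := rfl
lemma al_t1 (i : ZMod n) (j : Fin (m + 1)) (h : j.1 < m) :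
    al ((true, (i, j)), 1) = ((false, (i, ⟨j.1 + 1, by omega⟩)), 1) := dif_pos h
lemma al_t1' (i : ZMod n) (j : Fin (m + 1)) (h : ¬ j.1 < m) :
    al ((true, (i, j)), 1) = ((true, (i + 1, j)), 2) := dif_neg h
lemma al_t2 (i : ZMod n) (j : Fin (m + 1)) (h : j.1 < m) :
    al ((true, (i, j)), 2) = ((false, (i - 1, ⟨j.1 + 1, by omega⟩)), 2) := dif_pos h
lemma al_t2' (i : ZMod n) (j : Fin (m + 1)) (h : ¬ j.1 < m) :
    al ((true, (i, j)), 2) = ((true, (i - 1, j)), 1) := dif_neg h
lemma al_f1 (i : ZMod n) (j : Fin (m + 1)) (h : 0 < j.1) :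
    al ((false, (i, j)), 1) = ((true, (i, ⟨j.1 - 1, by omega⟩)), 1) := dif_pos h
lemma al_f1' (i : ZMod n) (j : Fin (m + 1)) (h : ¬ 0 < j.1) :
    al ((false, (i, j)), 1) = ((false, (i - 1, j)), 2) := dif_neg h
lemma al_f2 (i : ZMod n) (j : Fin (m + 1)) (h : 0 < j.1) :
    al ((false, (i, j)), 2) = ((true, (i + 1, ⟨j.1 - 1, by omega⟩)), 2) := dif_pos h
lemma al_f2' (i : ZMod n) (j : Fin (m + 1)) (h : ¬ 0 < j.1) :
    al ((false, (i, j)), 2) = ((false, (i + 1, j)), 1) := dif_neg h

lemma al_al (d : TI n m × Fin 3) : al (al d) = d := by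
  obtain ⟨⟨b, i, j⟩, c⟩ := d
  cases b <;> fin_cases c
  · rfl
  · change al (al ((false, (i, j)), 1)) = ((false, (i, j)), 1)
    by_cases h : 0 < j.1
    · rw [al_f1 i j h, al_t1 _ _ (by dsimp only; omega)]
      simp only [Prod.mk.injEq, true_and, and_true]
      ext
      dsimp only
      omega
    · rw [al_f1' i j h, al_f2' _ _ h, sub_add_cancel]
  · change al (al ((false, (i, j)), 2)) = ((false, (i, j)), 2)
    by_cases h : 0 < j.1
    · rw [al_f2 i j h, al_t2 _ _ (by dsimp only; omega)]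
      simp only [Prod.mk.injEq, true_and, and_true, add_sub_cancel_right]
      ext
      dsimp only
      omega
    · rw [al_f2' i j h, al_f1' _ _ h, add_sub_cancel_right]
  · rfl
  · change al (al ((true, (i, j)), 1)) = ((true, (i, j)), 1)
    by_cases h : j.1 < m
    · rw [al_t1 i j h, al_f1 _ _ (by dsimp only; omega)]
      simp only [Prod.mk.injEq, true_and, and_true]
      ext
      dsimp only
      omega
    · rw [al_t1' i j h, al_t2' _ _ h, add_sub_cancel_right]
  · change al (al ((true, (i, j)), 2)) = ((true, (i, j)), 2)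
    by_cases h : j.1 < m
    · rw [al_t2 i j h, al_f2 _ _ (by dsimp only; omega)]
      simp only [Prod.mk.injEq, true_and, and_true, sub_add_cancel]
      ext
      dsimp only
      omega
    · rw [al_t2' i j h, al_t1' _ _ h, sub_add_cancel]

lemma al_ne (d : TI n m × Fin 3) : al d ≠ d := by
  obtain ⟨⟨b, i, j⟩, c⟩ := d
  cases b <;> fin_cases c
  · intro h
    have h' : (true : Bool) = false := congrArg (fun e : TI n m × Fin 3 => e.1.1) h
    exact absurd h' (by decide)
  · change al ((false, (i, j)), 1) ≠ ((false, (i, j)), 1)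
    by_cases h : 0 < j.1
    · rw [al_f1 i j h]
      intro h
      exact absurd (congrArg (fun e => e.1.1) h) (by simp)
    · rw [al_f1' i j h]
      intro h
      exact absurd (congrArg (fun e => e.2) h) (by simp)
  · change al ((false, (i, j)), 2) ≠ ((false, (i, j)), 2)
    by_cases h : 0 < j.1
    · rw [al_f2 i j h]
      intro h
      exact absurd (congrArg (fun e => e.1.1) h) (by simp)
    · rw [al_f2' i j h]
      intro h
      exact absurd (congrArg (fun e => e.2) h) (by simp)
  · intro h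
    have h' : (false : Bool) = true := congrArg (fun e : TI n m × Fin 3 => e.1.1) h
    exact absurd h' (by decide)
  · change al ((true, (i, j)), 1) ≠ ((true, (i, j)), 1)
    by_cases h : j.1 < m
    · rw [al_t1 i j h]
      intro h
      exact absurd (congrArg (fun e => e.1.1) h) (by simp)
    · rw [al_t1' i j h]
      intro h
      exact absurd (congrArg (fun e => e.2) h) (by simp)
  · change al ((true, (i, j)), 2) ≠ ((true, (i, j)), 2)
    by_cases h : j.1 < m
    · rw [al_t2 i j h]
      intro h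
      exact absurd (congrArg (fun e => e.1.1) h) (by simp)
    · rw [al_t2' i j h]
      intro h
      exact absurd (congrArg (fun e => e.2) h) (by simp)

lemma glue (d : TI n m × Fin 3) : cor (al d).1 (al d).2 = cor d.1 (d.2 + 1) := by
  obtain ⟨⟨b, i, j⟩, c⟩ := d
  cases b <;> fin_cases c
  · rfl
  · change cor (al ((false, (i, j)), 1)).1 (al ((false, (i, j)), 1)).2 = bot (i + 1) j
    by_cases h : 0 < j.1
    · rw [al_f1 i j h, bot, dif_pos h]
      rfl
    · rw [al_f1' i j h, bot, dif_neg h]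
      change bot (i - 1 + 1) j = _
      rw [bot, dif_neg h]
  · change cor (al ((false, (i, j)), 2)).1 (al ((false, (i, j)), 2)).2 = Sum.inl (i + 1, j)
    by_cases h : 0 < j.1
    · rw [al_f2 i j h]
      change top (i + 1) ⟨j.1 - 1, _⟩ = _
      rw [top, dif_pos (by dsimp only; omega)]
      simp only [Sum.inl.injEq, Prod.mk.injEq, true_and]
      ext
      dsimp only
      omega
    · rw [al_f2' i j h]
      rfl
  · rfl
  · change cor (al ((true, (i, j)), 1)).1 (al ((true, (i, j)), 1)).2 = top i j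
    by_cases h : j.1 < m
    · rw [al_t1 i j h, top, dif_pos h]
      rfl
    · rw [al_t1' i j h, top, dif_neg h]
      change top (i + 1) j = _
      rw [top, dif_neg h]
  · change cor (al ((true, (i, j)), 2)).1 (al ((true, (i, j)), 2)).2 = Sum.inl (i, j)
    by_cases h : j.1 < m
    · rw [al_t2 i j h]
      change bot (i - 1 + 1) ⟨j.1 + 1, _⟩ = _
      rw [bot, dif_pos (by dsimp only; omega)]
      simp only [Sum.inl.injEq, Prod.mk.injEq, sub_add_cancel, true_and]
      ext
      dsimp only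
      omega
    · rw [al_t2' i j h]
      change Sum.inl (i - 1 + 1, j) = _
      rw [sub_add_cancel]

/-- rotation around a vertex -/
def rot (e : TI n m × Fin 3) : TI n m × Fin 3 := al (e.1, e.2 - 1)

/-- reachability by rotations -/
def Reach (d d' : TI n m × Fin 3) : Prop := ∃ k : ℕ, rot^[k] d = d'

lemma Reach.refl (d : TI n m × Fin 3) : Reach d d := ⟨0, rfl⟩

lemma Reach.trans {d d' d'' : TI n m × Fin 3} (h : Reach d d') (h' : Reach d' d'') :
    Reach d d'' := by
  obtain ⟨k, rfl⟩ := h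
  obtain ⟨l, rfl⟩ := h'
  exact ⟨l + k, Function.iterate_add_apply _ _ _ _⟩

lemma Reach.one {d d' : TI n m × Fin 3} (h : rot d = d') : Reach d d' := ⟨1, h⟩

/-- the six steps around `(i, j)` -/
lemma step1 (i : ZMod n) (j : Fin (m + 1)) (h : j.1 < m) :
    Reach ((true, (i, j)), 0) ((false, (i - 1, ⟨j.1 + 1, by omega⟩)), 2) :=
  Reach.one (al_t2 i j h)

lemma step2 (i : ZMod n) (j : Fin (m + 1)) (h : j.1 < m) :
    Reach ((false, (i - 1, ⟨j.1 + 1, by omega⟩)), 2) ((true, (i - 1, j)), 1) := by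
  apply Reach.one
  change al ((false, (i - 1, ⟨j.1 + 1, by omega⟩)), 1) = _
  rw [al_f1 _ _ (by dsimp only; omega)]
  simp

lemma step12 (i : ZMod n) (j : Fin (m + 1)) :
    Reach ((true, (i, j)), 0) ((true, (i - 1, j)), 1) := by
  by_cases h : j.1 < m
  · exact (step1 i j h).trans (step2 i j h)
  · exact Reach.one (al_t2' i j h)

lemma step3 (i : ZMod n) (j : Fin (m + 1)) :
    Reach ((true, (i, j)), 1) ((false, (i, j)), 0) := Reach.one rfl

lemma step4 (i : ZMod n) (j : Fin (m + 1)) (h : 0 < j.1) :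
    Reach ((false, (i - 1, j)), 0) ((true, (i, ⟨j.1 - 1, by omega⟩)), 2) := by
  apply Reach.one
  change al ((false, (i - 1, j)), 2) = _
  rw [al_f2 _ _ h, sub_add_cancel]

lemma step5 (i : ZMod n) (j : Fin (m + 1)) (h : 0 < j.1) :
    Reach ((true, (i, ⟨j.1 - 1, by omega⟩)), 2) ((false, (i, j)), 1) := by
  apply Reach.one
  change al ((true, (i, ⟨j.1 - 1, by omega⟩)), 1) = _
  rw [al_t1 _ _ (by dsimp only; omega)]
  simp only [Prod.mk.injEq, true_and, and_true]
  ext
  dsimp only
  omega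

lemma step45 (i : ZMod n) (j : Fin (m + 1)) :
    Reach ((false, (i - 1, j)), 0) ((false, (i, j)), 1) := by
  by_cases h : 0 < j.1
  · exact (step4 i j h).trans (step5 i j h)
  · apply Reach.one
    change al ((false, (i - 1, j)), 2) = _
    rw [al_f2' _ _ h, sub_add_cancel]

lemma step6 (i : ZMod n) (j : Fin (m + 1)) :
    Reach ((false, (i, j)), 1) ((true, (i, j)), 0) := Reach.one rfl

/-- poles -/
lemma stepN (i : ZMod n) (j : Fin (m + 1)) (h : ¬ j.1 < m) :
    Reach ((true, (i, j)), 2) ((true, (i + 1, j)), 2) := Reach.one (al_t1' i j h)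

lemma stepS (i : ZMod n) (j : Fin (m + 1)) (h : ¬ 0 < j.1) :
    Reach ((false, (i, j)), 2) ((false, (i - 1, j)), 2) := Reach.one (al_f1' i j h)

/-- corners at a lattice vertex -/
lemma lattice (d : TI n m × Fin 3) (i : ZMod n) (j : Fin (m + 1))
    (h : cor d.1 d.2 = Sum.inl (i, j)) :
    Reach ((true, (i, j)), 0) d ∧ Reach d ((true, (i, j)), 0) := by
  have c12 := step12 i j
  have c3 := step3 (i - 1) j
  have c45 := step45 i j
  have c6 := step6 i j
  obtain ⟨⟨b, i', j'⟩, c⟩ := d
  cases b <;> fin_cases c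
  · have h1 : (i' + 1, j') = (i, j) := Sum.inl_injective h
    rw [Prod.mk.injEq] at h1
    obtain ⟨rfl, rfl⟩ := h1
    have e : i' + 1 - 1 = i' := add_sub_cancel_right _ _
    rw [e] at c12 c3 c45
    exact ⟨c12.trans c3, c45.trans c6⟩
  · have h1 : (i', j') = (i, j) := Sum.inl_injective h
    rw [Prod.mk.injEq] at h1
    obtain ⟨rfl, rfl⟩ := h1
    exact ⟨(c12.trans c3).trans c45, c6⟩
  · have h0 : bot (i' + 1) j' = Sum.inl (i, j) := h
    by_cases hj : 0 < j'.1
    · rw [bot, dif_pos hj] at h0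
      have h1 := Sum.inl_injective h0
      rw [Prod.mk.injEq] at h1
      obtain ⟨rfl, rfl⟩ := h1
      have e1 : (⟨(⟨j'.1 - 1, by omega⟩ : Fin (m + 1)).1 + 1, by dsimp only; omega⟩ :
          Fin (m + 1)) = j' := by
        ext
        dsimp only
        omega
      have hj2 : j'.1 - 1 < m := by omega
      have s1 := step1 (i' + 1) (⟨j'.1 - 1, by omega⟩ : Fin (m + 1)) hj2
      have s2 := step2 (i' + 1) (⟨j'.1 - 1, by omega⟩ : Fin (m + 1)) hj2
      rw [add_sub_cancel_right, e1] at s1 s2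
      have e : i' + 1 - 1 = i' := add_sub_cancel_right _ _
      rw [e] at c3 c45
      exact ⟨s1, ((s2.trans c3).trans c45).trans c6⟩
    · rw [bot, dif_neg hj] at h0
      exact absurd h0 (by simp)
  · have h1 : (i', j') = (i, j) := Sum.inl_injective h
    rw [Prod.mk.injEq] at h1
    obtain ⟨rfl, rfl⟩ := h1
    exact ⟨Reach.refl _, Reach.refl _⟩
  · have h1 : (i' + 1, j') = (i, j) := Sum.inl_injective h
    rw [Prod.mk.injEq] at h1
    obtain ⟨rfl, rfl⟩ := h1
    have e : i' + 1 - 1 = i' := add_sub_cancel_right _ _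
    rw [e] at c12 c3 c45
    exact ⟨c12, (c3.trans c45).trans c6⟩
  · have h0 : top i' j' = Sum.inl (i, j) := h
    by_cases hj : j'.1 < m
    · rw [top, dif_pos hj] at h0
      have h1 := Sum.inl_injective h0
      rw [Prod.mk.injEq] at h1
      obtain ⟨rfl, rfl⟩ := h1
      have e1 : (⟨(⟨j'.1 + 1, by omega⟩ : Fin (m + 1)).1 - 1, by dsimp only; omega⟩ :
          Fin (m + 1)) = j' := by
        ext
        dsimp only
        omega
      have hj2 : 0 < j'.1 + 1 := by omega
      have s1 := step4 i' (⟨j'.1 + 1, by omega⟩ : Fin (m + 1)) hj2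
      have s2 := step5 i' (⟨j'.1 + 1, by omega⟩ : Fin (m + 1)) hj2
      rw [e1] at s1 s2
      exact ⟨(c12.trans c3).trans s1, s2.trans c6⟩
    · rw [top, dif_neg hj] at h0
      exact absurd h0 (by simp)

lemma reachN [NeZero n] (i i' : ZMod n) (j : Fin (m + 1)) (h : ¬ j.1 < m) :
    Reach ((true, (i, j)), 2) ((true, (i', j)), 2) := by
  have key : ∀ k : ℕ, Reach ((true, (i, j)), 2) ((true, (i + (k : ZMod n), j)), 2) := by
    intro k
    induction k with
    | zero =>
      rw [Nat.cast_zero, add_zero]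
      exact Reach.refl _
    | succ k ih =>
      have := stepN (i + (k : ZMod n)) j h
      rw [add_assoc] at this
      rw [Nat.cast_succ]
      exact ih.trans this
  have := key (i' - i).val
  rwa [ZMod.natCast_zmod_val, add_sub_cancel] at this

lemma reachS [NeZero n] (i i' : ZMod n) (j : Fin (m + 1)) (h : ¬ 0 < j.1) :
    Reach ((false, (i, j)), 2) ((false, (i', j)), 2) := by
  have key : ∀ k : ℕ, Reach ((false, (i, j)), 2) ((false, (i - (k : ZMod n), j)), 2) := by
    intro k
    induction k with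
    | zero =>
      rw [Nat.cast_zero, sub_zero]
      exact Reach.refl _
    | succ k ih =>
      have := stepS (i - (k : ZMod n)) j h
      rw [sub_sub] at this
      rw [Nat.cast_succ]
      exact ih.trans this
  have := key (i - i').val
  rwa [ZMod.natCast_zmod_val, sub_sub_cancel] at this

lemma corN (d : TI n m × Fin 3) (h : cor d.1 d.2 = Sum.inr true) :
    ∃ i j, ¬ j.1 < m ∧ d = ((true, (i, j)), 2) := by
  obtain ⟨⟨b, i', j'⟩, c⟩ := d
  cases b <;> fin_cases c
  · exact (Sum.inl_ne_inr h).elim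
  · exact (Sum.inl_ne_inr h).elim
  · have h0 : bot (i' + 1) j' = Sum.inr true := h
    unfold bot at h0
    split_ifs at h0
    exact absurd h0 (by simp)
  · exact (Sum.inl_ne_inr h).elim
  · exact (Sum.inl_ne_inr h).elim
  · refine ⟨i', j', ?_, rfl⟩
    intro hj
    have h0 : top i' j' = Sum.inr true := h
    rw [top, dif_pos hj] at h0
    exact absurd h0 (by simp)

lemma corS (d : TI n m × Fin 3) (h : cor d.1 d.2 = Sum.inr false) :
    ∃ i j, ¬ 0 < j.1 ∧ d = ((false, (i, j)), 2) := by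
  obtain ⟨⟨b, i', j'⟩, c⟩ := d
  cases b <;> fin_cases c
  · exact (Sum.inl_ne_inr h).elim
  · exact (Sum.inl_ne_inr h).elim
  · refine ⟨i', j', ?_, rfl⟩
    intro hj
    have h0 : bot (i' + 1) j' = Sum.inr false := h
    rw [bot, dif_pos hj] at h0
    exact absurd h0 (by simp)
  · exact (Sum.inl_ne_inr h).elim
  · exact (Sum.inl_ne_inr h).elim
  · have h0 : top i' j' = Sum.inr false := h
    unfold top at h0
    split_ifs at h0
    exact absurd h0 (by simp)

lemma orbit [NeZero n] (d d' : TI n m × Fin 3) (h : cor d.1 d.2 = cor d'.1 d'.2) :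
    Reach d d' := by
  rcases hq : cor d.1 d.2 with ⟨i, j⟩ | b
  · exact (lattice d i j hq).2.trans (lattice d' i j (h ▸ hq)).1
  · cases b
    · obtain ⟨i, j, hj, rfl⟩ := corS d hq
      obtain ⟨i', j', hj', rfl⟩ := corS d' (h ▸ hq)
      have : j' = j := by
        ext
        omega
      subst this
      exact reachS i i' j' hj
    · obtain ⟨i, j, hj, rfl⟩ := corN d hq
      obtain ⟨i', j', hj', rfl⟩ := corN d' (h ▸ hq)
      have : j' = j := by
        ext
        omega
      subst this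
      exact reachN i i' j' hj

lemma surj [NeZero n] (q : TQ n m) : ∃ d : TI n m × Fin 3, cor d.1 d.2 = q := by
  rcases q with ⟨i, j⟩ | b
  · exact ⟨((true, (i, j)), 0), rfl⟩
  · cases b
    · refine ⟨((false, (0, ⟨0, by omega⟩)), 2), ?_⟩
      change bot (0 + 1) ⟨0, _⟩ = _
      rw [bot, dif_neg (by simp)]
    · refine ⟨((true, (0, ⟨m, by omega⟩)), 2), ?_⟩
      change top 0 ⟨m, _⟩ = _
      rw [top, dif_neg (by simp)]

lemma conn [NeZero n] (A : Set (TI n m)) (hA : A.Nonempty)
    (h : ∀ d : TI n m × Fin 3, d.1 ∈ A → (al d).1 ∈ A) : A = univ := by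
  have hft : ∀ i j, (false, (i, j)) ∈ A → (true, (i, j)) ∈ A := fun i j hm =>
    h ((false, (i, j)), 0) hm
  have htf : ∀ i j, (true, (i, j)) ∈ A → (false, (i, j)) ∈ A := fun i j hm =>
    h ((true, (i, j)), 0) hm
  have hup : ∀ (i : ZMod n) (j : ℕ) (hj : j < m), (true, (i, (⟨j, by omega⟩ : Fin (m + 1)))) ∈ A →
      (true, (i, (⟨j + 1, by omega⟩ : Fin (m + 1)))) ∈ A := by
    intro i j hj hm
    apply hft
    have := h ((true, (i, ⟨j, by omega⟩)), 1) hm
    rwa [al_t1 _ _ (by exact hj)] at this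
  have hdown : ∀ (i : ZMod n) (j : ℕ) (hj : j < m),
      (true, (i, (⟨j + 1, by omega⟩ : Fin (m + 1)))) ∈ A →
      (true, (i, (⟨j, by omega⟩ : Fin (m + 1)))) ∈ A := by
    intro i j hj hm
    have := h ((false, (i, ⟨j + 1, by omega⟩)), 1) (htf _ _ hm)
    rwa [al_f1 _ _ (by simp)] at this
  have hside : ∀ i : ZMod n, (true, (i, (⟨m, by omega⟩ : Fin (m + 1)))) ∈ A →
      (true, (i + 1, (⟨m, by omega⟩ : Fin (m + 1)))) ∈ A := by
    intro i hm
    have := h ((true, (i, ⟨m, by omega⟩)), 1) hm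
    rwa [al_t1' _ _ (by simp)] at this
  obtain ⟨⟨b, i0, j0⟩, hm⟩ := hA
  have h1 : (true, (i0, j0)) ∈ A := by
    cases b
    · exact hft _ _ hm
    · exact hm
  have h2 : ∀ k : ℕ, ∀ hk : j0.1 + k ≤ m,
      (true, (i0, (⟨j0.1 + k, by omega⟩ : Fin (m + 1)))) ∈ A := by
    intro k
    induction k with
    | zero => intro _; exact h1
    | succ k ih =>
      intro hk
      exact hup i0 (j0.1 + k) (by omega) (ih (by omega))
  have h3 : (true, (i0, (⟨m, by omega⟩ : Fin (m + 1)))) ∈ A := by
    have := h2 (m - j0.1) (by omega)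
    have e : (⟨j0.1 + (m - j0.1), by omega⟩ : Fin (m + 1)) = ⟨m, by omega⟩ := by
      ext
      dsimp only
      omega
    rwa [e] at this
  have h4 : ∀ k : ℕ, (true, (i0 + (k : ZMod n), (⟨m, by omega⟩ : Fin (m + 1)))) ∈ A := by
    intro k
    induction k with
    | zero => rw [Nat.cast_zero, add_zero]; exact h3
    | succ k ih =>
      have := hside _ ih
      rwa [add_assoc, ← Nat.cast_succ] at this
  have h5 : ∀ i : ZMod n, (true, (i, (⟨m, by omega⟩ : Fin (m + 1)))) ∈ A := by
    intro i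
    have := h4 (i - i0).val
    rwa [ZMod.natCast_zmod_val, add_sub_cancel] at this
  have h6 : ∀ (i : ZMod n) (k : ℕ), k ≤ m →
      (true, (i, (⟨m - k, by omega⟩ : Fin (m + 1)))) ∈ A := by
    intro i k
    induction k with
    | zero => intro _; exact h5 i
    | succ k ih =>
      intro hk
      have e : (⟨m - k, by omega⟩ : Fin (m + 1)) = ⟨m - (k + 1) + 1, by omega⟩ := by
        ext
        dsimp only
        omega
      have := ih (by omega)
      rw [e] at this
      exact hdown i (m - (k + 1)) (by omega) this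
  rw [eq_univ_iff_forall]
  rintro ⟨b, i, j⟩
  have h7 : (true, (i, j)) ∈ A := by
    have := h6 i (m - j.1) (by omega)
    have e : (⟨m - (m - j.1), by omega⟩ : Fin (m + 1)) = j := by
      ext
      dsimp only
      omega
    rwa [e] at this
  cases b
  · exact htf _ _ h7
  · exact h7

/-- the triangulated sphere -/
def sphere (n m : ℕ) [NeZero n] : TriSphere (TI n m) (TQ n m) where
  a := cor
  α := al
  inv := al_al
  fpf := al_ne
  glue := glue
  orbit := orbit
  surj := surj
  euler := by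
    simp only [Fintype.card_sum, Fintype.card_prod, Fintype.card_bool]
    ring
  conn := conn

/-- the embedding of the box -/
def emb (M : ℕ) (p : ℤ × ℤ) : TQ (2 * M + 2) (2 * M) :=
  Sum.inl ((p.1 : ZMod (2 * M + 2)), ⟨min (p.2 + M).toNat (2 * M), by omega⟩)

lemma emb_inj (M : ℕ) {p q : ℤ × ℤ} (hp : InBox M p) (hq : InBox M q) (h : emb M p = emb M q) :
    p = q := by
  have h1 := Sum.inl_injective h
  rw [Prod.mk.injEq, Fin.mk.injEq] at h1
  obtain ⟨h2, h3⟩ := h1
  obtain ⟨hp1, hp2⟩ := hp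
  obtain ⟨hq1, hq2⟩ := hq
  rw [abs_le] at hp1 hp2 hq1 hq2
  have h4 : p.2 = q.2 := by omega
  have h5 : p.1 = q.1 := by
    rw [ZMod.intCast_eq_intCast_iff_dvd_sub] at h2
    obtain ⟨c, hc⟩ := h2
    push_cast at hc
    have hc0 : c = 0 := by
      by_contra hne
      rcases lt_or_gt_of_ne hne with hlt | hlt
      · have : (2 * (M : ℤ) + 2) * c ≤ (2 * (M : ℤ) + 2) * (-1) :=
          mul_le_mul_of_nonneg_left (by omega) (by omega)
        omega
      · have : (2 * (M : ℤ) + 2) * 1 ≤ (2 * (M : ℤ) + 2) * c :=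
          mul_le_mul_of_nonneg_left (by omega) (by omega)
        omega
    rw [hc0, mul_zero] at hc
    omega
  exact Prod.ext h5 h4

/-- the three positive directions -/
lemma emb_adj (M : ℕ) {p q : ℤ × ℤ} (hp : InBox M p) (hq : InBox M q)
    (h : (q.1 = p.1 + 1 ∧ q.2 = p.2) ∨ (q.1 = p.1 ∧ q.2 = p.2 + 1) ∨
      (q.1 = p.1 + 1 ∧ p.2 = q.2 + 1)) :
    (sphere (2 * M + 2) (2 * M)).graph.Adj (emb M p) (emb M q) := by
  have hpq : emb M p ≠ emb M q := by
    intro he
    have := emb_inj M hp hq he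
    subst this
    omega
  obtain ⟨hp1, hp2⟩ := hp
  obtain ⟨hq1, hq2⟩ := hq
  rw [abs_le] at hp1 hp2 hq1 hq2
  rcases h with ⟨h1, h2⟩ | ⟨h1, h2⟩ | ⟨h1, h2⟩
  · refine ⟨hpq, ((true, ((p.1 : ZMod (2 * M + 2)),
      ⟨min (p.2 + M).toNat (2 * M), by omega⟩)), 0), rfl, ?_⟩
    have hq' : q = (p.1 + 1, p.2) := Prod.ext h1 h2
    subst hq'
    change Sum.inl _ = Sum.inl _
    push_cast
    rfl
  · -- reversed side 2 of the triangle `(true, p)`
    refine SimpleGraph.Adj.symm ⟨hpq.symm, ((true, ((p.1 : ZMod (2 * M + 2)),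
      ⟨min (p.2 + M).toNat (2 * M), by omega⟩)), 2), ?_, rfl⟩
    change top _ _ = emb M q
    rw [top, dif_pos (by dsimp only; omega), emb, h1]
    simp only [Sum.inl.injEq, Prod.mk.injEq, Fin.mk.injEq, true_and]
    omega
  · -- side 1 of the triangle `(true, p.1, q.2)` reversed
    refine SimpleGraph.Adj.symm ⟨hpq.symm, ((true, ((p.1 : ZMod (2 * M + 2)),
      ⟨min (q.2 + M).toNat (2 * M), by omega⟩)), 1), ?_, ?_⟩
    · change Sum.inl _ = emb M q
      rw [emb, h1]
      push_cast
      rfl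
    · change top _ _ = emb M p
      rw [top, dif_pos (by dsimp only; omega), emb]
      simp only [Sum.inl.injEq, Prod.mk.injEq, Fin.mk.injEq, true_and]
      omega

end GridSphere

open GridSphere in
theorem grid_sphere (M : ℕ) :
    ∃ (I Q : Type) (_ : Fintype I) (_ : Fintype Q) (S : TriSphere I Q) (f : ℤ × ℤ → Q) (r : Q),
      (∀ p q, InBox M p → InBox M q → f p = f q → p = q) ∧
      (∀ p q, InBox M p → InBox M q → triLat.Adj p q → S.graph.Adj (f p) (f q)) ∧
      ∀ p, InBox M p → f p ≠ r := by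
  refine ⟨TI (2 * M + 2) (2 * M), TQ (2 * M + 2) (2 * M), inferInstance, inferInstance,
    sphere (2 * M + 2) (2 * M), emb M, Sum.inr true, fun p q hp hq h => emb_inj M hp hq h, ?_,
    fun p _ => by simp [emb]⟩
  intro p q hp hq h
  rcases h with h | h | h | h | h | h
  · exact emb_adj M hp hq (Or.inl h)
  · exact (emb_adj M hq hp (Or.inl ⟨h.1, h.2.symm⟩)).symm
  · exact emb_adj M hp hq (Or.inr (Or.inl h))
  · exact (emb_adj M hq hp (Or.inr (Or.inl ⟨h.1.symm, h.2⟩))).symm
  · exact emb_adj M hp hq (Or.inr (Or.inr h))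
  · exact (emb_adj M hq hp (Or.inr (Or.inr h))).symm

end KPT
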