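import Pool.Agent.Lib.KPL.TDefs
import Pool.Agent.Lib.KPL.A4

/-!
# Module T2 (helper92): planar facts pass to contractions
-/

set_option autoImplicit false

namespace KPT

open Set KPL

/-! ### connectedness -/

lemma T2_reach {Q Q' : Type} (N : SimpleGraph Q) (π : Q → Q') {x y : Q} (h : N.Reachable x y) :
    (quo N π).Reachable (π x) (π y) := by
  obtain ⟨w⟩ := h
  induction w with
  | nil => exact SimpleGraph.Reachable.refl _
  | @cons a b c hab _ ih =>
    refine SimpleGraph.Reachable.trans ?_ ih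
    by_cases hE : π a = π b
    · rw [hE]
    · exact SimpleGraph.Adj.reachable ⟨hE, a, b, rfl, rfl, hab⟩

theorem quo_connected {Q Q' : Type} (N : SimpleGraph Q) (π : Q → Q')
    (hπ : ∀ a, (N.induce {x | π x = a}).Connected) (hN : N.Connected) : (quo N π).Connected := by
  obtain ⟨x0⟩ := hN.nonempty
  haveI : Nonempty Q' := ⟨π x0⟩
  refine ⟨?_⟩
  intro a b
  obtain ⟨x, hx⟩ := (hπ a).nonempty
  obtain ⟨y, hy⟩ := (hπ b).nonempty
  have hx' : π x = a := hx
  have hy' : π y = b := hy
  rw [← hx', ← hy']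
  exact T2_reach N π (hN.preconnected x y)

/-- preimages of connected sets are connected -/
lemma T2_preimage {Q Q' : Type} (N : SimpleGraph Q) (π : Q → Q')
    (hπ : ∀ a, (N.induce {x | π x = a}).Connected) (A : Set Q')
    (hA : ((quo N π).induce A).Connected) : (N.induce (π ⁻¹' A)).Connected := by
  have hsub : ∀ a ∈ A, {x | π x = a} ⊆ π ⁻¹' A := by
    intro a ha x hx
    have hx' : π x = a := hx
    rw [mem_preimage, hx']
    exact ha
  have hloc : ∀ a (ha : a ∈ A) (x y : Q) (hx : π x = a) (hy : π y = a),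
      (N.induce (π ⁻¹' A)).Reachable ⟨x, hsub a ha hx⟩ ⟨y, hsub a ha hy⟩ := by
    intro a ha x y hx hy
    have h1 := (hπ a).preconnected ⟨x, hx⟩ ⟨y, hy⟩
    exact h1.map (SimpleGraph.induceHomOfLE N (hsub a ha)).toHom
  have hwalk : ∀ (a b : A), ((quo N π).induce A).Walk a b → ∀ (x y : Q) (hx : π x = a)
      (hy : π y = b),
      (N.induce (π ⁻¹' A)).Reachable ⟨x, hsub a a.2 hx⟩ ⟨y, hsub b b.2 hy⟩ := by
    intro a b w
    induction w with
    | nil =>
      intro x y hx hy
      exact hloc _ (Subtype.mem _) x y hx hy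
    | @cons a b c h w ih =>
      intro x y hx hy
      obtain ⟨_, u, v, hu, hv, huv⟩ := h
      have hu' : π u = a := hu
      have hv' : π v = b := hv
      refine (hloc a a.2 x u hx hu').trans (SimpleGraph.Reachable.trans ?_ (ih v y hv' hy))
      apply SimpleGraph.Adj.reachable
      exact huv
  obtain ⟨a0⟩ := hA.nonempty
  obtain ⟨x0⟩ := (hπ a0).nonempty
  haveI : Nonempty (π ⁻¹' A) := ⟨⟨x0.1, hsub a0 a0.2 x0.2⟩⟩
  refine ⟨?_⟩
  rintro ⟨x, hx⟩ ⟨y, hy⟩
  obtain ⟨w⟩ := hA.preconnected ⟨π x, hx⟩ ⟨π y, hy⟩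
  exact hwalk _ _ w x y rfl rfl

theorem quo_noK33 {Q Q' : Type} (N : SimpleGraph Q) (π : Q → Q')
    (hπ : ∀ a, (N.induce {x | π x = a}).Connected) (hN : NoK33 N) : NoK33 (quo N π) := by
  rintro ⟨A, B, hA, hB, hAA, hBB, hAB, hadj⟩
  apply hN
  refine ⟨fun i => π ⁻¹' (A i), fun i => π ⁻¹' (B i), fun i => T2_preimage N π hπ _ (hA i),
    fun i => T2_preimage N π hπ _ (hB i), fun i j hij => (hAA i j hij).preimage π,
    fun i j hij => (hBB i j hij).preimage π, fun i j => (hAB i j).preimage π, ?_⟩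
  intro i j
  obtain ⟨a, ha, b, hb, _, x, y, hx, hy, hxy⟩ := hadj i j
  refine ⟨x, ?_, y, ?_, hxy⟩
  · rw [mem_preimage, hx]; exact ha
  · rw [mem_preimage, hy]; exact hb

/-! ### lifting a rooted spanning tree -/

/-- a rooted spanning tree inside a connected graph (parent = a neighbour which is closer to the root) -/
lemma T2_rst {Q : Type} (N : SimpleGraph Q) (hN : N.Connected) (r : Q) :
    ∃ p : Q → Q, (∀ z, z ≠ r → N.Adj z (p z)) ∧ ∀ z, z ≠ r → N.dist (p z) r < N.dist z r := by
  classical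
  have h : ∀ z, ∃ w, z ≠ r → N.Adj z w ∧ N.dist w r < N.dist z r := by
    intro z
    by_cases hz : z = r
    · exact ⟨z, fun h => absurd hz h⟩
    · obtain ⟨w, hw⟩ := (hN.preconnected z r).exists_walk_length_eq_dist
      cases w with
      | nil => exact absurd rfl hz
      | @cons _ b _ hab w' =>
        refine ⟨b, fun _ => ⟨hab, ?_⟩⟩
        rw [SimpleGraph.Walk.length_cons] at hw
        have := SimpleGraph.dist_le w'
        omega
  choose p hp using h
  exact ⟨p, fun z hz => (hp z hz).1, fun z hz => (hp z hz).2⟩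

/-- lift of a rooted spanning tree of the quotient -/
lemma T2_lift {Q Q' : Type} (N : SimpleGraph Q) (π : Q → Q')
    (hπ : ∀ a, (N.induce {x | π x = a}).Connected) (r' : Q') (p' : Q' → Q')
    (h : IsRST (quo N π) r' p') :
    ∃ (r : Q) (p : Q → Q), IsRST N r p ∧ ∀ z, π '' rp p z = rp p' (π z) := by
  classical
  -- the exits of the blocks
  have h1 : ∀ a, ∃ x y : Q, π x = a ∧ (a ≠ r' → π y = p' a ∧ N.Adj x y) := by
    intro a
    by_cases ha : a = r'
    · obtain ⟨x, hx⟩ := (hπ a).nonempty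
      exact ⟨x, x, hx, fun h => absurd ha h⟩
    · obtain ⟨_, x, y, hx, hy, hxy⟩ := h.adj a ha
      exact ⟨x, y, hx, fun _ => ⟨hy, hxy⟩⟩
  choose X Y hX hY using h1
  -- the trees of the blocks
  have h3 : ∀ a, ∃ (q : Q → Q) (m : Q → ℕ), ∀ z, π z = a → z ≠ X a → π (q z) = a ∧ N.Adj z (q z) ∧
      m (q z) < m z := by
    intro a
    obtain ⟨q, hq1, hq2⟩ := T2_rst _ (hπ a) ⟨X a, hX a⟩
    refine ⟨fun z => if hz : π z = a then (q ⟨z, hz⟩).1 else z,
      fun z => if hz : π z = a then (N.induce {x | π x = a}).dist ⟨z, hz⟩ ⟨X a, hX a⟩ else 0, ?_⟩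
    intro z hz hzX
    have hne : (⟨z, hz⟩ : {x | π x = a}) ≠ ⟨X a, hX a⟩ := fun h => hzX (congrArg Subtype.val h)
    have h4 := hq1 ⟨z, hz⟩ hne
    have h5 := hq2 ⟨z, hz⟩ hne
    have h6 : π (q ⟨z, hz⟩).1 = a := (q ⟨z, hz⟩).2
    refine ⟨?_, ?_, ?_⟩
    · simp only [hz, dif_pos, h6]
    · simp only [hz, dif_pos]
      exact h4
    · simp only [hz, dif_pos, h6]
      exact h5
  choose q m hq using h3
  set p : Q → Q := fun z => if z = X (π z) then (if π z = r' then z else Y (π z)) else q (π z) z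
    with hp
  have pX : ∀ a, a ≠ r' → p (X a) = Y a := by
    intro a ha
    simp only [hp, hX, if_true, if_neg ha]
  have pr : p (X r') = X r' := by
    simp only [hp, hX, if_true]
  have pq : ∀ z, z ≠ X (π z) → p z = q (π z) z := by
    intro z hz
    simp only [hp, if_neg hz]
  -- inside a block one reaches the exit
  have hin : ∀ (n : ℕ) (z : Q), m (π z) z ≤ n → ∃ k, p^[k] z = X (π z) ∧
      ∀ i ≤ k, π (p^[i] z) = π z := by
    intro n
    induction n with
    | zero =>
      intro z hz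
      by_cases hzX : z = X (π z)
      · exact ⟨0, hzX, fun i hi => by rw [Nat.le_zero.mp hi]; rfl⟩
      · have := (hq (π z) z rfl hzX).2.2
        omega
    | succ n ih =>
      intro z hz
      by_cases hzX : z = X (π z)
      · exact ⟨0, hzX, fun i hi => by rw [Nat.le_zero.mp hi]; rfl⟩
      · obtain ⟨h4, _, h5⟩ := hq (π z) z rfl hzX
        have h6 : π (p z) = π z := by rw [pq z hzX]; exact h4
        obtain ⟨k, hk1, hk2⟩ := ih (p z) (by rw [h6, pq z hzX]; omega)
        refine ⟨k + 1, ?_, ?_⟩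
        · rw [Function.iterate_succ_apply, hk1, h6]
        · intro i hi
          cases i with
          | zero => rfl
          | succ i =>
            rw [Function.iterate_succ_apply, hk2 i (by omega), h6]
  -- one step changes the block to the parent block or not at all
  have hstep : ∀ z, π (p z) = π z ∨ π (p z) = p' (π z) := by
    intro z
    by_cases hzX : z = X (π z)
    · by_cases hr : π z = r'
      · left
        simp only [hp, if_pos hzX, if_pos hr]
      · right
        have : p z = Y (π z) := by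
          simp only [hp, if_pos hzX, if_neg hr]
        rw [this]
        exact (hY (π z) hr).1
    · left
      rw [pq z hzX]
      exact (hq (π z) z rfl hzX).1
  refine ⟨X r', p, ⟨pr, ?_, ?_⟩, ?_⟩
  · intro z hz
    by_cases hzX : z = X (π z)
    · by_cases hr : π z = r'
      · exfalso
        apply hz
        rw [hr] at hzX
        exact hzX
      · have h4 : p z = Y (π z) := by
          simp only [hp, if_pos hzX, if_neg hr]
        rw [h4]
        have h5 := (hY (π z) hr).2
        rw [← hzX] at h5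
        exact h5
    · rw [pq z hzX]
      exact (hq (π z) z rfl hzX).2.1
  · -- reach
    have hr : ∀ (n : ℕ) (z : Q), p'^[n] (π z) = r' → ∃ k, p^[k] z = X r' := by
      intro n
      induction n with
      | zero =>
        intro z hz
        have hz' : π z = r' := hz
        obtain ⟨k, hk, _⟩ := hin _ z le_rfl
        exact ⟨k, by rw [hk, hz']⟩
      | succ n ih =>
        intro z hz
        by_cases hr : π z = r'
        · obtain ⟨k, hk, _⟩ := hin _ z le_rfl
          exact ⟨k, by rw [hk, hr]⟩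
        · obtain ⟨k, hk, _⟩ := hin _ z le_rfl
          obtain ⟨l, hl⟩ := ih (Y (π z)) (by
            rw [(hY (π z) hr).1, ← Function.iterate_succ_apply]
            exact hz)
          refine ⟨l + (1 + k), ?_⟩
          rw [Function.iterate_add_apply, Function.iterate_add_apply, hk, Function.iterate_one,
            pX _ hr, hl]
    intro z
    obtain ⟨n, hn⟩ := h.reach (π z)
    exact hr n z hn
  · intro z
    ext b
    constructor
    · rintro ⟨w, ⟨n, hn⟩, hw⟩
      have : ∀ n, ∃ k, π (p^[n] z) = p'^[k] (π z) := by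
        intro n
        induction n with
        | zero => exact ⟨0, rfl⟩
        | succ n ih =>
          obtain ⟨k, hk⟩ := ih
          rw [Function.iterate_succ_apply']
          rcases hstep (p^[n] z) with h4 | h4
          · exact ⟨k, by rw [h4, hk]⟩
          · exact ⟨k + 1, by rw [h4, hk, Function.iterate_succ_apply']⟩
      obtain ⟨k, hk⟩ := this n
      exact ⟨k, by rw [← hk, hn, hw]⟩
    · rintro ⟨k, hk⟩
      have : ∀ k, ∃ n, π (p^[n] z) = p'^[k] (π z) := by
        intro k
        induction k with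
        | zero => exact ⟨0, rfl⟩
        | succ k ih =>
          obtain ⟨n, hn⟩ := ih
          by_cases hr : π (p^[n] z) = r'
          · refine ⟨n, ?_⟩
            rw [Function.iterate_succ_apply', ← hn, hr, h.root]
          · obtain ⟨l, hl, _⟩ := hin _ (p^[n] z) le_rfl
            refine ⟨1 + (l + n), ?_⟩
            rw [Function.iterate_add_apply, Function.iterate_add_apply, hl, Function.iterate_one,
              pX _ hr, (hY _ hr).1, hn, Function.iterate_succ_apply']
      obtain ⟨n, hn⟩ := this k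
      exact ⟨p^[n] z, ⟨n, rfl⟩, by rw [hn, hk]⟩

theorem quo_treeProp {Q Q' : Type} [Finite Q] (N : SimpleGraph Q) (π : Q → Q')
    (hπ : ∀ a, (N.induce {x | π x = a}).Connected) (hN : TreeProp N) : TreeProp (quo N π) := by
  intro r' p' h
  obtain ⟨r, p, hp, himg⟩ := T2_lift N π hπ r' p' h
  obtain ⟨I, hI, T, a, hT, h1, h2⟩ := hN r p hp
  have hmem : ∀ (b : Q') (z : Q), b ∈ rp p' (π z) ↔ ∃ w, π w = b ∧ w ∈ rp p z := by
    intro b z
    rw [← himg z]
    constructor
    · rintro ⟨w, hw1, hw2⟩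
      exact ⟨w, hw2, hw1⟩
    · rintro ⟨w, hw2, hw1⟩
      exact ⟨w, hw1, hw2⟩
  refine ⟨I, hI, T, fun i c => π (a i c), hT, ?_, ?_⟩
  · rintro b b' ⟨_, x, y, hx, hy, hxy⟩
    obtain ⟨i, ⟨c, hc⟩, ⟨c', hc'⟩⟩ := h1 x y hxy
    exact ⟨i, ⟨c, (hmem _ _).2 ⟨x, hx, hc⟩⟩, ⟨c', (hmem _ _).2 ⟨y, hy, hc'⟩⟩⟩
  · intro b
    have h3 := union_connected N T (fun z => {i | ∃ c, z ∈ rp p (a i c)}) h2
      (fun z w hzw => by
        obtain ⟨i, hi1, hi2⟩ := h1 z w hzw
        exact ⟨i, hi1, hi2⟩) {x | π x = b} (hπ b)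
    have h4 : {i | ∃ c, b ∈ rp p' (π (a i c))} =
        {i | ∃ z ∈ {x | π x = b}, i ∈ (fun z => {i | ∃ c, z ∈ rp p (a i c)}) z} := by
      ext i
      simp only [mem_ofPred_eq]
      constructor
      · rintro ⟨c, hc⟩
        obtain ⟨w, hw1, hw2⟩ := (hmem _ _).1 hc
        exact ⟨w, hw1, c, hw2⟩
      · rintro ⟨w, hw1, c, hw2⟩
        exact ⟨c, (hmem _ _).2 ⟨w, hw1, hw2⟩⟩
    rw [h4]
    exact h3

end KPT
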