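import Pool.Agent.Lib.KPL.TDefs

/-! Module T3: brick geometry. -/

set_option autoImplicit false

namespace KPT

open Set KPL

theorem brick_cover (h : ℝ) (hh : 0 < h) (z : ℝ × ℝ) : ∃ p, z ∈ brick h p := by
  refine ⟨(⌊z.1 / h - (⌊z.2 / h⌋ : ℝ) / 2⌋, ⌊z.2 / h⌋), ?_⟩
  have h1 := Int.floor_le (z.2 / h)
  have h2 := (Int.lt_floor_add_one (z.2 / h)).le
  have h3 := Int.floor_le (z.1 / h - (⌊z.2 / h⌋ : ℝ) / 2)
  have h4 := (Int.lt_floor_add_one (z.1 / h - (⌊z.2 / h⌋ : ℝ) / 2)).le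
  have e1 : z.1 = h * (z.1 / h) := by field_simp
  have e2 : z.2 = h * (z.2 / h) := by field_simp
  simp only [brick, mem_setOf_eq]
  refine ⟨?_, ?_, ?_, ?_⟩
  · conv_rhs => rw [e1]
    exact mul_le_mul_of_nonneg_left (by linarith) hh.le
  · conv_lhs => rw [e1]
    exact mul_le_mul_of_nonneg_left (by linarith) hh.le
  · conv_rhs => rw [e2]
    exact mul_le_mul_of_nonneg_left (by linarith) hh.le
  · conv_lhs => rw [e2]
    exact mul_le_mul_of_nonneg_left (by linarith) hh.le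

theorem brick_touch (h : ℝ) (hh : 0 < h) (p q : ℤ × ℤ) (hpq : (brick h p ∩ brick h q).Nonempty) :
    p = q ∨ triLat.Adj p q := by
  obtain ⟨z, ⟨a1, a2, a3, a4⟩, b1, b2, b3, b4⟩ := hpq
  obtain ⟨p1, p2⟩ := p
  obtain ⟨q1, q2⟩ := q
  simp only at a1 a2 a3 a4 b1 b2 b3 b4
  have c1 := le_of_mul_le_mul_left (a1.trans b2) hh
  have c2 := le_of_mul_le_mul_left (b1.trans a2) hh
  have c3 := le_of_mul_le_mul_left (a3.trans b4) hh
  have c4 := le_of_mul_le_mul_left (b3.trans a4) hh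
  have d1 : 2 * p1 + p2 ≤ 2 * q1 + 2 + q2 := by
    have : (2 * p1 + p2 : ℝ) ≤ 2 * q1 + 2 + q2 := by linarith
    exact_mod_cast this
  have d2 : 2 * q1 + q2 ≤ 2 * p1 + 2 + p2 := by
    have : (2 * q1 + q2 : ℝ) ≤ 2 * p1 + 2 + p2 := by linarith
    exact_mod_cast this
  have d3 : p2 ≤ q2 + 1 := by exact_mod_cast c3
  have d4 : q2 ≤ p2 + 1 := by exact_mod_cast c4
  rw [Prod.mk.injEq]
  simp only [triLat]
  omega

theorem bset_box (h : ℝ) (hh : 0 < h) (K : Set (ℝ × ℝ)) (hK : IsCompact K) :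
    ∃ M : ℕ, ∀ p ∈ bset h K, InBox M p := by
  obtain ⟨R, hR⟩ := hK.isBounded.exists_norm_le
  obtain ⟨M, hM⟩ := exists_nat_ge (2 * (R / h) + 3)
  refine ⟨M, ?_⟩
  rintro ⟨p1, p2⟩ ⟨z, ⟨a1, a2, a3, a4⟩, hz⟩
  simp only at a1 a2 a3 a4
  have h0 := hR z hz
  have h1 : |z.1| ≤ R := (norm_fst_le z).trans h0
  have h2 : |z.2| ≤ R := (norm_snd_le z).trans h0
  rw [abs_le] at h1 h2
  have e1 : R = h * (R / h) := by field_simp
  set r := R / h with hr
  rw [e1] at h1 h2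
  have b1 : (p1 : ℝ) + (p2 : ℝ) / 2 ≤ r := le_of_mul_le_mul_left (a1.trans h1.2) hh
  have b2 : -r ≤ (p1 : ℝ) + 1 + (p2 : ℝ) / 2 :=
    le_of_mul_le_mul_left ((show h * -r ≤ _ by linarith [h1.1]).trans a2) hh
  have b3 : (p2 : ℝ) ≤ r := le_of_mul_le_mul_left (a3.trans h2.2) hh
  have b4 : -r ≤ (p2 : ℝ) + 1 :=
    le_of_mul_le_mul_left ((show h * -r ≤ _ by linarith [h2.1]).trans a4) hh
  have c1 : |(p1 : ℝ)| ≤ M := by
    rw [abs_le]
    constructor <;> linarith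
  have c2 : |(p2 : ℝ)| ≤ M := by
    rw [abs_le]
    constructor <;> linarith
  constructor
  · exact_mod_cast c1
  · exact_mod_cast c2

lemma T3_isClosed_brick (h : ℝ) (p : ℤ × ℤ) : IsClosed (brick h p) := by
  have h1 : Continuous fun z : ℝ × ℝ => z.1 := continuous_fst
  have h2 : Continuous fun z : ℝ × ℝ => z.2 := continuous_snd
  exact (isClosed_le continuous_const h1).inter ((isClosed_le h1 continuous_const).inter
    ((isClosed_le continuous_const h2).inter (isClosed_le h2 continuous_const)))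

lemma T3_bset_finite (h : ℝ) (hh : 0 < h) (K : Set (ℝ × ℝ)) (hK : IsCompact K) :
    (bset h K).Finite := by
  obtain ⟨M, hM⟩ := bset_box h hh K hK
  refine ((Set.finite_Icc (-(M : ℤ)) M).prod (Set.finite_Icc (-(M : ℤ)) M)).subset ?_
  intro p hp
  have := hM p hp
  exact ⟨abs_le.1 this.1, abs_le.1 this.2⟩

theorem bset_connected (h : ℝ) (hh : 0 < h) (K : Set (ℝ × ℝ)) (hK : IsCompact K)
    (hc : IsConnected K) : (triLat.induce (bset h K)).Connected := by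
  obtain ⟨z0, hz0⟩ := hc.nonempty
  obtain ⟨p0, hp0⟩ := brick_cover h hh z0
  have hp0K : p0 ∈ bset h K := ⟨z0, hp0, hz0⟩
  have hfin := T3_bset_finite h hh K hK
  have key : ∀ q : bset h K, (triLat.induce (bset h K)).Reachable ⟨p0, hp0K⟩ q := by
    intro q
    by_contra hq
    let A : Set (ℤ × ℤ) := {p | ∃ hp : p ∈ bset h K,
      (triLat.induce (bset h K)).Reachable ⟨p0, hp0K⟩ ⟨p, hp⟩}
    have hA : A ⊆ bset h K := fun p hp => hp.1
    have c1 : IsClosed (⋃ p ∈ A, brick h p) :=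
      (hfin.subset hA).isClosed_biUnion fun p _ => T3_isClosed_brick h p
    have c2 : IsClosed (⋃ p ∈ bset h K \ A, brick h p) :=
      (hfin.subset diff_subset).isClosed_biUnion fun p _ => T3_isClosed_brick h p
    have hcov : K ⊆ (⋃ p ∈ A, brick h p) ∪ ⋃ p ∈ bset h K \ A, brick h p := by
      intro z hz
      obtain ⟨p, hp⟩ := brick_cover h hh z
      by_cases hpA : p ∈ A
      · exact Or.inl (mem_biUnion hpA hp)
      · exact Or.inr (mem_biUnion (⟨⟨z, hp, hz⟩, hpA⟩ : p ∈ bset h K \ A) hp)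
    have n1 : (K ∩ ⋃ p ∈ A, brick h p).Nonempty :=
      ⟨z0, hz0, mem_biUnion (⟨hp0K, SimpleGraph.Reachable.refl _⟩ : p0 ∈ A) hp0⟩
    have n2 : (K ∩ ⋃ p ∈ bset h K \ A, brick h p).Nonempty := by
      obtain ⟨z, hz1, hz2⟩ := q.2
      refine ⟨z, hz2, mem_biUnion (⟨q.2, ?_⟩ : (q : ℤ × ℤ) ∈ bset h K \ A) hz1⟩
      rintro ⟨_, hr⟩
      exact hq hr
    obtain ⟨z, hzK, hz1, hz2⟩ := isPreconnected_closed_iff.1 hc.isPreconnected _ _ c1 c2 hcov n1 n2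
    rw [mem_iUnion₂] at hz1 hz2
    obtain ⟨p, ⟨hp, hr⟩, hzp⟩ := hz1
    obtain ⟨p', ⟨hp', hpA'⟩, hzp'⟩ := hz2
    rcases brick_touch h hh p p' ⟨z, hzp, hzp'⟩ with he | hadj
    · exact hpA' (he ▸ ⟨hp, hr⟩)
    · refine hpA' ⟨hp', hr.trans ?_⟩
      have : (triLat.induce (bset h K)).Adj ⟨p, hp⟩ ⟨p', hp'⟩ := hadj
      exact this.reachable
  exact
    { preconnected := fun a b => (key a).symm.trans (key b)
      nonempty := ⟨⟨p0, hp0K⟩⟩ }

theorem bset_disjoint (K K' : Set (ℝ × ℝ)) (hK : IsCompact K) (hK' : IsCompact K')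
    (hd : Disjoint K K') : ∃ h0 > 0, ∀ h, 0 < h → h < h0 → Disjoint (bset h K) (bset h K') := by
  obtain ⟨δ, hδ, hdis⟩ := hd.exists_thickenings hK hK'.isClosed
  refine ⟨δ, hδ, fun h hh hhδ => ?_⟩
  rw [Set.disjoint_left]
  rintro ⟨p1, p2⟩ ⟨x, ⟨a1, a2, a3, a4⟩, hx⟩ ⟨y, ⟨b1, b2, b3, b4⟩, hy⟩
  simp only at a1 a2 a3 a4 b1 b2 b3 b4
  have hxy : dist x y ≤ h := by
    rw [Prod.dist_eq, max_le_iff, Real.dist_eq, Real.dist_eq, abs_le, abs_le]
    refine ⟨⟨?_, ?_⟩, ?_, ?_⟩ <;> nlinarith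
  have h1 : x ∈ Metric.thickening δ K := Metric.mem_thickening_iff.2 ⟨x, hx, by simpa using hδ⟩
  have h2 : x ∈ Metric.thickening δ K' := Metric.mem_thickening_iff.2 ⟨y, hy, by linarith⟩
  exact Set.disjoint_left.1 hdis h1 h2

end KPT
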