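import Pool.Agent.Lib.KPL.T3

/-! Module T4: a topological drawing gives a discrete drawing. -/

set_option autoImplicit false

namespace KPT

open Set KPL Filter Topology

lemma InBox.mono {M N : ℕ} (h : M ≤ N) {p : ℤ × ℤ} (hp : InBox M p) : InBox N p := by
  have : (M : ℤ) ≤ N := by exact_mod_cast h
  exact ⟨hp.1.trans this, hp.2.trans this⟩

theorem kplanar_disc {V : Type} [Finite V] (k : ℕ) (G : SimpleGraph V) (h : IsKPlanar k G) :
    Nonempty (Disc G k) := by
  classical
  obtain ⟨D, hD⟩ := h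
  have : Fintype V := Fintype.ofFinite V
  -- end vertices of an edge
  have hout : ∀ e : G.edgeSet, ∃ u v : V, ∃ _ : G.Adj u v, e.1 = s(u, v) := by
    rintro ⟨e, he⟩
    induction e using Sym2.ind with
    | _ u v => exact ⟨u, v, he, rfl⟩
  choose a b hab heq using hout
  set γ : G.edgeSet → ℝ → ℝ × ℝ := fun e => (D.arc (a e) (b e) (hab e)).extend with hγ
  have hγc : ∀ e, Continuous (γ e) := fun e => (D.arc (a e) (b e) (hab e)).continuous_extend
  have hγ0 : ∀ e, γ e 0 = D.pt (a e) := fun e => (D.arc (a e) (b e) (hab e)).extend_zero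
  have hγ1 : ∀ e, γ e 1 = D.pt (b e) := fun e => (D.arc (a e) (b e) (hab e)).extend_one
  -- choice of the radius
  have r1 : ∀ᶠ ρ : ℝ in 𝓝[>] 0, ∀ u v : V, u ≠ v → ρ + ρ < dist (D.pt u) (D.pt v) := by
    rw [eventually_all]
    intro u
    rw [eventually_all]
    intro v
    rw [eventually_all]
    intro huv
    have h0 : 0 < dist (D.pt u) (D.pt v) := dist_pos.mpr fun h => huv (D.pt_inj h)
    have h1 : Tendsto (fun ρ : ℝ => ρ + ρ) (𝓝[>] 0) (𝓝 0) := by
      have h2 : Continuous fun ρ : ℝ => ρ + ρ := by fun_prop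
      have h3 := h2.tendsto 0
      rw [add_zero] at h3
      exact h3.mono_left nhdsWithin_le_nhds
    exact h1.eventually_lt_const h0
  have r2 : ∀ᶠ ρ : ℝ in 𝓝[>] 0, ∀ (e : G.edgeSet) (v : V), v ∉ e.1 →
      Disjoint (range (D.arc (a e) (b e) (hab e))) (Metric.closedBall (D.pt v) ρ) := by
    rw [eventually_all]
    intro e
    rw [eventually_all]
    intro v
    rw [eventually_all]
    intro hv
    have hK : IsCompact (range (D.arc (a e) (b e) (hab e))) :=
      isCompact_range (D.arc (a e) (b e) (hab e)).continuous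
    have hnot : D.pt v ∈ (range (D.arc (a e) (b e) (hab e)))ᶜ := by
      rintro ⟨t, ht⟩
      apply hv
      rw [heq e]
      rcases D.avoid _ _ (hab e) t v ht with h | h
      · rw [h]; exact Sym2.mem_mk_left _ _
      · rw [h]; exact Sym2.mem_mk_right _ _
    obtain ⟨ρ0, hρ0, hball⟩ := Metric.isOpen_iff.mp hK.isClosed.isOpen_compl _ hnot
    have hmem : Ioo (0 : ℝ) ρ0 ∈ 𝓝[>] (0 : ℝ) := Ioo_mem_nhdsGT hρ0
    filter_upwards [hmem] with ρ hρ
    rw [Set.disjoint_left]
    intro z hz hz2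
    exact hball (Metric.closedBall_subset_ball hρ.2 hz2) hz
  obtain ⟨ρ, h1, h2, h3⟩ := (r1.and (r2.and (self_mem_nhdsWithin : Ioi (0 : ℝ) ∈ 𝓝[>] 0))).exists
  have hρ : 0 < ρ := h3
  -- choice of the truncation
  have s1 : ∀ᶠ ε : ℝ in 𝓝[>] 0, ∀ e : G.edgeSet, γ e ε ∈ Metric.closedBall (D.pt (a e)) ρ ∧
      γ e (1 - ε) ∈ Metric.closedBall (D.pt (b e)) ρ := by
    rw [eventually_all]
    intro e
    have t1 : Tendsto (fun ε : ℝ => γ e ε) (𝓝[>] 0) (𝓝 (D.pt (a e))) := by
      have := (hγc e).tendsto 0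
      rw [hγ0] at this
      exact this.mono_left nhdsWithin_le_nhds
    have t2 : Tendsto (fun ε : ℝ => γ e (1 - ε)) (𝓝[>] 0) (𝓝 (D.pt (b e))) := by
      have hc : Continuous fun ε : ℝ => γ e (1 - ε) := (hγc e).comp (by fun_prop)
      have := hc.tendsto 0
      rw [sub_zero, hγ1] at this
      exact this.mono_left nhdsWithin_le_nhds
    exact (t1.eventually (Metric.closedBall_mem_nhds _ hρ)).and
      (t2.eventually (Metric.closedBall_mem_nhds _ hρ))
  obtain ⟨ε, h4, h5⟩ := (s1.and (Ioo_mem_nhdsGT (by norm_num : (0 : ℝ) < 1 / 2))).exists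
  have hε0 : 0 < ε := h5.1
  have hε1 : ε < 1 / 2 := h5.2
  -- the compact sets
  set K : G.edgeSet → Set (ℝ × ℝ) := fun e => γ e '' Icc ε (1 - ε) with hK
  set Z : V → Set (ℝ × ℝ) := fun v => Metric.closedBall (D.pt v) ρ with hZ
  have hKc : ∀ e, IsCompact (K e) := fun e => isCompact_Icc.image (hγc e)
  have hKconn : ∀ e, IsConnected (K e) := fun e =>
    (isConnected_Icc (by linarith)).image _ (hγc e).continuousOn
  have hZc : ∀ v, IsCompact (Z v) := fun v => isCompact_closedBall _ _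
  have hZconn : ∀ v, IsConnected (Z v) := fun v =>
    (convex_closedBall _ _).isConnected (Metric.nonempty_closedBall.mpr hρ.le)
  have hZd : ∀ u v, u ≠ v → Disjoint (Z u) (Z v) := fun u v huv =>
    Metric.closedBall_disjoint_closedBall (h1 u v huv)
  have hKrange : ∀ e, K e ⊆ range (D.arc (a e) (b e) (hab e)) := by
    rintro e _ ⟨t, ht, rfl⟩
    have := Path.extend_range (D.arc (a e) (b e) (hab e))
    rw [← this]
    exact mem_range_self t
  have hKZ : ∀ e v, v ∉ e.1 → Disjoint (K e) (Z v) := fun e v hv =>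
    (h2 e v hv).mono_left (hKrange e)
  -- choice of the mesh
  have m1 : ∀ L L' : Set (ℝ × ℝ), IsCompact L → IsCompact L' → Disjoint L L' →
      ∀ᶠ h : ℝ in 𝓝[>] 0, Disjoint (bset h L) (bset h L') := by
    intro L L' hL hL' hd
    obtain ⟨h0, hh0, hh⟩ := bset_disjoint L L' hL hL' hd
    filter_upwards [Ioo_mem_nhdsGT hh0] with h hh' using hh h hh'.1 hh'.2
  have m2 : ∀ᶠ h : ℝ in 𝓝[>] 0, ∀ u v : V, u ≠ v → Disjoint (bset h (Z u)) (bset h (Z v)) := by
    rw [eventually_all]; intro u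
    rw [eventually_all]; intro v
    rw [eventually_all]; intro huv
    exact m1 _ _ (hZc u) (hZc v) (hZd u v huv)
  have m3 : ∀ᶠ h : ℝ in 𝓝[>] 0, ∀ (e : G.edgeSet) (v : V), v ∉ e.1 →
      Disjoint (bset h (K e)) (bset h (Z v)) := by
    rw [eventually_all]; intro e
    rw [eventually_all]; intro v
    rw [eventually_all]; intro hv
    exact m1 _ _ (hKc e) (hZc v) (hKZ e v hv)
  have m4 : ∀ᶠ h : ℝ in 𝓝[>] 0, ∀ (e e' : G.edgeSet), Disjoint (K e) (K e') →
      Disjoint (bset h (K e)) (bset h (K e')) := by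
    rw [eventually_all]; intro e
    rw [eventually_all]; intro e'
    rw [eventually_all]; intro hd
    exact m1 _ _ (hKc e) (hKc e') hd
  obtain ⟨h, g1, g2, g3, g4⟩ :=
    (m2.and (m3.and (m4.and (self_mem_nhdsWithin : Ioi (0 : ℝ) ∈ 𝓝[>] 0)))).exists
  have hh : 0 < h := g4
  -- the box
  choose MK hMK using fun e => bset_box h hh (K e) (hKc e)
  choose MZ hMZ using fun v => bset_box h hh (Z v) (hZc v)
  have hbig : ∃ M : ℕ, (∀ e, MK e ≤ M) ∧ ∀ v, MZ v ≤ M := by
    refine ⟨Finset.univ.sup MK + Finset.univ.sup MZ, fun e => ?_, fun v => ?_⟩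
    · have := Finset.le_sup (f := MK) (Finset.mem_univ e)
      omega
    · have := Finset.le_sup (f := MZ) (Finset.mem_univ v)
      omega
  obtain ⟨M, hM1, hM2⟩ := hbig
  have htouch : ∀ L L' : Set (ℝ × ℝ), (L ∩ L').Nonempty → (bset h L ∩ bset h L').Nonempty := by
    rintro L L' ⟨z, hz, hz'⟩
    obtain ⟨p, hp⟩ := brick_cover h hh z
    exact ⟨p, ⟨z, hp, hz⟩, ⟨z, hp, hz'⟩⟩
  refine ⟨⟨M, fun v => bset h (Z v), fun e => bset h (K e), ?_, ?_, ?_, ?_, ?_, ?_, ?_, ?_⟩⟩
  · intro v p hp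
    exact (hMZ v p hp).mono (hM2 v)
  · intro e p hp
    exact (hMK e p hp).mono (hM1 e)
  · intro v
    exact bset_connected h hh _ (hZc v) (hZconn v)
  · intro e
    exact bset_connected h hh _ (hKc e) (hKconn e)
  · exact g1
  · intro e v hv
    apply htouch
    rw [heq e, Sym2.mem_iff] at hv
    rcases hv with rfl | rfl
    · exact ⟨γ e ε, mem_image_of_mem _ ⟨le_rfl, by linarith⟩, (h4 e).1⟩
    · exact ⟨γ e (1 - ε), mem_image_of_mem _ ⟨by linarith, le_rfl⟩, (h4 e).2⟩
  · exact g2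
  · intro e
    refine le_trans ?_ (hD (a e) (b e) (hab e))
    have hinj : Function.Injective (Subtype.val : G.edgeSet → Sym2 V) := Subtype.val_injective
    rw [← Set.ncard_image_of_injective _ hinj]
    apply Set.ncard_le_ncard _ (Set.toFinite _)
    rintro _ ⟨e', ⟨hne, hn⟩, rfl⟩
    refine ⟨fun hcon => hne (Subtype.ext (hcon.trans (heq e).symm)), a e', b e', hab e', heq e', ?_⟩
    have hnd : ¬ Disjoint (K e) (K e') := by
      intro hd
      exact Set.not_disjoint_iff_nonempty_inter.mpr hn (g3 e e' hd)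
    rw [Set.not_disjoint_iff] at hnd
    obtain ⟨z, ⟨t, ht, htz⟩, ⟨t', ht', htz'⟩⟩ := hnd
    have ht01 : t ∈ unitInterval := ⟨by linarith [ht.1], by linarith [ht.2]⟩
    have ht01' : t' ∈ unitInterval := ⟨by linarith [ht'.1], by linarith [ht'.2]⟩
    have e1 : γ e t = D.arc (a e) (b e) (hab e) ⟨t, ht01⟩ :=
      Path.extend_apply _ ht01
    have e2 : γ e' t' = D.arc (a e') (b e') (hab e') ⟨t', ht01'⟩ :=
      Path.extend_apply _ ht01'
    refine ⟨⟨t, ht01⟩, ⟨t', ht01'⟩, ?_, ?_⟩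
    · rw [← e1, ← e2, htz, htz']
    · intro w hw
      rcases D.avoid _ _ (hab e) _ w hw with h | h
      · subst h
        have : D.arc (a e) (b e) (hab e) ⟨t, ht01⟩ = D.arc (a e) (b e) (hab e) 0 := by
          rw [hw, Path.source]
        have := D.arc_inj _ _ _ this
        have h6 : t = 0 := congrArg Subtype.val this
        linarith [ht.1]
      · subst h
        have : D.arc (a e) (b e) (hab e) ⟨t, ht01⟩ = D.arc (a e) (b e) (hab e) 1 := by
          rw [hw, Path.target]
        have := D.arc_inj _ _ _ this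
        have h6 : t = 1 := congrArg Subtype.val this
        linarith [ht.2]

end KPT
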