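import Pool.Agent.Lib.KPL.TDefs
import Pool.Agent.Lib.KPL.D1
import Pool.Agent.Lib.KPL.D2
import Pool.Agent.Lib.KPL.T2

/-!
# From discrete drawings to string systems (module T5 of MP_641db7_co)
-/

set_option autoImplicit false

namespace KPT

open Set KPL

/-- two vertices of a connected induced subgraph are joined by a path of `N` inside the set -/
theorem T5_path {Q : Type} (N : SimpleGraph Q) (X : Set Q) (hX : (N.induce X).Preconnected)
    (a b : Q) (ha : a ∈ X) (hb : b ∈ X) :
    ∃ (n : ℕ) (c : ℕ → Q), c 0 = a ∧ c n = b ∧ (∀ i, i < n → N.Adj (c i) (c (i + 1))) ∧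
      (∀ i j, i ≤ n → j ≤ n → c i = c j → i = j) ∧ ∀ i, i ≤ n → c i ∈ X := by
  classical
  obtain ⟨w⟩ := hX ⟨a, ha⟩ ⟨b, hb⟩
  let p : (N.induce X).Path ⟨a, ha⟩ ⟨b, hb⟩ := w.toPath
  refine ⟨p.1.length, fun i => (p.1.getVert i).1, ?_, ?_, ?_, ?_, ?_⟩
  · simp
  · simp
  · intro i hi
    have := p.1.adj_getVert_succ hi
    exact this
  · intro i j hi hj hij
    have h1 : p.1.getVert i = p.1.getVert j := Subtype.ext hij
    exact p.2.getVert_injOn hi hj h1
  · intro i _
    exact (p.1.getVert i).2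

/-- the image of a connected set in a contraction is connected -/
theorem T5_image {Q Q' : Type} (N : SimpleGraph Q) (π : Q → Q') (X : Set Q)
    (hX : (N.induce X).Preconnected) : ((quo N π).induce (π '' X)).Preconnected := by
  rintro ⟨a, x, hx, rfl⟩ ⟨b, y, hy, rfl⟩
  obtain ⟨w⟩ := hX ⟨x, hx⟩ ⟨y, hy⟩
  have key : ∀ (u v : X) (_ : (N.induce X).Walk u v),
      ((quo N π).induce (π '' X)).Reachable ⟨π u.1, mem_image_of_mem π u.2⟩
        ⟨π v.1, mem_image_of_mem π v.2⟩ := by
    intro u v w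
    induction w with
    | nil => exact SimpleGraph.Reachable.refl _
    | @cons u v z h _ ih =>
      refine SimpleGraph.Reachable.trans ?_ ih
      by_cases he : π u.1 = π v.1
      · have : (⟨π u.1, mem_image_of_mem π u.2⟩ : (π '' X)) = ⟨π v.1, mem_image_of_mem π v.2⟩ :=
          Subtype.ext he
        rw [this]
      · refine SimpleGraph.Adj.reachable ?_
        exact ⟨he, u.1, v.1, rfl, rfl, h⟩
  exact key _ _ w

/-- the image of a connected lattice set in the sphere is connected -/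
theorem T5_lat {Q : Type} (N : SimpleGraph Q) (f : ℤ × ℤ → Q) (X : Set (ℤ × ℤ))
    (hf : ∀ p ∈ X, ∀ q ∈ X, triLat.Adj p q → N.Adj (f p) (f q))
    (hX : (triLat.induce X).Preconnected) : (N.induce (f '' X)).Preconnected := by
  rintro ⟨a, x, hx, rfl⟩ ⟨b, y, hy, rfl⟩
  obtain ⟨w⟩ := hX ⟨x, hx⟩ ⟨y, hy⟩
  have key : ∀ (u v : X) (_ : (triLat.induce X).Walk u v),
      (N.induce (f '' X)).Reachable ⟨f u.1, mem_image_of_mem f u.2⟩
        ⟨f v.1, mem_image_of_mem f v.2⟩ := by
    intro u v w
    induction w with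
    | nil => exact SimpleGraph.Reachable.refl _
    | @cons u v z h _ ih =>
      refine SimpleGraph.Reachable.trans ?_ ih
      refine SimpleGraph.Adj.reachable ?_
      exact hf _ u.2 _ v.2 h
  exact key _ _ w

/-- the union of two connected sets with a common point is connected -/
theorem T5_union {Q : Type} (N : SimpleGraph Q) (X Y : Set Q) (hX : (N.induce X).Preconnected)
    (hY : (N.induce Y).Preconnected) (h : (X ∩ Y).Nonempty) :
    (N.induce (X ∪ Y)).Preconnected := by
  exact SimpleGraph.induce_union_connected hX hY h |>.preconnected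

/-- `disc_strsys` from the statement of `grid_sphere` (module T1) for the box of `D` -/
theorem disc_strsys_of {V : Type} [Fintype V] (k : ℕ) (G : SimpleGraph V) (D : Disc G k)
    (hgrid : ∃ (I Q : Type) (_ : Fintype I) (_ : Fintype Q) (S : TriSphere I Q) (f : ℤ × ℤ → Q)
      (r : Q),
      (∀ p q, InBox D.M p → InBox D.M q → f p = f q → p = q) ∧
      (∀ p q, InBox D.M p → InBox D.M q → triLat.Adj p q → S.graph.Adj (f p) (f q)) ∧
      ∀ p, InBox D.M p → f p ≠ r) :
    ∃ (Q : Type) (_ : Fintype Q) (N : SimpleGraph Q) (Y : StrSys G N k) (r : Q),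
      N.Connected ∧ TreeProp N ∧ NoK33 N ∧ ∀ x, r ∉ Y.star x := by
  classical
  obtain ⟨I, Q₀, _, _, S, f, r₀, finj, fadj, fr⟩ := hgrid
  -- the fibres
  have hC0 : ∀ u v, ∀ q, q ∈ f '' D.C u → q ∈ f '' D.C v → u = v := by
    rintro u v q ⟨x, hx, rfl⟩ ⟨y, hy, hxy⟩
    by_contra huv
    have := finj y x (D.C_box v y hy) (D.C_box u x hx) hxy
    subst this
    exact (Set.disjoint_left.1 (D.C_disj u v huv)) hx hy
  let Z : Set Q₀ := {q | ∀ v, q ∉ f '' D.C v}
  let π : Q₀ → V ⊕ Z := fun q => if h : ∃ v, q ∈ f '' D.C v then Sum.inl h.choose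
    else Sum.inr ⟨q, fun v hv => h ⟨v, hv⟩⟩
  have πl : ∀ q v, π q = Sum.inl v ↔ q ∈ f '' D.C v := by
    intro q v
    constructor
    · intro h
      by_cases h1 : ∃ v, q ∈ f '' D.C v
      · have h2 : π q = Sum.inl h1.choose := dif_pos h1
        rw [h2] at h
        have h3 := h1.choose_spec
        rw [Sum.inl.inj h] at h3
        exact h3
      · have h2 : π q = Sum.inr ⟨q, fun v hv => h1 ⟨v, hv⟩⟩ := dif_neg h1
        rw [h2] at h
        exact absurd h (by simp)
    · intro h
      have h1 : ∃ v, q ∈ f '' D.C v := ⟨v, h⟩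
      have h2 : π q = Sum.inl h1.choose := dif_pos h1
      rw [h2, hC0 _ _ _ h1.choose_spec h]
  have πr : ∀ q (z : Z), π q = Sum.inr z → q = z.1 := by
    intro q z h
    by_cases h1 : ∃ v, q ∈ f '' D.C v
    · have h2 : π q = Sum.inl h1.choose := dif_pos h1
      rw [h2] at h
      exact absurd h (by simp)
    · have h2 : π q = Sum.inr ⟨q, fun v hv => h1 ⟨v, hv⟩⟩ := dif_neg h1
      rw [h2] at h
      exact congrArg Subtype.val (Sum.inr.inj h)
  have πr' : ∀ q (hq : q ∈ Z), π q = Sum.inr ⟨q, hq⟩ := by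
    intro q hq
    have h1 : ¬ ∃ v, q ∈ f '' D.C v := fun ⟨v, hv⟩ => hq v hv
    exact dif_neg h1
  have hfib : ∀ a, (S.graph.induce {x | π x = a}).Connected := by
    intro a
    rcases a with v | z
    · have h1 : {x | π x = Sum.inl v} = f '' D.C v := by
        ext q
        exact πl q v
      rw [h1]
      have h2 := (D.C_conn v).nonempty
      obtain ⟨p⟩ := h2
      have : Nonempty (f '' D.C v) := ⟨⟨f p.1, mem_image_of_mem f p.2⟩⟩
      refine SimpleGraph.Connected.mk ?_
      exact T5_lat S.graph f (D.C v)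
        (fun p hp q hq h => fadj p q (D.C_box v p hp) (D.C_box v q hq) h) (D.C_conn v).preconnected
    · have h1 : {x | π x = Sum.inr z} = {z.1} := by
        ext q
        constructor
        · intro h
          exact πr q z h
        · intro h
          rw [mem_singleton_iff] at h
          subst h
          exact πr' z.1 z.2
      rw [h1]
      have : Nonempty ({z.1} : Set Q₀) := ⟨⟨z.1, rfl⟩⟩
      refine SimpleGraph.Connected.mk ?_
      rintro ⟨x, hx⟩ ⟨y, hy⟩
      rw [mem_singleton_iff] at hx hy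
      subst hx
      subst hy
      exact SimpleGraph.Reachable.refl _
  have hN1 : (quo S.graph π).Connected := quo_connected _ π hfib S.connected
  have hN2 : TreeProp (quo S.graph π) := quo_treeProp _ π hfib S.treeProp
  have hN3 : NoK33 (quo S.graph π) := quo_noK33 _ π hfib (TriSphere.noK33 S)
  -- end vertices of the edges
  have hends : ∀ e : G.edgeSet, ∃ p : V × V, e.1 = s(p.1, p.2) := by
    rintro ⟨e, he⟩
    induction e with
    | _ u v => exact ⟨(u, v), rfl⟩
  choose en hen using hends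
  have hadj : ∀ e : G.edgeSet, G.Adj (en e).1 (en e).2 := by
    intro e
    have h := e.2
    rw [hen e] at h
    exact h
  have hmem : ∀ e : G.edgeSet, ∀ v, v ∈ e.1 ↔ v = (en e).1 ∨ v = (en e).2 := by
    intro e v
    rw [hen e, Sym2.mem_iff]
  -- the big connected sets
  let X : G.edgeSet → Set Q₀ := fun e =>
    (f '' D.B e ∪ f '' D.C (en e).1) ∪ f '' D.C (en e).2
  have hconC : ∀ v, (S.graph.induce (f '' D.C v)).Preconnected := fun v =>
    T5_lat S.graph f (D.C v)
      (fun p hp q hq h => fadj p q (D.C_box v p hp) (D.C_box v q hq) h) (D.C_conn v).preconnected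
  have hconB : ∀ e, (S.graph.induce (f '' D.B e)).Preconnected := fun e =>
    T5_lat S.graph f (D.B e)
      (fun p hp q hq h => fadj p q (D.B_box e p hp) (D.B_box e q hq) h) (D.B_conn e).preconnected
  have htouch : ∀ e : G.edgeSet, ∀ v, v ∈ e.1 → (f '' D.B e ∩ f '' D.C v).Nonempty := by
    intro e v hv
    obtain ⟨p, hp1, hp2⟩ := D.touch e v hv
    exact ⟨f p, mem_image_of_mem f hp1, mem_image_of_mem f hp2⟩
  have hXcon : ∀ e, (S.graph.induce (X e)).Preconnected := by
    intro e
    refine T5_union _ _ _ (T5_union _ _ _ (hconB e) (hconC _) ?_) (hconC _) ?_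
    · exact htouch e _ ((hmem e _).2 (Or.inl rfl))
    · obtain ⟨q, h1, h2⟩ := htouch e _ ((hmem e _).2 (Or.inr rfl))
      exact ⟨q, Or.inl h1, h2⟩
  have hCne : ∀ v, ∃ p, p ∈ D.C v := by
    intro v
    obtain ⟨p⟩ := (D.C_conn v).nonempty
    exact ⟨p.1, p.2⟩
  have hπX1 : ∀ e, Sum.inl (en e).1 ∈ π '' X e := by
    intro e
    obtain ⟨p, hp⟩ := hCne (en e).1
    exact ⟨f p, Or.inl (Or.inr (mem_image_of_mem f hp)), (πl _ _).2 (mem_image_of_mem f hp)⟩
  have hπX2 : ∀ e, Sum.inl (en e).2 ∈ π '' X e := by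
    intro e
    obtain ⟨p, hp⟩ := hCne (en e).2
    exact ⟨f p, Or.inr (mem_image_of_mem f hp), (πl _ _).2 (mem_image_of_mem f hp)⟩
  have hstr : ∀ e : G.edgeSet, ∃ nc : ℕ × (ℕ → V ⊕ Z), nc.2 0 = Sum.inl (en e).1 ∧
      nc.2 nc.1 = Sum.inl (en e).2 ∧
      (∀ i, i < nc.1 → (quo S.graph π).Adj (nc.2 i) (nc.2 (i + 1))) ∧
      (∀ i j, i ≤ nc.1 → j ≤ nc.1 → nc.2 i = nc.2 j → i = j) ∧
      ∀ i, i ≤ nc.1 → nc.2 i ∈ π '' X e := by
    intro e
    obtain ⟨n, c, h⟩ := T5_path (quo S.graph π) (π '' X e) (T5_image _ π _ (hXcon e))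
      (Sum.inl (en e).1) (Sum.inl (en e).2) (hπX1 e) (hπX2 e)
    exact ⟨(n, c), h⟩
  choose nc hc0 hcn hcadj hcinj hcX using hstr
  -- interior vertices
  have hpos : ∀ e, 0 < (nc e).1 := by
    intro e
    rcases Nat.eq_zero_or_pos (nc e).1 with h | h
    · exfalso
      have h1 := hcn e
      rw [h, hc0 e] at h1
      exact (hadj e).ne (Sum.inl.inj h1)
    · exact h
  have hint : ∀ e i, 0 < i → i < (nc e).1 → ∃ p ∈ D.B e, ∃ hz : f p ∈ Z,
      (nc e).2 i = Sum.inr ⟨f p, hz⟩ := by
    intro e i hi hin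
    obtain ⟨q, hq, hqi⟩ := hcX e i hin.le
    have hnl : ∀ v, (nc e).2 i ≠ Sum.inl v := by
      intro v hv
      rw [← hqi] at hv
      have hqv := (πl q v).1 hv
      have hv12 : v = (en e).1 ∨ v = (en e).2 := by
        rcases hq with (hq | hq) | hq
        · rw [← hmem e v]
          by_contra hne
          obtain ⟨x, hx, rfl⟩ := hq
          obtain ⟨y, hy, hxy⟩ := hqv
          have := finj y x (D.C_box v y hy) (D.B_box e x hx) hxy
          subst this
          exact (Set.disjoint_left.1 (D.away e v hne)) hx hy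
        · exact Or.inl (hC0 _ _ _ hqv hq)
        · exact Or.inr (hC0 _ _ _ hqv hq)
      rcases hv12 with rfl | rfl
      · rw [hqi, ← hc0 e] at hv
        have := hcinj e i 0 hin.le (Nat.zero_le _) hv
        omega
      · rw [hqi, ← hcn e] at hv
        have := hcinj e i _ hin.le le_rfl hv
        omega
    have hqZ : q ∈ Z := by
      intro v hv
      exact hnl v (by rw [← hqi]; exact (πl q v).2 hv)
    rcases hq with (hq | hq) | hq
    · obtain ⟨p, hp, rfl⟩ := hq
      exact ⟨p, hp, hqZ, by rw [← hqi]; exact πr' _ hqZ⟩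
    · exact absurd hq (hqZ _)
    · exact absurd hq (hqZ _)
  have hr₀ : r₀ ∈ Z := by
    rintro v ⟨p, hp, hpr⟩
    exact fr p (D.C_box v p hp) hpr
  let Y : StrSys G (quo S.graph π) k :=
    { ι := Sum.inl
      inj := Sum.inl_injective
      E := G.edgeSet
      fE := Fintype.ofFinite _
      src := fun e => (en e).1
      tgt := fun e => (en e).2
      adjG := hadj
      cover := by
        intro u v huv
        refine ⟨⟨s(u, v), huv⟩, ?_⟩
        have h := hen ⟨s(u, v), huv⟩
        rw [Sym2.eq_iff] at h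
        rcases h with ⟨h1, h2⟩ | ⟨h1, h2⟩
        · exact Or.inl ⟨h1.symm, h2.symm⟩
        · exact Or.inr ⟨h2.symm, h1.symm⟩
      len := fun e => (nc e).1
      c := fun e => (nc e).2
      len_pos := hpos
      c_zero := hc0
      c_len := hcn
      adjN := hcadj
      cinj := hcinj
      dummy := by
        intro e i hi hin v hv
        obtain ⟨p, hp, hz, h⟩ := hint e i hi hin
        rw [h] at hv
        exact absurd hv (by simp)
      crossing := by
        intro e
        refine le_trans (Set.ncard_le_ncard ?_ (Set.toFinite _)) (D.cross e)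
        rintro e' ⟨hne, i, j, hi, hin, hj, hjn, hij⟩
        refine ⟨hne, ?_⟩
        obtain ⟨p, hp, hz, h⟩ := hint e i hi hin
        obtain ⟨p', hp', hz', h'⟩ := hint e' j hj hjn
        rw [h, h'] at hij
        have h1 : f p = f p' := congrArg Subtype.val (Sum.inr.inj hij)
        have h2 := finj p p' (D.B_box e p hp) (D.B_box e' p' hp') h1
        subst h2
        exact ⟨p, hp, hp'⟩ }
  refine ⟨V ⊕ Z, Fintype.ofFinite _, quo S.graph π, Y, Sum.inr ⟨r₀, hr₀⟩, hN1, hN2, hN3, ?_⟩
  rintro x (h | ⟨e, -, i, hi, hin, h⟩)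
  · exact absurd h (by simp [Y])
  · obtain ⟨p, hp, hz, h'⟩ := hint e i hi hin
    have h2 : (nc e).2 i = Sum.inr ⟨r₀, hr₀⟩ := h
    rw [h'] at h2
    have h3 : f p = r₀ := congrArg Subtype.val (Sum.inr.inj h2)
    exact fr p (D.B_box e p hp) h3

end KPT
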