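import Pool.Agent.Lib.KPL.Defs

/-!
# Topological drawings and k-planar graphs (MP_641db7_co), definitions
-/

set_option autoImplicit false

namespace KPT

open Set KPL

/-- A drawing of `G` in the plane `ℝ × ℝ`: the vertices are distinct points, every edge `uv` is a
simple arc from `u` to `v` (with the reversed arc for `vu`), and an arc contains no vertex other than
its two end vertices. -/
structure Drawing {V : Type} (G : SimpleGraph V) where
  pt : V → ℝ × ℝ
  pt_inj : Function.Injective pt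
  arc : ∀ u v, G.Adj u v → Path (pt u) (pt v)
  arc_inj : ∀ u v h, Function.Injective (arc u v h)
  arc_symm : ∀ u v (h : G.Adj u v), arc v u h.symm = (arc u v h).symm
  avoid : ∀ u v h t w, arc u v h t = pt w → w = u ∨ w = v

/-- The edges `uv` and `u'v'` meet in a point of the plane that is not a vertex. -/
def Drawing.Meet {V : Type} {G : SimpleGraph V} (D : Drawing G) (u v : V) (h : G.Adj u v)
    (u' v' : V) (h' : G.Adj u' v') : Prop :=
  ∃ t t', D.arc u v h t = D.arc u' v' h' t' ∧ ∀ w, D.arc u v h t ≠ D.pt w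

/-- `G` is `k`-planar: it has a drawing in the plane in which every edge is crossed by at most `k`
other edges (i.e. meets at most `k` other edges in points that are not vertices). -/
def IsKPlanar (k : ℕ) {V : Type} (G : SimpleGraph V) : Prop :=
  ∃ D : Drawing G, ∀ u v (h : G.Adj u v),
    {e : Sym2 V | e ≠ s(u, v) ∧ ∃ (u' v' : V) (h' : G.Adj u' v'), e = s(u', v') ∧
      D.Meet u v h u' v' h'}.ncard ≤ k

/-! ## internal -/

/-- triangular lattice on `ℤ × ℤ`: neighbours differ by `±(1,0)`, `±(0,1)`, `±(1,-1)` -/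
def triLat : SimpleGraph (ℤ × ℤ) where
  Adj p q := (q.1 = p.1 + 1 ∧ q.2 = p.2) ∨ (p.1 = q.1 + 1 ∧ q.2 = p.2) ∨
    (q.1 = p.1 ∧ q.2 = p.2 + 1) ∨ (q.1 = p.1 ∧ p.2 = q.2 + 1) ∨
    (q.1 = p.1 + 1 ∧ p.2 = q.2 + 1) ∨ (p.1 = q.1 + 1 ∧ q.2 = p.2 + 1)
  symm := by
    constructor
    intro p q h
    omega
  loopless := by
    constructor
    intro p h
    omega

/-- the box `[-M, M]²` -/
def InBox (M : ℕ) (p : ℤ × ℤ) : Prop := |p.1| ≤ M ∧ |p.2| ≤ M

/-- contraction of the fibres of `π` -/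
def quo {Q Q' : Type} (N : SimpleGraph Q) (π : Q → Q') : SimpleGraph Q' where
  Adj a b := a ≠ b ∧ ∃ x y, π x = a ∧ π y = b ∧ N.Adj x y
  symm := by
    constructor
    rintro a b ⟨h, x, y, h1, h2, h3⟩
    exact ⟨h.symm, y, x, h2, h1, h3.symm⟩
  loopless := by
    constructor
    intro a h
    exact h.1 rfl

/-- brick of a brick wall of mesh `h`: any two touching bricks are equal or adjacent in `triLat` -/
def brick (h : ℝ) (p : ℤ × ℤ) : Set (ℝ × ℝ) :=
  {z | h * ((p.1 : ℝ) + (p.2 : ℝ) / 2) ≤ z.1 ∧ z.1 ≤ h * ((p.1 : ℝ) + 1 + (p.2 : ℝ) / 2) ∧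
    h * (p.2 : ℝ) ≤ z.2 ∧ z.2 ≤ h * ((p.2 : ℝ) + 1)}

/-- the bricks that meet `K` -/
def bset (h : ℝ) (K : Set (ℝ × ℝ)) : Set (ℤ × ℤ) := {p | (brick h p ∩ K).Nonempty}

/-- discrete drawing: blocks `C v` for the vertices and `B e` for the edges in the lattice -/
structure Disc {V : Type} (G : SimpleGraph V) (k : ℕ) where
  M : ℕ
  C : V → Set (ℤ × ℤ)
  B : G.edgeSet → Set (ℤ × ℤ)
  C_box : ∀ v, ∀ p ∈ C v, InBox M p
  B_box : ∀ e, ∀ p ∈ B e, InBox M p
  C_conn : ∀ v, (triLat.induce (C v)).Connected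
  B_conn : ∀ e, (triLat.induce (B e)).Connected
  C_disj : ∀ u v, u ≠ v → Disjoint (C u) (C v)
  touch : ∀ e : G.edgeSet, ∀ v ∈ e.1, (B e ∩ C v).Nonempty
  away : ∀ e : G.edgeSet, ∀ v, v ∉ e.1 → Disjoint (B e) (C v)
  cross : ∀ e : G.edgeSet, {e' | e' ≠ e ∧ (B e ∩ B e').Nonempty}.ncard ≤ k

end KPT
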