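import Pool.Agent.Lib.KPL.T1
import Pool.Agent.Lib.KPL.T4
import Pool.Agent.Lib.KPL.T5
import Pool.Agent.Lib.KPL.F

/-! Final theorem for topological drawings -/

set_option autoImplicit false

namespace KPT

open KPL

theorem kplanar_inProduct {V : Type} [Fintype V] (k : ℕ) (G : SimpleGraph V) (h : IsKPlanar k G) :
    InProduct G 3 (fK k) := by
  obtain ⟨D⟩ := kplanar_disc k G h
  obtain ⟨Q, fQ, N, Y, r, h1, h2, h3, h4⟩ := disc_strsys_of k G D (grid_sphere D.M)
  exact core Y h1 h2 h3 r h4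

/-- monotonicity in the size of the clique -/
theorem InProduct.mono {V : Type} {G : SimpleGraph V} {t m m' : ℕ} (hm : m ≤ m')
    (h : InProduct G t m) : InProduct G t m' := by
  obtain ⟨A, fA, H, n, htw, f, hf, hadj⟩ := h
  refine ⟨A, fA, H, n, htw, fun v => ((f v).1, Fin.castLE hm (f v).2), ?_, ?_⟩
  · intro u v huv
    have h1 := congrArg Prod.fst huv
    have h2 := congrArg Prod.snd huv
    simp only at h1 h2
    apply hf
    exact Prod.ext h1 (Fin.castLE_injective hm h2)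
  · intro u v huv
    obtain ⟨h1, h2, h3⟩ := hadj u v huv
    refine ⟨?_, h2, ?_⟩
    · intro h
      apply h1
      have h1' := congrArg Prod.fst h
      have h2' := congrArg Prod.snd h
      simp only at h1' h2'
      exact Prod.ext h1' (Fin.castLE_injective hm h2')
    · rcases h3 with h3 | h3
      · left; simp [h3]
      · right
        rw [SimpleGraph.top_adj] at h3 ⊢
        intro h
        exact h3 (Fin.castLE_injective hm h)

theorem fK_le (k : ℕ) : fK k ≤ (2 * 216 * 42 ^ 8 * 3 * 4 * 2) * (k + 1) ^ 18 := by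
  have h1 : m0 k ≤ 42 * (k + 1) ^ 2 := by
    unfold m0 w0 d0
    nlinarith
  have h2 : m0 k ^ 8 ≤ (42 * (k + 1) ^ 2) ^ 8 := Nat.pow_le_pow_left h1 8
  unfold fK N0 w0
  calc 2 * (216 * m0 k ^ 8) * (3 * (4 * (2 * (k + 1) * (k + 1))))
      ≤ 2 * (216 * (42 * (k + 1) ^ 2) ^ 8) * (3 * (4 * (2 * (k + 1) * (k + 1)))) := by gcongr
    _ = (2 * 216 * 42 ^ 8 * 3 * 4 * 2) * (k + 1) ^ 18 := by ring

theorem main : ∃ C : ℕ, ∀ (k : ℕ) (V : Type) (_ : Fintype V) (G : SimpleGraph V),
    IsKPlanar k G → InProduct G 3 (C * (k + 1) ^ 18) := by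
  refine ⟨_, fun k V _ G h => InProduct.mono (fK_le k) (kplanar_inProduct k G h)⟩

end KPT
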